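import Pool.Agent.H615R3.FreeMain

set_option autoImplicit false

namespace Pool.Agent.H615R3.Free

open Filter Topology Finset BoundedContinuousFunction Classical

variable (𝕂 : Type) [RCLike 𝕂]

/-- rational points of the field -/
noncomputable def cf (q : ℚ × ℚ) : 𝕂 := ((q.1 : ℝ) : 𝕂) + ((q.2 : ℝ) : 𝕂) * RCLike.I

lemma cf_zero : cf 𝕂 0 = 0 := by simp [cf]

lemma cf_dense (z : 𝕂) (η : ℝ) (hη : 0 < η) : ∃ q : ℚ × ℚ, ‖z - cf 𝕂 q‖ ≤ η := by
  obtain ⟨p, hp1, hp2⟩ := exists_rat_btwn (show RCLike.re z - η / 2 < RCLike.re z by linarith)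
  obtain ⟨q, hq1, hq2⟩ := exists_rat_btwn (show RCLike.im z - η / 2 < RCLike.im z by linarith)
  refine ⟨(p, q), ?_⟩
  have h1 : z - cf 𝕂 (p, q) = ((RCLike.re z - p : ℝ) : 𝕂) + ((RCLike.im z - q : ℝ) : 𝕂) * RCLike.I := by
    conv_lhs => rw [← RCLike.re_add_im z]
    unfold cf
    push_cast
    ring
  rw [h1]
  refine (norm_add_le _ _).trans ?_
  rw [norm_mul, RCLike.norm_ofReal, RCLike.norm_ofReal, abs_of_nonneg (by linarith),
    abs_of_nonneg (by linarith)]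
  have h2 : ‖(RCLike.I : 𝕂)‖ ≤ 1 := by rw [RCLike.norm_I]; split_ifs <;> norm_num
  have h3 : (RCLike.im z - q) * ‖(RCLike.I : 𝕂)‖ ≤ (RCLike.im z - q) * 1 := by
    apply mul_le_mul_of_nonneg_left h2 (by linarith)
  linarith

lemma exists_enum : ∃ e : ℕ → (Gen →₀ 𝕂), ∀ v : Gen →₀ 𝕂, ∀ η : ℝ, 0 < η →
    ∃ j, (e j).support ⊆ v.support ∧ ∀ i, ‖v i - e j i‖ ≤ η := by
  obtain ⟨g, hg⟩ := exists_surjective_nat (Gen →₀ ℚ × ℚ)
  refine ⟨fun n => (g n).mapRange (cf 𝕂) (cf_zero 𝕂), fun v η hη => ?_⟩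
  choose q hq using fun z : 𝕂 => cf_dense 𝕂 z η hη
  obtain ⟨j, hj⟩ := hg (Finsupp.onFinset v.support
    (fun i => if v i = 0 then 0 else q (v i)) (by
      intro i hi
      rw [Finsupp.mem_support_iff]
      intro h0
      simp [h0] at hi))
  refine ⟨j, ?_, fun i => ?_⟩
  · refine Finsupp.support_mapRange.trans ?_
    rw [hj]
    exact Finsupp.support_onFinset_subset
  · rw [Finsupp.mapRange_apply, hj, Finsupp.onFinset_apply]
    by_cases h0 : v i = 0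
    · rw [if_pos h0, h0, cf_zero]; simpa using hη.le
    · rw [if_neg h0]; exact hq _

variable {𝕂}

lemma exists_b (v : Gen →₀ 𝕂) :
    ∃ b : ℕ, (∀ i ∈ v.support, i.1 < b) ∧ ∑ i ∈ v.support, ‖v i‖ ≤ 4 ^ b := by
  obtain ⟨n, hn⟩ := pow_unbounded_of_one_lt (∑ i ∈ v.support, ‖v i‖) (by norm_num : (1 : ℝ) < 4)
  refine ⟨max (v.support.sup (fun i => i.1) + 1) n, fun i hi => ?_, ?_⟩
  · have : i.1 ≤ v.support.sup (fun i => i.1) := Finset.le_sup (f := fun i : Gen => i.1) hi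
    exact lt_of_lt_of_le (by omega) (le_max_left _ _)
  · refine hn.le.trans ?_
    exact pow_le_pow_right₀ (by norm_num) (le_max_right _ _)

lemma vec_diff (D : Data 𝕂) (v u : Gen →₀ 𝕂) (hsub : u.support ⊆ v.support) (η : ℝ)
    (h : ∀ i, ‖v i - u i‖ ≤ η) :
    ‖vec D v - vec D u‖ ≤ (∑ i ∈ v.support, (4 : ℝ) ^ i.1) * η := by
  have h1 : vec D u = ∑ i ∈ v.support, u i • gen D i := by
    unfold vec
    rw [Finsupp.sum_of_support_subset _ hsub]
    intro i _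
    simp
  have h2 : vec D v = ∑ i ∈ v.support, v i • gen D i := rfl
  rw [h1, h2, ← sum_sub_distrib, sum_mul]
  refine (norm_sum_le _ _).trans (sum_le_sum fun i _ => ?_)
  rw [← sub_smul, norm_smul, mul_comm]
  have h3 : ‖gen D i‖ ≤ 4 ^ i.1 := by
    rw [BoundedContinuousFunction.norm_le (by positivity)]
    intro ϕ
    exact ϕ.bd i.1 i.2
  have h4 := h i
  gcongr

/-- index of the vector attached to class `k` -/
def cls (k : ℕ) : ℕ := (Nat.unpair k).1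

lemma cls_le (k : ℕ) : cls k ≤ k := Nat.unpair_left_le k

lemma cls_lt (k : ℕ) (hk : 1 ≤ k) : cls k < k := Nat.unpair_lt hk

variable (𝕂)

/-- a dense sequence of vectors with bounds -/
structure Enum where
  e : ℕ → (Gen →₀ 𝕂)
  bb : ℕ → ℕ
  dense : ∀ v : Gen →₀ 𝕂, ∀ η : ℝ, 0 < η →
    ∃ j, (e j).support ⊆ v.support ∧ ∀ i, ‖v i - e j i‖ ≤ η
  supp : ∀ k, ∀ i ∈ (e k).support, i.1 < bb k
  nrm : ∀ k, ∑ i ∈ (e k).support, ‖e k i‖ ≤ 4 ^ bb k

lemma nonempty_enum : Nonempty (Enum 𝕂) := by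
  obtain ⟨e, he⟩ := exists_enum 𝕂
  choose bb hb1 hb2 using fun k => exists_b (e k)
  exact ⟨⟨e, bb, he, hb1, hb2⟩⟩

variable {𝕂}

/-- the precision exponents -/
def Enum.Lam (E : Enum 𝕂) (k : ℕ) : ℕ := ∑ j ∈ range (k + 1), (1 + 2 * E.bb j)

lemma Enum.Lam_mono (E : Enum 𝕂) : Monotone E.Lam := by
  intro a b hab
  unfold Enum.Lam
  apply sum_le_sum_of_subset
  intro j hj
  rw [mem_range] at *
  omega

lemma Enum.Lam_ge (E : Enum 𝕂) (k : ℕ) : k + 1 + 2 * E.bb (cls k) ≤ E.Lam k := by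
  unfold Enum.Lam
  rw [sum_add_distrib]
  have h1 : ∑ j ∈ range (k + 1), 1 = k + 1 := by simp
  have h2 : 2 * E.bb (cls k) ≤ ∑ j ∈ range (k + 1), 2 * E.bb j := by
    apply Finset.single_le_sum (f := fun j => 2 * E.bb j) (fun j _ => Nat.zero_le _)
    rw [mem_range]
    have := cls_le k
    omega
  omega

/-- data from an enumeration and slot sets -/
def Enum.data (E : Enum 𝕂) (A : ℕ → Set ℕ) : Data 𝕂 where
  x := fun k => E.e (cls k)
  A := A
  Lam := E.Lam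
  b := fun k => E.bb (cls k)
  supp := fun k => E.supp (cls k)
  nrm := fun k => E.nrm (cls k)

/-- the general theorem for slot sets -/
theorem Enum.hyp (E : Enum 𝕂) (A : ℕ → Set ℕ) (Big : Set ℕ → Prop)
    (hmono : ∀ S S' : Set ℕ, S ⊆ S' → Big S → Big S') (hA : ∀ k, Big (A k))
    (hgood : ∀ S, Big S → ∃ k, ∀ a : Bool → 𝕂, (∀ r, ‖a r‖ ≤ 1) →
      pisum (E.e (cls k)) a = 0 → Good (E.data A) S a) : Hyp (E.data A) Big where
  mono := hmono
  dense := by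
    intro v η hη
    have hpos : 0 < (∑ i ∈ v.support, (4 : ℝ) ^ i.1) + 1 := by positivity
    obtain ⟨j, hj1, hj2⟩ := E.dense v (η / 2 / ((∑ i ∈ v.support, (4 : ℝ) ^ i.1) + 1))
      (by positivity)
    refine ⟨Nat.pair j 0, ?_⟩
    have h1 : (E.data A).x (Nat.pair j 0) = E.e j := by
      show E.e (cls (Nat.pair j 0)) = E.e j
      unfold cls
      rw [Nat.unpair_pair]
    rw [h1]
    refine (vec_diff _ v _ hj1 _ hj2).trans_lt ?_
    rw [mul_div_assoc', div_lt_iff₀ hpos]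
    have h2 : (0 : ℝ) ≤ ∑ i ∈ v.support, (4 : ℝ) ^ i.1 := by positivity
    nlinarith
  cof := by
    intro k t
    refine ⟨Nat.pair (cls k) t, ?_, ?_, hA _⟩
    · show E.e (cls (Nat.pair (cls k) t)) = E.e (cls k)
      unfold cls
      rw [Nat.unpair_pair]
    · have h1 := E.Lam_ge (Nat.pair (cls k) t)
      have h2 := Nat.right_le_pair (cls k) t
      show t ≤ E.Lam (Nat.pair (cls k) t)
      omega
  good := hgood

end Pool.Agent.H615R3.Free
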