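import Pool.Agent.H615R3.FRComb3
import Pool.Agent.H615R3.FreeEnum

set_option autoImplicit false

namespace Pool.Agent.H615R3.FR

open Finset Classical Pool.Agent.H615R3.Free

variable {Lam : ℕ → ℕ}

/-- the slot sets have positive lower density -/
lemma big_A (hLm : StrictMono Lam) (hLk : ∀ k, k + 1 ≤ Lam k) (k : ℕ) : BigL (A Lam k) := by
  have hRk := R_pos Lam k
  have hRk1 := R_pos Lam (k + 1)
  have hR64 := R_succ Lam hLk hLm k
  have hpk1 := p_pos Lam (k + 1)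
  refine ⟨1 / (32 * R Lam k ^ 2 * p Lam (k + 1)), by positivity, 2 * p Lam (k + 2), fun N hN => ?_⟩
  have hpk2 := p_pos Lam (k + 2)
  obtain ⟨s, hs1, hs2⟩ := exists_stage Lam hLm hLk (N / 2) (by omega)
  have hks : k + 2 ≤ s := by
    by_contra hc
    have := p_mono Lam (show s + 1 ≤ k + 2 by omega)
    omega
  have hps := p_pos Lam s
  -- p_s = p_{k+1} q
  obtain ⟨c, hc⟩ := p_dvd Lam hks
  have hcpos : 0 < c := by
    rcases Nat.eq_zero_or_pos c with h | h
    · rw [h, mul_zero] at hc; omega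
    · exact h
  set q := 64 ^ (3 * Lam (k + 2)) * c with hq
  have hqpos : 0 < q := by positivity
  have hpsq : p Lam s = p Lam (k + 1) * q := by
    rw [hc, hq]
    show p Lam (k + 1) * 64 ^ (3 * Lam (k + 2)) * c = _
    ring
  have hLk2 : Lam (k + 1) + 1 ≤ Lam (k + 2) := hLm (by omega)
  have hLk1 : Lam k + 1 ≤ Lam (k + 1) := hLm (by omega)
  obtain ⟨u1, hu1⟩ : R Lam (k + 1) ∣ q :=
    dvd_mul_of_dvd_left ((R_dvd Lam (k + 1)).trans (pow_dvd_pow _ (by omega))) _
  obtain ⟨u2, hu2⟩ : 2 * R Lam k ∣ q := by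
    have h1 : 2 * R Lam k ∣ 64 ^ (Lam k + 1) := by
      rw [pow_succ, mul_comm]
      exact mul_dvd_mul (R_dvd Lam k) (by norm_num)
    exact dvd_mul_of_dvd_left (h1.trans (pow_dvd_pow _ (by omega))) _
  set r := 64 ^ (3 * Lam (s + 1)) with hr
  have hps1 : p Lam (s + 1) = p Lam s * r := rfl
  obtain ⟨v, hv⟩ : 2 * R Lam k ∣ r := by
    have h1 : 2 * R Lam k ∣ 64 ^ (Lam k + 1) := by
      rw [pow_succ, mul_comm]
      exact mul_dvd_mul (R_dvd Lam k) (by norm_num)
    have h2 : Lam k + 1 ≤ Lam (s + 1) := hLm (by omega)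
    exact h1.trans (pow_dvd_pow _ (by omega))
  have hu12 : 32 * u1 ≤ u2 := by
    have h1 : 64 * R Lam k * u1 ≤ 2 * R Lam k * u2 := by
      rw [← hu2, hu1]
      exact Nat.mul_le_mul_right _ hR64
    have h2 : (2 * R Lam k) * (32 * u1) ≤ (2 * R Lam k) * u2 := by
      calc (2 * R Lam k) * (32 * u1) = 64 * R Lam k * u1 := by ring
        _ ≤ _ := h1
    exact Nat.le_of_mul_le_mul_left h2 (by omega)
  have hu2pos : 0 < u2 := by
    rcases Nat.eq_zero_or_pos u2 with h | h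
    · rw [h, mul_zero] at hu2; omega
    · exact h
  have hv2 : 2 ≤ v := by
    have h1 : 4 * R Lam k ≤ r := by
      have h2 := R_le Lam k
      have h3 : Lam k + 1 ≤ Lam (s + 1) := hLm (by omega)
      calc 4 * R Lam k ≤ 64 * 64 ^ Lam k := by gcongr; norm_num
        _ = 64 ^ (Lam k + 1) := by rw [pow_succ]; ring
        _ ≤ r := Nat.pow_le_pow_right (by norm_num) (by omega)
    by_contra hcv
    have h2 : v ≤ 1 := by omega
    have h3 : r ≤ 2 * R Lam k * 1 := by rw [hv]; exact Nat.mul_le_mul_left _ h2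
    omega
  set T := min (N / p Lam s) v with hT
  have hTN : T ≤ N / p Lam s := min_le_left _ _
  have hTv : T ≤ v := min_le_right _ _
  have hNp2 : 2 ≤ N / p Lam s := by
    rw [Nat.le_div_iff_mul_le hps]; omega
  have hT2 : 2 ≤ T := le_min hNp2 hv2
  have hTp : T * p Lam s ≤ N := by
    calc T * p Lam s ≤ N / p Lam s * p Lam s := Nat.mul_le_mul_right _ hTN
      _ ≤ N := Nat.div_mul_le_self _ _
  have hTr : 2 * (T * p Lam s * R Lam k) ≤ p Lam (s + 1) := by
    rw [hps1, hv]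
    calc 2 * (T * p Lam s * R Lam k) = p Lam s * (2 * R Lam k * T) := by ring
      _ ≤ p Lam s * (2 * R Lam k * v) := by gcongr
  -- lower bound for T
  have hTlow : N ≤ 4 * R Lam k * p Lam s * T := by
    rcases min_choice (N / p Lam s) v with h | h
    · rw [hT, h]
      have h1 := Nat.lt_mul_div_succ N hps
      have h2 : p Lam s * (N / p Lam s) * 2 ≥ p Lam s * (N / p Lam s) + p Lam s := by
        have : p Lam s * 2 ≤ p Lam s * (N / p Lam s) := Nat.mul_le_mul_left _ hNp2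
        omega
      have h3 : N < p Lam s * (N / p Lam s) * 2 := by
        rw [mul_add, mul_one] at h1; omega
      calc N ≤ p Lam s * (N / p Lam s) * 2 := h3.le
        _ ≤ p Lam s * (N / p Lam s) * (4 * R Lam k) := by
            apply Nat.mul_le_mul_left; omega
        _ = _ := by ring
    · rw [hT, h]
      have h1 : 4 * R Lam k * p Lam s * v = 2 * p Lam (s + 1) := by
        rw [hps1, hv]; ring
      rw [h1]; omega
  -- the injection
  have hinj : Set.InjOn (fun tj : ℕ × ℕ => tj.1 * p Lam s + tj.2 * p Lam (k + 1))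
      ((Ico 1 T ×ˢ Ico u1 u2 : Finset (ℕ × ℕ)) : Set (ℕ × ℕ)) := by
    rintro ⟨t, j⟩ h1 ⟨t', j'⟩ h2 h
    simp only [coe_product, coe_Ico, Set.mem_prod, Set.mem_Ico] at h1 h2
    simp only at h
    have hj : j * p Lam (k + 1) < p Lam s := by
      rw [hpsq, mul_comm]
      apply Nat.mul_lt_mul_of_pos_left _ hpk1
      rw [hu2]
      calc j < u2 := h1.2.2
        _ ≤ 2 * R Lam k * u2 := Nat.le_mul_of_pos_left _ (by omega)
    have hj' : j' * p Lam (k + 1) < p Lam s := by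
      rw [hpsq, mul_comm]
      apply Nat.mul_lt_mul_of_pos_left _ hpk1
      rw [hu2]
      calc j' < u2 := h2.2.2
        _ ≤ 2 * R Lam k * u2 := Nat.le_mul_of_pos_left _ (by omega)
    have e1 : (t * p Lam s + j * p Lam (k + 1)) % p Lam s = j * p Lam (k + 1) := by
      rw [add_comm, Nat.add_mul_mod_self_right, Nat.mod_eq_of_lt hj]
    have e2 : (t' * p Lam s + j' * p Lam (k + 1)) % p Lam s = j' * p Lam (k + 1) := by
      rw [add_comm, Nat.add_mul_mod_self_right, Nat.mod_eq_of_lt hj']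
    have e3 : j * p Lam (k + 1) = j' * p Lam (k + 1) := by rw [← e1, ← e2, h]
    have e4 : t * p Lam s = t' * p Lam s := by omega
    rw [Nat.eq_of_mul_eq_mul_right hpk1 e3, Nat.eq_of_mul_eq_mul_right hps e4]
  have hmap : ∀ tj ∈ (Ico 1 T ×ˢ Ico u1 u2 : Finset (ℕ × ℕ)),
      (fun tj : ℕ × ℕ => tj.1 * p Lam s + tj.2 * p Lam (k + 1)) tj ∈
      (Icc 1 N).filter (· ∈ A Lam k) := by
    rintro ⟨t, j⟩ h1
    simp only [mem_product, mem_Ico] at h1
    obtain ⟨⟨ht1, ht2⟩, hj1, hj2⟩ := h1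
    simp only [mem_filter, mem_Icc]
    have hj3 : 2 * (j * p Lam (k + 1) * R Lam k) < p Lam s := by
      rw [hpsq, hu2]
      calc 2 * (j * p Lam (k + 1) * R Lam k) = p Lam (k + 1) * (2 * R Lam k * j) := by ring
        _ < p Lam (k + 1) * (2 * R Lam k * u2) := by
            apply Nat.mul_lt_mul_of_pos_left _ hpk1
            exact Nat.mul_lt_mul_of_pos_left hj2 (by omega)
    have hj4 : j * p Lam (k + 1) < p Lam s := by
      have : j * p Lam (k + 1) ≤ j * p Lam (k + 1) * R Lam k := Nat.le_mul_of_pos_right _ hRk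
      omega
    have e1 : (t * p Lam s + j * p Lam (k + 1)) % p Lam s = j * p Lam (k + 1) := by
      rw [add_comm, Nat.add_mul_mod_self_right, Nat.mod_eq_of_lt hj4]
    have ht3 : t * p Lam s + j * p Lam (k + 1) ≤ T * p Lam s := by
      have : (t + 1) * p Lam s ≤ T * p Lam s := Nat.mul_le_mul_right _ ht2
      rw [add_mul, one_mul] at this
      omega
    have ht4 : p Lam s ≤ t * p Lam s := Nat.le_mul_of_pos_left _ ht1
    refine ⟨⟨by omega, by omega⟩, ?_, s, hks, by omega, ?_, ?_, ?_⟩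
    · exact dvd_add (Dvd.dvd.mul_left (p_dvd Lam (by omega)) t) (Dvd.intro_left _ rfl)
    · calc 2 * ((t * p Lam s + j * p Lam (k + 1)) * R Lam k) ≤ 2 * (T * p Lam s * R Lam k) := by
            gcongr
        _ ≤ _ := hTr
    · rw [e1, hpsq, hu1]
      calc p Lam (k + 1) * (R Lam (k + 1) * u1) = u1 * p Lam (k + 1) * R Lam (k + 1) := by ring
        _ ≤ j * p Lam (k + 1) * R Lam (k + 1) := by gcongr
    · rw [e1]; exact hj3
  have hcard := card_le_card_of_injOn _ hmap hinj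
  rw [card_product, Nat.card_Ico, Nat.card_Ico] at hcard
  rw [ncard_eq]
  set cnt := ((Icc 1 N).filter (· ∈ A Lam k)).card with hcnt
  have hfin : N * q ≤ 32 * R Lam k ^ 2 * p Lam (k + 1) * cnt * q := by
    have h1 : T ≤ 2 * (T - 1) := by omega
    have h2 : q ≤ 4 * R Lam k * (u2 - u1) := by
      have : u2 ≤ 2 * (u2 - u1) := by omega
      calc q = 2 * R Lam k * u2 := hu2
        _ ≤ 2 * R Lam k * (2 * (u2 - u1)) := by gcongr
        _ = _ := by ring
    calc N * q ≤ (4 * R Lam k * p Lam s * T) * (4 * R Lam k * (u2 - u1)) :=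
          Nat.mul_le_mul hTlow h2
      _ ≤ (4 * R Lam k * p Lam s * (2 * (T - 1))) * (4 * R Lam k * (u2 - u1)) := by gcongr
      _ = 32 * R Lam k ^ 2 * p Lam s * ((T - 1) * (u2 - u1)) := by ring
      _ ≤ 32 * R Lam k ^ 2 * p Lam s * cnt := by gcongr
      _ = 32 * R Lam k ^ 2 * p Lam (k + 1) * cnt * q := by rw [hpsq]; ring
  have hfin2 : N ≤ 32 * R Lam k ^ 2 * p Lam (k + 1) * cnt := Nat.le_of_mul_le_mul_right hfin hqpos
  have hfin3 : (N : ℝ) ≤ 32 * R Lam k ^ 2 * p Lam (k + 1) * cnt := by exact_mod_cast hfin2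
  have hpk1r : (0 : ℝ) < p Lam (k + 1) := by exact_mod_cast hpk1
  have hRkr : (0 : ℝ) < R Lam k := by exact_mod_cast hRk
  rw [one_div, inv_mul_le_iff₀ (by positivity)]
  exact hfin3

variable {𝕂 : Type} [RCLike 𝕂]

/-- the data -/
noncomputable def dat (E : Enum 𝕂) : Data 𝕂 := E.data (A E.Lam)

lemma lam_strict (E : Enum 𝕂) : StrictMono E.Lam := by
  apply strictMono_nat_of_lt_succ
  intro n
  unfold Enum.Lam
  rw [sum_range_succ _ (n + 1)]
  omega

lemma fr_core (E : Enum 𝕂) (S : Set ℕ) (a : Bool → 𝕂) (δ : ℝ) (hδ : 0 < δ) (h k1 : ℕ)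
    (hk1 : h ≤ k1) (η : ℝ) (hη : 0 < η) (m₀ i ks : ℕ) (F : Finset ℕ)
    (hik : k1 + 2 ≤ i) (hm₀ : m₀ ≤ i) (hmi : 2 * (m₀ : ℝ) ≤ η * δ * i)
    (hks : ks < k1) (hperp : pisum (E.e (Free.cls ks)) a = 0)
    (hF : ∀ y ∈ F, y ∈ S ∧ p E.Lam i ≤ y ∧ y ≤ NN E.Lam i ∧
      (y % p E.Lam i) * R E.Lam ks < p E.Lam i ∧
      p E.Lam i ≤ (y % p E.Lam i) * R E.Lam (ks + 1)) (hFc : δ * NN E.Lam i ≤ F.card) :
    F.Nonempty ∧
    (∀ n ∈ F, n ∈ S) ∧ ∃ low : ℕ → Prop, (∀ m < h, low m) ∧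
    (∀ k, ∀ n ∈ (dat E).A k, (∀ l < (dat E).Lam k + 2 * (dat E).b k + h, (low (n + l) ↔ low l)) ∨
      (pisum ((dat E).x k) a = 0 ∧ (∀ l < (dat E).Lam k + 2 * (dat E).b k + h, low l) ∧
        ((∀ l < (dat E).Lam k + 2 * (dat E).b k + h, low (n + l)) ∨
          (∀ l < (dat E).Lam k + 2 * (dat E).b k + h, ¬ low (n + l))))) ∧
    (∀ k, ∀ n ∈ (dat E).A k, ∀ l < (dat E).Lam k + 2 * (dat E).b k,
      4 ^ ((dat E).Lam k + (dat E).b k) *
        ((F.filter fun y => ¬ (low (y + l + n) ↔ low (y + l))).card : ℝ) ≤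
        (12 / δ + 16 ^ E.Lam k1) * F.card) ∧
    (∀ m ≤ m₀, ((F.filter fun y => low (y + m)).card : ℝ) ≤ η * F.card) := by
  have hLm := lam_strict E
  have hLb : ∀ k, k + 1 + 2 * E.bb (Free.cls k) ≤ E.Lam k := E.Lam_ge
  have hLk : ∀ k, k + 1 ≤ E.Lam k := fun k => by have := hLb k; omega
  have hNpos : 0 < NN E.Lam i := by
    have h1 := p_pos E.Lam i
    have h2 := p_le_NN (Lam := E.Lam) i
    omega
  have hNr : (0 : ℝ) < NN E.Lam i := by exact_mod_cast hNpos
  have hFpos : (0 : ℝ) < F.card := lt_of_lt_of_le (by positivity) hFc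
  have hF' : ∀ y ∈ F, p E.Lam i ≤ y ∧ y ≤ NN E.Lam i ∧
      (y % p E.Lam i) * R E.Lam ks < p E.Lam i ∧
      p E.Lam i ≤ (y % p E.Lam i) * R E.Lam (ks + 1) := fun y hy => (hF y hy).2
  refine ⟨card_pos.1 (by exact_mod_cast hFpos), fun n hn => (hF n hn).1,
    low E.Lam i k1 ks, ?_, ?_, ?_, ?_⟩
  · intro m hm
    apply low0
    have := p_ge E.Lam hLm hLk i
    omega
  · intro k n hn
    rcases fr_phi hLm hLk hk1 hik (fun k => E.bb (Free.cls k)) hLb k n hn (ks := ks) with h1 | h1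
    · exact Or.inl h1
    · right
      refine ⟨?_, h1.2⟩
      obtain ⟨⟨h2, h3⟩, _⟩ := h1
      subst h2
      exact hperp
  · intro k n hn l hl
    have hb := hLb k
    have e1 : (dat E).Lam k = E.Lam k := rfl
    have e2 : (dat E).b k = E.bb (Free.cls k) := rfl
    rw [e1, e2] at hl ⊢
    have hpow : (4 : ℝ) ^ (E.Lam k + E.bb (Free.cls k)) ≤ 16 ^ E.Lam k := by
      calc (4 : ℝ) ^ (E.Lam k + E.bb (Free.cls k)) ≤ 4 ^ (2 * E.Lam k) :=
            pow_le_pow_right₀ (by norm_num) (by omega)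
        _ = 16 ^ E.Lam k := by rw [pow_mul]; norm_num
    by_cases hkk1 : k1 ≤ k
    · have h1 := fr_count hLm hLk hks (show k1 ≤ i by omega) k n hn hkk1 l (by omega) F hF'
      have h2 : (16 : ℝ) ^ E.Lam k * ((F.filter fun y => ¬ (low E.Lam i k1 ks (y + l + n) ↔
          low E.Lam i k1 ks (y + l))).card : ℝ) ≤ 12 * NN E.Lam i := by exact_mod_cast h1
      calc _ ≤ (16 : ℝ) ^ E.Lam k * ((F.filter fun y => ¬ (low E.Lam i k1 ks (y + l + n) ↔
          low E.Lam i k1 ks (y + l))).card : ℝ) := by gcongr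
        _ ≤ 12 * NN E.Lam i := h2
        _ = 12 / δ * (δ * NN E.Lam i) := by field_simp
        _ ≤ 12 / δ * F.card := by gcongr
        _ ≤ (12 / δ + 16 ^ E.Lam k1) * F.card := by
            have : (0 : ℝ) ≤ 16 ^ E.Lam k1 := by positivity
            nlinarith
    · push Not at hkk1
      have h1 : (16 : ℝ) ^ E.Lam k ≤ 16 ^ E.Lam k1 :=
        pow_le_pow_right₀ (by norm_num) (hLm.monotone hkk1.le)
      have h2 : ((F.filter fun y => ¬ (low E.Lam i k1 ks (y + l + n) ↔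
          low E.Lam i k1 ks (y + l))).card : ℝ) ≤ F.card := by
        exact_mod_cast card_filter_le _ _
      calc _ ≤ (16 : ℝ) ^ E.Lam k1 * F.card := by
            apply mul_le_mul (hpow.trans h1) h2 (by positivity) (by positivity)
        _ ≤ (12 / δ + 16 ^ E.Lam k1) * F.card := by
            have : (0 : ℝ) ≤ 12 / δ := by positivity
            nlinarith
  · intro m hm
    have hpi := p_ge E.Lam hLm hLk i
    have h1 := fr_low_count hLm hLk hks (show k1 ≤ i by omega) m (by omega) F hF'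
    have h2 : (p E.Lam i : ℝ) * ((F.filter fun y => low E.Lam i k1 ks (y + m)).card : ℝ) ≤
        2 * NN E.Lam i * m := by exact_mod_cast h1
    have hpr : (i : ℝ) ≤ p E.Lam i := by exact_mod_cast (by omega : i ≤ p E.Lam i)
    have hppos : (0 : ℝ) < p E.Lam i := by exact_mod_cast p_pos E.Lam i
    have hmr : (m : ℝ) ≤ m₀ := by exact_mod_cast hm
    have h3 : (p E.Lam i : ℝ) * ((F.filter fun y => low E.Lam i k1 ks (y + m)).card : ℝ) ≤
        p E.Lam i * (η * F.card) := by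
      calc _ ≤ 2 * NN E.Lam i * (m : ℝ) := h2
        _ ≤ 2 * NN E.Lam i * (m₀ : ℝ) := by gcongr
        _ = NN E.Lam i * (2 * (m₀ : ℝ)) := by ring
        _ ≤ NN E.Lam i * (η * δ * i) := by gcongr
        _ ≤ NN E.Lam i * (η * δ * p E.Lam i) := by gcongr
        _ = p E.Lam i * (η * (δ * NN E.Lam i)) := by ring
        _ ≤ p E.Lam i * (η * F.card) := by gcongr
    exact le_of_mul_le_mul_left h3 hppos

theorem fr_good (E : Enum 𝕂) (S : Set ℕ) (hS : BigL S) :
    ∃ k, ∀ a : Bool → 𝕂, (∀ r, ‖a r‖ ≤ 1) → pisum (E.e (Free.cls k)) a = 0 →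
      Good (dat E) S a := by
  have hLm := lam_strict E
  have hLb : ∀ k, k + 1 + 2 * E.bb (Free.cls k) ≤ E.Lam k := E.Lam_ge
  have hLk : ∀ k, k + 1 ≤ E.Lam k := fun k => by have := hLb k; omega
  obtain ⟨ks, δ, hδ, hw⟩ := windows hLm hLk S hS
  refine ⟨ks, fun a ha hperp h => ?_⟩
  refine ⟨12 / δ + 16 ^ E.Lam (max h (ks + 1)), by positivity, fun η hη m₀ => ?_⟩
  obtain ⟨K, hK⟩ := exists_nat_gt (2 * (m₀ : ℝ) / (η * δ))
  obtain ⟨i, hi, F, hF, hFc⟩ := hw (max h (ks + 1) + 2 + m₀ + K)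
  have hKi : (K : ℝ) ≤ i := by exact_mod_cast (by omega : K ≤ i)
  refine ⟨F, fr_core E S a δ hδ h (max h (ks + 1)) (le_max_left _ _) η hη m₀ i ks F
      (by omega) (by omega) ?_ (by omega) hperp hF hFc⟩
  rw [div_lt_iff₀ (by positivity)] at hK
  calc 2 * (m₀ : ℝ) ≤ K * (η * δ) := hK.le
    _ ≤ i * (η * δ) := by gcongr
    _ = _ := by ring

theorem fr_hyp (E : Enum 𝕂) : Hyp (dat E) BigL := by
  have hLk : ∀ k, k + 1 ≤ E.Lam k := fun k => by have := E.Lam_ge k; omega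
  exact E.hyp (A E.Lam) BigL (fun S S' h => BigL.mono h) (fun k => big_A (lam_strict E) hLk k)
    (fun S hS => fr_good E S hS)

end Pool.Agent.H615R3.FR
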