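import Pool.Agent.H615R3.UFComb3
import Pool.Agent.H615R3.FreeEnum

set_option autoImplicit false

namespace Pool.Agent.H615R3.UF

open Finset Classical Pool.Agent.H615R3.Free

variable {Lam : ℕ → ℕ}

/-- the slot sets have positive upper density -/
lemma big_A (hLk : ∀ k, k + 1 ≤ Lam k) (k : ℕ) : BigU (A Lam k) := by
  have hMk := M_pos Lam (k + 1)
  refine ⟨1 / (2 * M Lam (k + 1)), by positivity, fun N₀ => ?_⟩
  set e := Nat.pair k (N₀ + 1) with he
  have h1 : N₀ + 1 ≤ e := Nat.right_le_pair _ _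
  have hcls : UF.cls e = k := by unfold UF.cls; rw [he, Nat.unpair_pair]
  have hke : k < e := by rw [← hcls]; exact UF.cls_lt e (by omega)
  have hMe := M_ge Lam hLk e
  refine ⟨4 * M Lam e, by omega, ?_⟩
  rw [ncard_eq]
  obtain ⟨q, hq⟩ := M_dvd Lam (show k + 1 ≤ e by omega)
  have hinj : Set.InjOn (fun t => M Lam e + t * M Lam (k + 1)) (range (3 * q) : Set ℕ) := by
    intro a _ b _ h
    simp only [add_right_inj] at h
    exact Nat.eq_of_mul_eq_mul_right hMk h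
  have hmap : ∀ t ∈ range (3 * q), (fun t => M Lam e + t * M Lam (k + 1)) t ∈
      (Icc 1 (4 * M Lam e)).filter (· ∈ A Lam k) := by
    intro t ht
    rw [mem_range] at ht
    simp only [mem_filter, mem_Icc]
    have h2 : t * M Lam (k + 1) ≤ 3 * M Lam e := by
      rw [hq]
      nlinarith
    refine ⟨⟨by omega, by omega⟩, ?_, e, by omega, hcls, by omega, by omega⟩
    rw [hq]
    exact Dvd.intro (q + t) (by ring)
  have hcard := card_le_card_of_injOn _ hmap hinj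
  rw [card_range] at hcard
  have h3 : (3 * q : ℝ) ≤ (((Icc 1 (4 * M Lam e)).filter (· ∈ A Lam k)).card : ℝ) := by
    exact_mod_cast hcard
  refine le_trans ?_ h3
  rw [hq]
  push_cast
  have hMk' : (0 : ℝ) < M Lam (k + 1) := by exact_mod_cast hMk
  rw [one_div, inv_mul_le_iff₀ (by positivity)]
  have : (0 : ℝ) ≤ q := Nat.cast_nonneg _
  nlinarith [mul_nonneg hMk'.le this]

variable {𝕂 : Type} [RCLike 𝕂]

/-- the data -/
noncomputable def dat (E : Enum 𝕂) : Data 𝕂 := E.data (A E.Lam)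

lemma uf_core (E : Enum 𝕂) (S : Set ℕ) (a : Bool → 𝕂) (δ : ℝ) (hδ : 0 < δ) (h k1 : ℕ)
    (hk1 : h ≤ k1) (η : ℝ) (hη : 0 < η) (m₀ i ks N : ℕ) (F : Finset ℕ)
    (hik : k1 + 2 ≤ i) (hm₀ : m₀ ≤ i) (hks : UF.cls i = ks) (K : ℕ) (hKi : K ≤ i)
    (hKs : k1 ≤ ks → K ≤ ks) (hK : 20 / (16 : ℝ) ^ K ≤ η * δ)
    (hperp : ks < k1 → pisum (E.e (Free.cls ks)) a = 0)
    (hN1 : M E.Lam i ≤ N) (hN2 : N < M E.Lam (i + 1))
    (hF : ∀ y ∈ F, y ∈ S ∧ M E.Lam i ≤ y ∧ y ≤ N) (hFc : δ * N ≤ F.card) :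
    F.Nonempty ∧
    (∀ n ∈ F, n ∈ S) ∧ ∃ low : ℕ → Prop, (∀ m < h, low m) ∧
    (∀ k, ∀ n ∈ (dat E).A k, (∀ l < (dat E).Lam k + 2 * (dat E).b k + h, (low (n + l) ↔ low l)) ∨
      (pisum ((dat E).x k) a = 0 ∧ (∀ l < (dat E).Lam k + 2 * (dat E).b k + h, low l) ∧
        ((∀ l < (dat E).Lam k + 2 * (dat E).b k + h, low (n + l)) ∨
          (∀ l < (dat E).Lam k + 2 * (dat E).b k + h, ¬ low (n + l))))) ∧
    (∀ k, ∀ n ∈ (dat E).A k, ∀ l < (dat E).Lam k + 2 * (dat E).b k,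
      4 ^ ((dat E).Lam k + (dat E).b k) *
        ((F.filter fun y => ¬ (low (y + l + n) ↔ low (y + l))).card : ℝ) ≤
        (32 / δ + 16 ^ E.Lam k1) * F.card) ∧
    (∀ m ≤ m₀, ((F.filter fun y => low (y + m)).card : ℝ) ≤ η * F.card) := by
  have hLm := E.Lam_mono
  have hLb : ∀ k, k + 1 + 2 * E.bb (Free.cls k) ≤ E.Lam k := E.Lam_ge
  have hLk : ∀ k, k + 1 ≤ E.Lam k := fun k => by have := hLb k; omega
  have hNpos : 0 < N := by have := M_pos E.Lam i; omega
  have hNr : (0 : ℝ) < N := by exact_mod_cast hNpos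
  have hFpos : (0 : ℝ) < F.card := lt_of_lt_of_le (by positivity) hFc
  have hF' : ∀ y ∈ F, M E.Lam i ≤ y ∧ y ≤ N := fun y hy => (hF y hy).2
  refine ⟨card_pos.1 (by exact_mod_cast hFpos), fun n hn => (hF n hn).1,
    low E.Lam i k1 ks, ?_, ?_, ?_, ?_⟩
  · intro m hm
    apply low0
    have := M_ge E.Lam hLk i
    omega
  · intro k n hn
    rcases uf_phi hLm hLk hk1 hik (fun k => E.bb (Free.cls k)) hLb k n hn (ks := ks) with h1 | h1
    · exact Or.inl h1
    · right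
      refine ⟨?_, h1.2⟩
      obtain ⟨⟨h2, h3⟩, _⟩ := h1
      subst h2
      exact hperp h3
  · intro k n hn l hl
    have hb := hLb k
    have e1 : (dat E).Lam k = E.Lam k := rfl
    have e2 : (dat E).b k = E.bb (Free.cls k) := rfl
    rw [e1, e2] at hl ⊢
    have hpow : (4 : ℝ) ^ (E.Lam k + E.bb (Free.cls k)) ≤ 16 ^ E.Lam k := by
      calc (4 : ℝ) ^ (E.Lam k + E.bb (Free.cls k)) ≤ 4 ^ (2 * E.Lam k) :=
            pow_le_pow_right₀ (by norm_num) (by omega)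
        _ = 16 ^ E.Lam k := by rw [pow_mul]; norm_num
    by_cases hkk1 : k1 ≤ k
    · have h1 := uf_count hLm hLk (i := i) (k1 := k1) (by omega) hks k n hn hkk1 l (by omega)
        N hN1 hN2 F hF'
      have h2 : (16 : ℝ) ^ E.Lam k * ((F.filter fun y => ¬ (low E.Lam i k1 ks (y + l + n) ↔
          low E.Lam i k1 ks (y + l))).card : ℝ) ≤ 32 * N := by exact_mod_cast h1
      calc _ ≤ (16 : ℝ) ^ E.Lam k * ((F.filter fun y => ¬ (low E.Lam i k1 ks (y + l + n) ↔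
          low E.Lam i k1 ks (y + l))).card : ℝ) := by gcongr
        _ ≤ 32 * N := h2
        _ = 32 / δ * (δ * N) := by field_simp
        _ ≤ 32 / δ * F.card := by gcongr
        _ ≤ (32 / δ + 16 ^ E.Lam k1) * F.card := by
            have : (0 : ℝ) ≤ 16 ^ E.Lam k1 := by positivity
            nlinarith
    · push Not at hkk1
      have h1 : (16 : ℝ) ^ E.Lam k ≤ 16 ^ E.Lam k1 :=
        pow_le_pow_right₀ (by norm_num) (hLm hkk1.le)
      have h2 : ((F.filter fun y => ¬ (low E.Lam i k1 ks (y + l + n) ↔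
          low E.Lam i k1 ks (y + l))).card : ℝ) ≤ F.card := by
        exact_mod_cast card_filter_le _ _
      calc _ ≤ (16 : ℝ) ^ E.Lam k1 * F.card := by
            apply mul_le_mul (hpow.trans h1) h2 (by positivity) (by positivity)
        _ ≤ (32 / δ + 16 ^ E.Lam k1) * F.card := by
            have : (0 : ℝ) ≤ 32 / δ := by positivity
            nlinarith
  · intro m hm
    have hMi := M_ge E.Lam hLk i
    have h1 := uf_low_count hLk (i := i) (k1 := k1) (by omega) hks m (by omega) N hN1 hN2 F hF' K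
      (by have := hLk i; omega) (fun hk => by have := hLk ks; have := hKs hk; omega)
    have h2 : (16 : ℝ) ^ K * ((F.filter fun y => low E.Lam i k1 ks (y + m)).card : ℝ) ≤ 20 * N := by
      exact_mod_cast h1
    have h3 : ((F.filter fun y => low E.Lam i k1 ks (y + m)).card : ℝ) ≤ 20 / 16 ^ K * N := by
      rw [div_mul_eq_mul_div, le_div_iff₀ (by positivity)]
      linarith
    calc _ ≤ 20 / 16 ^ K * (N : ℝ) := h3
      _ ≤ η * δ * N := by gcongr
      _ = η * (δ * N) := by ring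
      _ ≤ η * F.card := by gcongr

lemma exists_K (x : ℝ) (hx : 0 < x) : ∃ K : ℕ, 20 / (16 : ℝ) ^ K ≤ x := by
  obtain ⟨K, hK⟩ := exists_pow_lt_of_lt_one (show 0 < x / 20 by positivity)
    (by norm_num : (1 / 16 : ℝ) < 1)
  refine ⟨K, ?_⟩
  have : 20 / (16 : ℝ) ^ K = 20 * (1 / 16) ^ K := by rw [one_div, inv_pow]; rfl
  rw [this]
  linarith

theorem uf_good (E : Enum 𝕂) (S : Set ℕ) (hS : BigU S) :
    ∃ k, ∀ a : Bool → 𝕂, (∀ r, ‖a r‖ ≤ 1) → pisum (E.e (Free.cls k)) a = 0 →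
      Good (dat E) S a := by
  have hLm := E.Lam_mono
  have hLb : ∀ k, k + 1 + 2 * E.bb (Free.cls k) ≤ E.Lam k := E.Lam_ge
  have hLk : ∀ k, k + 1 ≤ E.Lam k := fun k => by have := hLb k; omega
  obtain ⟨δ, hδ, hw⟩ := windows hLk S hS
  by_cases hcase : ∃ ks, ∀ I : ℕ, ∃ i, I ≤ i ∧ UF.cls i = ks ∧ ∃ N : ℕ, ∃ F : Finset ℕ,
      M E.Lam i ≤ N ∧ N < M E.Lam (i + 1) ∧ (∀ y ∈ F, y ∈ S ∧ M E.Lam i ≤ y ∧ y ≤ N) ∧
      δ * N ≤ F.card
  · obtain ⟨ks, hks⟩ := hcase
    refine ⟨ks, fun a ha hperp h => ?_⟩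
    refine ⟨32 / δ + 16 ^ E.Lam (max h (ks + 1)), by positivity, fun η hη m₀ => ?_⟩
    obtain ⟨K, hK⟩ := exists_K (η * δ) (by positivity)
    obtain ⟨i, hi, hcls, N, F, hN1, hN2, hF, hFc⟩ := hks (max h (ks + 1) + 2 + m₀ + K)
    refine ⟨F, uf_core E S a δ hδ h (max h (ks + 1)) (le_max_left _ _) η hη m₀ i ks N F
      (by omega) (by omega) hcls K (by omega) (fun hk => by omega) hK (fun _ => hperp)
      hN1 hN2 hF hFc⟩
  · push Not at hcase
    choose J hJ using hcase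
    refine ⟨0, fun a ha _ h => ?_⟩
    refine ⟨32 / δ + 16 ^ E.Lam h, by positivity, fun η hη m₀ => ?_⟩
    obtain ⟨K, hK⟩ := exists_K (η * δ) (by positivity)
    obtain ⟨i, hi, N, F, hN1, hN2, hF, hFc⟩ :=
      hw (h + 2 + m₀ + K + ∑ ks ∈ range (h + K), J ks)
    have hks : h + K ≤ UF.cls i := by
      by_contra hc
      push Not at hc
      have h1 : J (UF.cls i) ≤ ∑ ks ∈ range (h + K), J ks :=
        single_le_sum (f := J) (fun _ _ => Nat.zero_le _) (mem_range.2 hc)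
      have h2 := hJ (UF.cls i) i (by omega) rfl N F hN1 hN2 hF
      linarith
    exact ⟨F, uf_core E S a δ hδ h h le_rfl η hη m₀ i (UF.cls i) N F
      (by omega) (by omega) rfl K (by omega) (fun hk => by omega) hK (fun hk => by omega)
      hN1 hN2 hF hFc⟩

theorem uf_hyp (E : Enum 𝕂) : Hyp (dat E) BigU := by
  have hLk : ∀ k, k + 1 ≤ E.Lam k := fun k => by have := E.Lam_ge k; omega
  exact E.hyp (A E.Lam) BigU (fun S S' h => BigU.mono h) (fun k => big_A hLk k)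
    (fun S hS => uf_good E S hS)

end Pool.Agent.H615R3.UF
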