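import Pool.Agent.H615R3.RecDefs
import Pool.Agent.H615R3.UFMain
import Pool.Agent.H615R3.FRMain

set_option autoImplicit false

namespace Pool.Agent.H615R3

open Filter Topology Set

lemma set_eq (A : Set ℕ) (N : ℕ) : {n : ℕ | 1 ≤ n ∧ n ≤ N ∧ n ∈ A} = A ∩ Icc 1 N := by
  ext n
  simp only [mem_ofPred_eq, mem_inter_iff, mem_Icc]
  tauto

lemma ratio_le_one' (A : Set ℕ) (N : ℕ) : ((A ∩ Icc 1 N).ncard : ℝ) / N ≤ 1 := by
  have := ratio_le_one A 0 N
  simpa using this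

lemma bdd_le (A : Set ℕ) : IsBoundedUnder (· ≤ ·) atTop
    (fun N : ℕ => ((A ∩ Icc 1 N).ncard : ℝ) / N) :=
  isBoundedUnder_of ⟨1, ratio_le_one' A⟩

lemma bdd_ge (A : Set ℕ) : IsBoundedUnder (· ≥ ·) atTop
    (fun N : ℕ => ((A ∩ Icc 1 N).ncard : ℝ) / N) :=
  isBoundedUnder_of ⟨0, fun N => by positivity⟩

lemma lowerDensity_pos_iff (A : Set ℕ) : 0 < lowerDensity A ↔ FR.BigL A := by
  constructor
  · intro h
    have h1 : ∀ᶠ N : ℕ in atTop, lowerDensity A / 2 < ((A ∩ Icc 1 N).ncard : ℝ) / N :=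
      eventually_lt_of_lt_liminf (by
        show lowerDensity A / 2 < lowerDensity A
        linarith) (bdd_ge A)
    obtain ⟨N₀, hN₀⟩ := eventually_atTop.1 h1
    refine ⟨lowerDensity A / 2, by positivity, N₀ + 1, fun N hN => ?_⟩
    rw [set_eq]
    have h2 := hN₀ N (by omega)
    rw [lt_div_iff₀ (by exact_mod_cast (by omega : 0 < N))] at h2
    exact h2.le
  · rintro ⟨δ, hδ, N₀, h⟩
    refine lt_of_lt_of_le hδ ?_
    refine le_liminf_of_le (bdd_le A).isCoboundedUnder_ge ?_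
    rw [eventually_atTop]
    refine ⟨N₀ + 1, fun N hN => ?_⟩
    rw [le_div_iff₀ (by exact_mod_cast (by omega : 0 < N))]
    have := h N (by omega)
    rwa [set_eq] at this

lemma upperDensity_pos_iff (A : Set ℕ) : 0 < upperDensity A ↔ UF.BigU A := by
  constructor
  · intro h
    have h1 : ∃ᶠ N : ℕ in atTop, upperDensity A / 2 < ((A ∩ Icc 1 N).ncard : ℝ) / N :=
      frequently_lt_of_lt_limsup (bdd_ge A).isCoboundedUnder_le (by
        show upperDensity A / 2 < upperDensity A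
        linarith)
    refine ⟨upperDensity A / 2, by positivity, fun N₀ => ?_⟩
    obtain ⟨N, hN1, hN2⟩ := (h1.and_eventually (eventually_ge_atTop (N₀ + 1))).exists
    refine ⟨N, by omega, ?_⟩
    rw [set_eq]
    rw [lt_div_iff₀ (by exact_mod_cast (by omega : 0 < N))] at hN1
    exact hN1.le
  · rintro ⟨δ, hδ, h⟩
    refine lt_of_lt_of_le hδ ?_
    refine le_limsup_of_frequently_le ?_ (bdd_le A)
    rw [frequently_atTop]
    intro L
    obtain ⟨N, hN, h2⟩ := h L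
    refine ⟨N, hN.le, ?_⟩
    rw [le_div_iff₀ (by exact_mod_cast (by omega : 0 < N))]
    rwa [set_eq] at h2

lemma isFRec_iff {X : Type*} [TopologicalSpace X] (T : X → X) (x : X) :
    IsFRec T x ↔ ∀ U ∈ 𝓝 x, FR.BigL {n | T^[n] x ∈ U} := by
  unfold IsFRec
  refine forall_congr' fun U => forall_congr' fun _ => ?_
  rw [lowerDensity_pos_iff]
  unfold FR.BigL retSet
  have : ∀ N : ℕ, {n : ℕ | 1 ≤ n ∧ n ≤ N ∧ n ∈ {n : ℕ | 1 ≤ n ∧ T^[n] x ∈ U}} =
      {n : ℕ | 1 ≤ n ∧ n ≤ N ∧ n ∈ {n : ℕ | T^[n] x ∈ U}} := by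
    intro N; ext n; simp only [mem_ofPred_eq]; tauto
  simp only [this]

lemma isUFRec_iff {X : Type*} [TopologicalSpace X] (T : X → X) (x : X) :
    IsUFRec T x ↔ ∀ U ∈ 𝓝 x, UF.BigU {n | T^[n] x ∈ U} := by
  unfold IsUFRec
  refine forall_congr' fun U => forall_congr' fun _ => ?_
  rw [upperDensity_pos_iff]
  unfold UF.BigU retSet
  have : ∀ N : ℕ, {n : ℕ | 1 ≤ n ∧ n ≤ N ∧ n ∈ {n : ℕ | 1 ≤ n ∧ T^[n] x ∈ U}} =
      {n : ℕ | 1 ≤ n ∧ n ≤ N ∧ n ∈ {n : ℕ | T^[n] x ∈ U}} := by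
    intro N; ext n; simp only [mem_ofPred_eq]; tauto
  simp only [this]

end Pool.Agent.H615R3
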