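import Mathlib

set_option autoImplicit false

namespace Pool.Agent.H615R3.FR

open Finset Classical

/-- counting a band of residues -/
lemma count_band (P W a N : ℕ) (T : Finset ℕ)
    (hT : ∀ y ∈ T, y ≤ N ∧ y % P < a ∧ a ≤ y % P + W) : T.card ≤ (N / P + 1) * W := by
  have hinj : Set.InjOn (fun y => (y / P, a - 1 - y % P)) (T : Set ℕ) := by
    intro y hy z hz h
    simp only [Prod.mk.injEq] at h
    obtain ⟨h1, h2⟩ := h
    obtain ⟨_, h3, _⟩ := hT y hy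
    obtain ⟨_, h4, _⟩ := hT z hz
    have h5 : y % P = z % P := by omega
    have h6 := Nat.div_add_mod y P
    have h7 := Nat.div_add_mod z P
    rw [h1, h5] at h6
    omega
  have hmap : ∀ y ∈ T, (fun y => (y / P, a - 1 - y % P)) y ∈
      (range (N / P + 1)) ×ˢ (range W) := by
    intro y hy
    obtain ⟨h1, h2, h3⟩ := hT y hy
    simp only [mem_product, mem_range]
    refine ⟨Nat.lt_succ_of_le (Nat.div_le_div_right h1), by omega⟩
  calc T.card ≤ ((range (N / P + 1)) ×ˢ (range W)).card := card_le_card_of_injOn _ hmap hinj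
    _ = (N / P + 1) * W := by rw [card_product, card_range, card_range]

section
variable (Lam : ℕ → ℕ)

/-- the scales -/
def p : ℕ → ℕ
  | 0 => 1
  | k + 1 => p k * 64 ^ (3 * Lam (k + 1))

/-- inverse proportions -/
def R (k : ℕ) : ℕ := if k = 0 then 1 else 64 ^ Lam k

/-- slots of class `k` -/
def A (k : ℕ) : Set ℕ :=
  {n | p Lam (k + 1) ∣ n ∧ ∃ s, k + 2 ≤ s ∧ p Lam s ≤ n ∧ 2 * (n * R Lam k) ≤ p Lam (s + 1) ∧
    p Lam s ≤ (n % p Lam s) * R Lam (k + 1) ∧ 2 * ((n % p Lam s) * R Lam k) < p Lam s}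

lemma p_pos (k : ℕ) : 0 < p Lam k := by
  induction k with
  | zero => exact one_pos
  | succ k ih => exact Nat.mul_pos ih (by positivity)

lemma p_succ (k : ℕ) : p Lam (k + 1) = p Lam k * 64 ^ (3 * Lam (k + 1)) := rfl

lemma p_dvd {a b : ℕ} (h : a ≤ b) : p Lam a ∣ p Lam b := by
  induction b, h using Nat.le_induction with
  | base => exact dvd_rfl
  | succ n _ ih => exact ih.trans (Dvd.intro _ rfl)

lemma p_mono {a b : ℕ} (h : a ≤ b) : p Lam a ≤ p Lam b :=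
  Nat.le_of_dvd (p_pos Lam b) (p_dvd Lam h)

lemma R_pos (k : ℕ) : 0 < R Lam k := by unfold R; split_ifs <;> positivity

lemma R_le (k : ℕ) : R Lam k ≤ 64 ^ Lam k := by
  unfold R; split_ifs
  · exact Nat.one_le_pow _ _ (by norm_num)
  · exact le_rfl

lemma R_dvd (k : ℕ) : R Lam k ∣ 64 ^ Lam k := by
  unfold R; split_ifs
  · exact one_dvd _
  · exact dvd_rfl

lemma R_eq (k : ℕ) (hk : 1 ≤ k) : R Lam k = 64 ^ Lam k := by
  unfold R; rw [if_neg (by omega)]

variable (hLm : StrictMono Lam) (hLk : ∀ k, k + 1 ≤ Lam k)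
include hLm hLk

omit hLm in
lemma R_succ (hLm : StrictMono Lam) (k : ℕ) : 64 * R Lam k ≤ R Lam (k + 1) := by
  rw [R_eq Lam (k + 1) (by omega)]
  have h1 := R_le Lam k
  have h2 : Lam k + 1 ≤ Lam (k + 1) := hLm (Nat.lt_succ_self k)
  calc 64 * R Lam k ≤ 64 * 64 ^ Lam k := Nat.mul_le_mul_left _ h1
    _ = 64 ^ (Lam k + 1) := by rw [pow_succ]; ring
    _ ≤ 64 ^ Lam (k + 1) := Nat.pow_le_pow_right (by norm_num) h2

lemma R_mono {a b : ℕ} (h : a ≤ b) : R Lam a ≤ R Lam b := by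
  induction b, h using Nat.le_induction with
  | base => exact le_rfl
  | succ n _ ih => have := R_succ Lam hLk hLm n; omega

omit hLm in
lemma R_dvd_p (hLm : StrictMono Lam) {a b : ℕ} (h : a ≤ b) : R Lam a ∣ p Lam b := by
  rcases Nat.eq_zero_or_pos a with h0 | h0
  · subst h0; exact one_dvd _
  · obtain ⟨c, rfl⟩ : ∃ c, a = c + 1 := ⟨a - 1, by omega⟩
    refine dvd_trans ?_ (p_dvd Lam h)
    rw [p_succ, R_eq Lam _ (by omega)]
    exact dvd_mul_of_dvd_right (pow_dvd_pow _ (by omega)) _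

lemma p_64 (k : ℕ) : 64 * p Lam k ≤ p Lam (k + 1) := by
  rw [p_succ, mul_comm]
  have h1 : 64 ^ 1 ≤ 64 ^ (3 * Lam (k + 1)) :=
    Nat.pow_le_pow_right (by norm_num) (by have := hLk (k + 1); omega)
  exact Nat.mul_le_mul_left _ (by simpa using h1)

lemma p_ge (k : ℕ) : k + 1 ≤ p Lam k := by
  induction k with
  | zero => exact le_rfl
  | succ k ih =>
    have := p_64 Lam hLm hLk k
    omega

omit hLm hLk in
lemma lam_lt (k : ℕ) : Lam k < 4 ^ Lam k := Nat.lt_pow_self (by norm_num)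

/-- the window length at stage `i` -/
def NN (i : ℕ) : ℕ := p Lam i * 64 ^ Lam i

/-- main size inequality: `12 (N_i + 2 Lam_i) 64^{Lam_i} <= p_{i+1}` -/
lemma NN_le (i : ℕ) : 12 * ((NN Lam i + 2 * Lam i) * 64 ^ Lam i) ≤ p Lam (i + 1) := by
  unfold NN
  rw [p_succ]
  have h1 := lam_lt Lam i
  have h2 := p_pos Lam i
  have h3 : Lam i + 1 ≤ Lam (i + 1) := hLm (Nat.lt_succ_self i)
  have h4 : (4 : ℕ) ^ Lam i ≤ 64 ^ Lam i := Nat.pow_le_pow_left (by norm_num) _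
  have h5 : 2 * Lam i ≤ 2 * (p Lam i * 64 ^ Lam i) := by nlinarith
  have h6 : (64 : ℕ) ^ (2 * Lam i + 3) ≤ 64 ^ (3 * Lam (i + 1)) :=
    Nat.pow_le_pow_right (by norm_num) (by omega)
  calc 12 * ((p Lam i * 64 ^ Lam i + 2 * Lam i) * 64 ^ Lam i)
      ≤ 12 * ((p Lam i * 64 ^ Lam i + 2 * (p Lam i * 64 ^ Lam i)) * 64 ^ Lam i) := by gcongr
    _ = p Lam i * (36 * 64 ^ (2 * Lam i)) := by rw [two_mul (Lam i), pow_add]; ring
    _ ≤ p Lam i * (64 ^ 3 * 64 ^ (2 * Lam i)) := by gcongr; norm_num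
    _ = p Lam i * 64 ^ (2 * Lam i + 3) := by rw [pow_add]; ring
    _ ≤ p Lam i * 64 ^ (3 * Lam (i + 1)) := by gcongr

omit hLm hLk in
lemma F4 (hLm : StrictMono Lam) (k : ℕ) : 16 ^ Lam k * (2 * Lam k) ≤ 2 * p Lam (k + 1) := by
  rw [p_succ]
  have h1 := lam_lt Lam k
  have h2 := p_pos Lam k
  have h3 : Lam k ≤ Lam (k + 1) := hLm.monotone (Nat.le_succ k)
  have h4 : (64 : ℕ) ^ Lam k ≤ 64 ^ (3 * Lam (k + 1)) :=
    Nat.pow_le_pow_right (by norm_num) (by omega)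
  have h5 : (64 : ℕ) ^ Lam k = 16 ^ Lam k * 4 ^ Lam k := by rw [← Nat.mul_pow]
  calc 16 ^ Lam k * (2 * Lam k) ≤ 16 ^ Lam k * (2 * 4 ^ Lam k) := by gcongr
    _ = 2 * 64 ^ Lam k := by rw [h5]; ring
    _ ≤ 2 * (p Lam k * 64 ^ (3 * Lam (k + 1))) := by
        have : 64 ^ Lam k ≤ p Lam k * 64 ^ (3 * Lam (k + 1)) :=
          h4.trans (Nat.le_mul_of_pos_left _ h2)
        omega

omit hLm hLk in
lemma exists_stage (hLm : StrictMono Lam) (hLk : ∀ k, k + 1 ≤ Lam k) (n : ℕ) (hn : 1 ≤ n) :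
    ∃ e, p Lam e ≤ n ∧ n < p Lam (e + 1) := by
  have hex : ∃ e, n < p Lam (e + 1) := ⟨n, by
    have := p_ge Lam hLm hLk (n + 1); omega⟩
  refine ⟨Nat.find hex, ?_, Nat.find_spec hex⟩
  rcases Nat.eq_zero_or_pos (Nat.find hex) with h | h
  · rw [h]; exact hn
  · have := Nat.find_min hex (m := Nat.find hex - 1) (by omega)
    rw [Nat.sub_add_cancel h] at this
    omega

end

section low
variable (Lam : ℕ → ℕ)

/-- the stage of `n` -/
noncomputable def st (n : ℕ) : ℕ := Nat.findGreatest (fun e => p Lam e ≤ n) n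

lemma st_eq (hLm : StrictMono Lam) (hLk : ∀ k, k + 1 ≤ Lam k) {n e : ℕ} (h1 : p Lam e ≤ n)
    (h2 : n < p Lam (e + 1)) : st Lam n = e := by
  unfold st
  rw [Nat.findGreatest_eq_iff]
  have := p_ge Lam hLm hLk e
  refine ⟨by omega, fun _ => h1, fun k hk hkn => ?_⟩
  have h3 := p_mono Lam (show e + 1 ≤ k by omega)
  omega

/-- the color of `n` -/
noncomputable def col (n : ℕ) : ℕ :=
  Nat.findGreatest (fun κ => (n % p Lam (st Lam n)) * R Lam κ < p Lam (st Lam n)) (st Lam n)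

lemma col_eq (hLm : StrictMono Lam) (hLk : ∀ k, k + 1 ≤ Lam k) {n s κ : ℕ} (h1 : p Lam s ≤ n)
    (h2 : n < p Lam (s + 1)) (hκ : κ ≤ s) (h3 : (n % p Lam s) * R Lam κ < p Lam s)
    (h4 : p Lam s ≤ (n % p Lam s) * R Lam (κ + 1)) : col Lam n = κ := by
  unfold col
  rw [st_eq Lam hLm hLk h1 h2, Nat.findGreatest_eq_iff]
  refine ⟨hκ, fun _ => h3, fun k hk hkn => ?_⟩
  have h5 := R_mono Lam hLm hLk (show κ + 1 ≤ k by omega)
  have h6 : (n % p Lam s) * R Lam (κ + 1) ≤ (n % p Lam s) * R Lam k := Nat.mul_le_mul_left _ h5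
  omega

/-- set where the profile equals `1` -/
def low (i k1 ks n : ℕ) : Prop :=
  if n < p Lam i then True
  else if col Lam n < k1 then col Lam n ≠ ks
  else if col Lam n < i then n % p Lam (col Lam n + 1) < 2 * Lam (col Lam n)
  else if _h : n % p Lam (col Lam n + 1) < n then low i k1 ks (n % p Lam (col Lam n + 1))
  else True
termination_by n

variable {Lam}
variable {i k1 ks : ℕ}

lemma low0 {n : ℕ} (h : n < p Lam i) : low Lam i k1 ks n := by
  rw [low, if_pos h]; trivial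

lemma low1 {n c : ℕ} (h1 : p Lam i ≤ n) (hc : col Lam n = c) (hk : c < k1) :
    low Lam i k1 ks n ↔ c ≠ ks := by
  rw [low, if_neg (by omega), hc, if_pos hk]

lemma low2 {n c : ℕ} (h1 : p Lam i ≤ n) (hc : col Lam n = c) (hk : k1 ≤ c) (hk' : c < i) :
    low Lam i k1 ks n ↔ n % p Lam (c + 1) < 2 * Lam c := by
  rw [low, if_neg (by omega), hc, if_neg (by omega), if_pos hk']

lemma low3 {n c : ℕ} (h1 : p Lam i ≤ n) (hc : col Lam n = c) (hk : k1 ≤ c) (hk' : i ≤ c)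
    (hlt : p Lam (c + 1) ≤ n) :
    low Lam i k1 ks n ↔ low Lam i k1 ks (n % p Lam (c + 1)) := by
  have h4 : n % p Lam (c + 1) < n := by
    have h5 : n % p Lam (c + 1) < p Lam (c + 1) := Nat.mod_lt _ (p_pos Lam _)
    omega
  conv_lhs => rw [low, if_neg (by omega), hc, if_neg (by omega), if_neg (by omega), dif_pos h4]

/-- color near a slot -/
lemma slot_col (hLm : StrictMono Lam) (hLk : ∀ k, k + 1 ≤ Lam k) {k s n d : ℕ} (hks : k + 2 ≤ s)
    (h1 : p Lam s ≤ n) (h2 : 2 * (n * R Lam k) ≤ p Lam (s + 1))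
    (h3 : p Lam s ≤ (n % p Lam s) * R Lam (k + 1)) (h4 : 2 * ((n % p Lam s) * R Lam k) < p Lam s)
    (hd : 2 * (d * R Lam k) ≤ p Lam s) :
    p Lam s ≤ n + d ∧ n + d < p Lam (s + 1) ∧ col Lam (n + d) = k := by
  have hR := R_pos Lam k
  have h64 := p_64 Lam hLm hLk s
  have hp := p_pos Lam s
  have hlt : n + d < p Lam (s + 1) := by nlinarith
  have hmod : (n + d) % p Lam s = n % p Lam s + d := by
    rw [Nat.add_mod]
    have hdlt : d < p Lam s := by nlinarith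
    rw [Nat.mod_eq_of_lt hdlt, Nat.mod_eq_of_lt]
    nlinarith
  refine ⟨by omega, hlt, ?_⟩
  apply col_eq Lam hLm hLk (by omega) hlt (by omega)
  · rw [hmod, add_mul]; omega
  · rw [hmod, add_mul]; omega

end low

end Pool.Agent.H615R3.FR
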