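import Pool.Agent.H615R3.FRComb

set_option autoImplicit false

namespace Pool.Agent.H615R3.FR

open Finset Classical

variable {Lam : ℕ → ℕ}

/-- `4 Lam R <= p_{k+1}`-type inequality -/
lemma zone_R (hLm : StrictMono Lam) (k : ℕ) : 16 * (3 * Lam k * R Lam k) ≤ p Lam (k + 1) := by
  rw [p_succ]
  have h1 := lam_lt Lam k
  have h2 := p_pos Lam k
  have h3 : Lam k + 1 ≤ Lam (k + 1) := hLm (Nat.lt_succ_self k)
  have h4 := R_le Lam k
  have h5 : (4 : ℕ) ^ Lam k ≤ 64 ^ Lam k := Nat.pow_le_pow_left (by norm_num) _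
  calc 16 * (3 * Lam k * R Lam k) ≤ 16 * (3 * 64 ^ Lam k * 64 ^ Lam k) := by gcongr; omega
    _ = 48 * 64 ^ (2 * Lam k) := by rw [two_mul, pow_add]; ring
    _ ≤ 64 * 64 ^ (2 * Lam k) := by gcongr; norm_num
    _ = 64 ^ (2 * Lam k + 1) := by rw [pow_succ]; ring
    _ ≤ 64 ^ (3 * Lam (k + 1)) := Nat.pow_le_pow_right (by norm_num) (by omega)
    _ ≤ p Lam k * 64 ^ (3 * Lam (k + 1)) := Nat.le_mul_of_pos_left _ h2

lemma fr_phi (hLm : StrictMono Lam) (hLk : ∀ k, k + 1 ≤ Lam k) {i k1 ks h : ℕ} (hk1 : h ≤ k1)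
    (hi : k1 + 2 ≤ i) (bb : ℕ → ℕ) (hb : ∀ k, k + 1 + 2 * bb k ≤ Lam k) (k n : ℕ)
    (hn : n ∈ A Lam k) :
    (∀ l < Lam k + 2 * bb k + h, (low Lam i k1 ks (n + l) ↔ low Lam i k1 ks l)) ∨
      ((k = ks ∧ k < k1) ∧ (∀ l < Lam k + 2 * bb k + h, low Lam i k1 ks l) ∧
        ((∀ l < Lam k + 2 * bb k + h, low Lam i k1 ks (n + l)) ∨
          (∀ l < Lam k + 2 * bb k + h, ¬ low Lam i k1 ks (n + l)))) := by
  obtain ⟨hdvd, s, hks, h1, h2, h3, h4⟩ := hn
  have hRk := R_pos Lam k
  have hp1 : p Lam (k + 1) ≤ p Lam s := p_mono Lam (by omega)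
  have h64s := p_64 Lam hLm hLk s
  by_cases hkk1 : k1 ≤ k
  · left
    intro l hl
    have hb' := hb k
    have hl2 : l < 2 * Lam k := by omega
    have hz := zone_R hLm k
    have hlR : 2 * (l * R Lam k) ≤ p Lam s := by nlinarith
    obtain ⟨hc1, hc2, hc3⟩ := slot_col hLm hLk hks h1 h2 h3 h4 hlR
    have hlM : l < p Lam (k + 1) := by nlinarith
    have hmod : (n + l) % p Lam (k + 1) = l := by
      rw [Nat.add_mod, Nat.mod_eq_zero_of_dvd hdvd, zero_add, Nat.mod_mod, Nat.mod_eq_of_lt hlM]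
    by_cases hki : i ≤ k
    · have hpi : p Lam i ≤ p Lam s := p_mono Lam (by omega)
      rw [low3 (by omega) hc3 hkk1 hki (by omega), hmod]
    · have hlow : low Lam i k1 ks l := by
        apply low0
        have := p_mono Lam (show k + 1 ≤ i by omega)
        omega
      refine iff_of_true ?_ hlow
      by_cases hni : n + l < p Lam i
      · exact low0 hni
      · rw [low2 (by omega) hc3 hkk1 (by omega), hmod]
        exact hl2
  · push Not at hkk1
    have hR : R Lam k ≤ R Lam k1 := R_mono Lam hLm hLk hkk1.le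
    have hlb : ∀ l < Lam k + 2 * bb k + h, 6 * (l * R Lam k) ≤ p Lam (i - 1) := by
      intro l hl
      have h1 := hb k
      have h2 : Lam k ≤ Lam k1 := hLm.monotone hkk1.le
      have h3 := zone_R hLm k1
      have h4 := hLk k1
      have h5 := p_mono Lam (show k1 + 1 ≤ i - 1 by omega)
      have h6 : l ≤ 3 * Lam k1 := by omega
      calc 6 * (l * R Lam k) ≤ 6 * (3 * Lam k1 * R Lam k1) := by gcongr
        _ ≤ 16 * (3 * Lam k1 * R Lam k1) := by omega
        _ ≤ p Lam (i - 1) := h3.trans h5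
    have hpi : 64 * p Lam (i - 1) ≤ p Lam i := by
      have := p_64 Lam hLm hLk (i - 1)
      rwa [Nat.sub_add_cancel (by omega)] at this
    have hppos := p_pos Lam (i - 1)
    have hlb2 : ∀ l < Lam k + 2 * bb k + h, l ≤ p Lam (i - 1) := by
      intro l hl
      have := hlb l hl
      nlinarith
    have hlow : ∀ l < Lam k + 2 * bb k + h, low Lam i k1 ks l := by
      intro l hl
      apply low0
      have := hlb2 l hl
      omega
    by_cases hie : i ≤ s
    · have hpie := p_mono Lam hie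
      have hcol : ∀ l < Lam k + 2 * bb k + h, (low Lam i k1 ks (n + l) ↔ k ≠ ks) := by
        intro l hl
        have h5 := hlb l hl
        have hlR : 2 * (l * R Lam k) ≤ p Lam s := by nlinarith
        obtain ⟨hc1, hc2, hc3⟩ := slot_col hLm hLk hks h1 h2 h3 h4 hlR
        exact low1 (by omega) hc3 hkk1
      by_cases hkks : k = ks
      · right
        refine ⟨⟨hkks, hkk1⟩, hlow, Or.inr fun l hl => ?_⟩
        rw [hcol l hl]
        exact fun h => h hkks
      · left
        intro l hl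
        rw [hcol l hl]
        exact iff_of_true hkks (hlow l hl)
    · left
      intro l hl
      refine iff_of_true ?_ (hlow l hl)
      apply low0
      have h5 := hlb2 l hl
      have h6 := p_mono Lam (show s + 1 ≤ i by omega)
      have h7 : n ≤ p Lam i / 2 := by
        rw [Nat.le_div_iff_mul_le (by norm_num)]
        nlinarith
      omega

/-- the exceptional length -/
def WW (Lam : ℕ → ℕ) (i k : ℕ) : ℕ := p Lam i / (2 * R Lam k) + 2 * Lam k

lemma fr_bad (hLm : StrictMono Lam) (hLk : ∀ k, k + 1 ≤ Lam k) {i k1 ks : ℕ}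
    (hksk : ks < k1) (hk1i : k1 ≤ i) (k n : ℕ) (hn : n ∈ A Lam k) (hk1k : k1 ≤ k)
    (l : ℕ) (hl : l < 2 * Lam k) (y : ℕ) (hy1 : p Lam i ≤ y) (hy2 : y ≤ NN Lam i)
    (hyc1 : (y % p Lam i) * R Lam ks < p Lam i)
    (hyc2 : p Lam i ≤ (y % p Lam i) * R Lam (ks + 1))
    (hbad : ¬ (low Lam i k1 ks (y + l + n) ↔ low Lam i k1 ks (y + l))) :
    k < i ∧ ((p Lam i ≤ (y % p Lam i + WW Lam i k) * R Lam ks) ∨
      (y + l) % p Lam (k + 1) < 2 * Lam k) := by
  by_contra hcon
  apply hbad
  obtain ⟨hdvd, s, hks, h1, h2, h3, h4⟩ := hn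
  have hRk := R_pos Lam k
  have hRks := R_pos Lam ks
  have hpi := p_pos Lam i
  have hp1 : p Lam (k + 1) ≤ p Lam s := p_mono Lam (by omega)
  have hNN := NN_le Lam hLm hLk i
  have h64i : 1 ≤ 64 ^ Lam i := Nat.one_le_pow _ _ (by norm_num)
  have hNN2 : 12 * (NN Lam i + 2 * Lam i) ≤ p Lam (i + 1) :=
    le_trans (Nat.mul_le_mul_left _ (Nat.le_mul_of_pos_right _ (by omega))) hNN
  have hmodk : (y + l + n) % p Lam (k + 1) = (y + l) % p Lam (k + 1) := by
    rw [Nat.add_mod, Nat.mod_eq_zero_of_dvd hdvd, add_zero, Nat.mod_mod]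
  by_cases hki : i ≤ k
  · -- exact equality
    have hz := zone_R hLm k
    have hik1 := p_mono Lam (show i + 1 ≤ k + 1 by omega)
    have hyl : y + l < p Lam (k + 1) := by
      have : 12 * (2 * Lam k) ≤ p Lam (k + 1) := by nlinarith
      omega
    have h5 : 2 * p Lam (k + 1) * R Lam k ≤ p Lam (k + 2) := by
      rw [p_succ Lam (k + 1)]
      have h6 := R_le Lam k
      have h7 : Lam k + 1 ≤ Lam (k + 2) := (hLm (show k < k + 2 by omega))
      calc 2 * p Lam (k + 1) * R Lam k ≤ 2 * p Lam (k + 1) * 64 ^ Lam k := by gcongr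
        _ = p Lam (k + 1) * (2 * 64 ^ Lam k) := by ring
        _ ≤ p Lam (k + 1) * (64 * 64 ^ Lam k) := by gcongr; norm_num
        _ = p Lam (k + 1) * 64 ^ (Lam k + 1) := by rw [pow_succ]; ring
        _ ≤ p Lam (k + 1) * 64 ^ (3 * Lam (k + 1 + 1)) := by
            gcongr
            · norm_num
            · show Lam k + 1 ≤ 3 * Lam (k + 2)
              omega
    have hps : p Lam (k + 2) ≤ p Lam s := p_mono Lam hks
    have hlR : 2 * ((y + l) * R Lam k) ≤ p Lam s := by nlinarith
    obtain ⟨hc1, hc2, hc3⟩ := slot_col hLm hLk hks h1 h2 h3 h4 hlR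
    have e1 : y + l + n = n + (y + l) := by ring
    have hpis : p Lam i ≤ p Lam s := p_mono Lam (by omega)
    rw [e1] at hmodk
    rw [e1, low3 (by omega) hc3 hk1k hki (by omega), hmodk, Nat.mod_eq_of_lt hyl]
  · push Not at hki
    have hcon2 : ¬ ((p Lam i ≤ (y % p Lam i + WW Lam i k) * R Lam ks) ∨
      (y + l) % p Lam (k + 1) < 2 * Lam k) := fun h => hcon ⟨hki, h⟩
    push Not at hcon2
    obtain ⟨hc1, hc2⟩ := hcon2
    have hLki : Lam k ≤ Lam i := hLm.monotone hki.le
    -- general fact: numbers of stage i with residue in the color zone are high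
    have hgen : ∀ z e, p Lam i ≤ z → z < p Lam (i + 1) → z % p Lam i = (y % p Lam i + e) % p Lam i →
        e ≤ WW Lam i k → ¬ low Lam i k1 ks z := by
      intro z e hz1 hz2 hz3 he
      have h5 : (y % p Lam i + e) * R Lam ks ≤ (y % p Lam i + WW Lam i k) * R Lam ks := by gcongr
      have h6 : (y % p Lam i + e) * R Lam ks < p Lam i := by omega
      have h7 : y % p Lam i + e < p Lam i :=
        lt_of_le_of_lt (Nat.le_mul_of_pos_right _ hRks) h6
      rw [Nat.mod_eq_of_lt h7] at hz3
      have hcol : col Lam z = ks := by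
        apply col_eq Lam hLm hLk hz1 hz2 (by omega)
        · rw [hz3]; exact h6
        · rw [hz3, add_mul]; omega
      rw [low1 hz1 hcol hksk]
      simp
    have hWl : l ≤ WW Lam i k := le_trans hl.le (Nat.le_add_left _ _)
    have hyl : ¬ low Lam i k1 ks (y + l) :=
      hgen (y + l) l (by omega) (by omega) (by rw [Nat.mod_add_mod]) hWl
    refine iff_of_false ?_ hyl
    by_cases hsi : s ≤ i
    · -- slot in stage at most i
      have hpsi : p Lam s ≤ p Lam i := p_mono Lam hsi
      have hnR : n ≤ n * R Lam k := Nat.le_mul_of_pos_right _ hRk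
      have hn2 : 2 * n ≤ p Lam (i + 1) := by
        have := p_mono Lam (show s + 1 ≤ i + 1 by omega)
        omega
      have hnm : n % p Lam i ≤ p Lam i / (2 * R Lam k) := by
        rw [Nat.le_div_iff_mul_le (by omega)]
        rcases Nat.eq_or_lt_of_le hsi with h | h
        · subst h
          have e5 : n % p Lam s * (2 * R Lam k) = 2 * ((n % p Lam s) * R Lam k) := by ring
          rw [e5]
          exact h4.le
        · have h5 := p_mono Lam (show s + 1 ≤ i by omega)
          have h6 : n % p Lam i ≤ n := Nat.mod_le _ _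
          calc n % p Lam i * (2 * R Lam k) ≤ n * (2 * R Lam k) := Nat.mul_le_mul_right _ h6
            _ = 2 * (n * R Lam k) := by ring
            _ ≤ p Lam i := h2.trans h5
      have hz1 : p Lam i ≤ y + l + n := by omega
      have hz2 : y + l + n < p Lam (i + 1) := by omega
      apply hgen (y + l + n) (l + n % p Lam i) hz1 hz2
      · rw [add_assoc]
        exact (Nat.mod_modEq y (p Lam i)).symm.add
          ((Nat.ModEq.refl l).add (Nat.mod_modEq n (p Lam i)).symm)
      · unfold WW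
        rw [add_comm]
        exact Nat.add_le_add hnm hl.le
    · push Not at hsi
      have hpis : p Lam (i + 1) ≤ p Lam s := p_mono Lam (by omega)
      have hlR : 2 * ((y + l) * R Lam k) ≤ p Lam s := by
        have h5 := R_le Lam k
        have h6 : (64 : ℕ) ^ Lam k ≤ 64 ^ Lam i := Nat.pow_le_pow_right (by norm_num) hLki
        have h7 : y + l ≤ NN Lam i + 2 * Lam i := by omega
        calc 2 * ((y + l) * R Lam k) ≤ 12 * ((NN Lam i + 2 * Lam i) * 64 ^ Lam i) := by
              gcongr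
              · norm_num
              · exact h5.trans h6
          _ ≤ p Lam s := hNN.trans hpis
      obtain ⟨hd1, hd2, hd3⟩ := slot_col hLm hLk hks h1 h2 h3 h4 hlR
      have e1 : y + l + n = n + (y + l) := by ring
      have hpi' : p Lam i ≤ p Lam s := p_mono Lam (by omega)
      rw [e1] at hmodk
      rw [e1, low2 (by omega) hd3 hk1k hki, hmodk]
      omega

end Pool.Agent.H615R3.FR
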