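import Mathlib

set_option autoImplicit false

namespace Pool.Agent.H615R3.UF

open Finset Classical

/-- class of the epoch `e` -/
def cls (k : ℕ) : ℕ := (Nat.unpair k).1

lemma cls_le (k : ℕ) : cls k ≤ k := Nat.unpair_left_le k

lemma cls_lt (k : ℕ) (hk : 1 ≤ k) : cls k < k := Nat.unpair_lt hk

/-- a general counting bound -/
lemma count_mod (P Z s N : ℕ) (hP : 0 < P) (T : Finset ℕ)
    (hT : ∀ y ∈ T, y ≤ N ∧ (y + s) % P < Z) : T.card ≤ (N / P + 2) * Z := by
  have hinj : Set.InjOn (fun y => ((y + s) / P - s / P, (y + s) % P)) (T : Set ℕ) := by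
    intro y _ z _ h
    simp only [Prod.mk.injEq] at h
    obtain ⟨h1, h2⟩ := h
    have h3 : s / P ≤ (y + s) / P := Nat.div_le_div_right (by omega)
    have h4 : s / P ≤ (z + s) / P := Nat.div_le_div_right (by omega)
    have h5 : (y + s) / P = (z + s) / P := by omega
    have h6 := Nat.div_add_mod (y + s) P
    have h7 := Nat.div_add_mod (z + s) P
    rw [h5, h2] at h6
    omega
  have hmap : ∀ y ∈ T, (fun y => ((y + s) / P - s / P, (y + s) % P)) y ∈
      (range (N / P + 2)) ×ˢ (range Z) := by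
    intro y hy
    obtain ⟨h1, h2⟩ := hT y hy
    simp only [mem_product, mem_range]
    refine ⟨?_, h2⟩
    have h3 : (y + s) / P ≤ (N + s) / P := Nat.div_le_div_right (by omega)
    have h4 : (N + s) / P ≤ N / P + s / P + 1 := by
      rw [Nat.add_div hP]
      split_ifs <;> omega
    exact Nat.lt_succ_of_le (Nat.sub_le_iff_le_add.2 (by linarith))
  calc T.card ≤ ((range (N / P + 2)) ×ˢ (range Z)).card := card_le_card_of_injOn _ hmap hinj
    _ = (N / P + 2) * Z := by rw [card_product, card_range, card_range]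

section
variable (Lam : ℕ → ℕ)

/-- the scales -/
def M : ℕ → ℕ
  | 0 => 1
  | k + 1 => M k * 64 ^ Lam k

/-- slots of class `k` -/
def A (k : ℕ) : Set ℕ :=
  {n | M Lam (k + 1) ∣ n ∧ ∃ e, 1 ≤ e ∧ cls e = k ∧ M Lam e ≤ n ∧ n ≤ 4 * M Lam e}

lemma M_pos (k : ℕ) : 0 < M Lam k := by
  induction k with
  | zero => exact one_pos
  | succ k ih => exact Nat.mul_pos ih (by positivity)

lemma M_succ (k : ℕ) : M Lam (k + 1) = M Lam k * 64 ^ Lam k := rfl

lemma M_dvd {a b : ℕ} (h : a ≤ b) : M Lam a ∣ M Lam b := by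
  induction b, h using Nat.le_induction with
  | base => exact dvd_rfl
  | succ n _ ih => exact ih.trans (Dvd.intro _ rfl)

lemma M_mono {a b : ℕ} (h : a ≤ b) : M Lam a ≤ M Lam b :=
  Nat.le_of_dvd (M_pos Lam b) (M_dvd Lam h)

variable (hLm : Monotone Lam) (hLk : ∀ k, k + 1 ≤ Lam k)
include hLk

lemma M_64 (k : ℕ) : 64 * M Lam k ≤ M Lam (k + 1) := by
  rw [M_succ, mul_comm]
  have h1 : 64 ^ 1 ≤ 64 ^ Lam k := Nat.pow_le_pow_right (by norm_num) (by have := hLk k; omega)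
  exact Nat.mul_le_mul_left _ (by simpa using h1)

lemma M_ge (k : ℕ) : k + 1 ≤ M Lam k := by
  induction k with
  | zero => exact le_rfl
  | succ k ih =>
    have := M_64 Lam hLk k
    omega

omit hLk in
lemma lam_lt (k : ℕ) : Lam k < 4 ^ Lam k := Nat.lt_pow_self (by norm_num)

omit hLk in
lemma pow_split (k : ℕ) : 64 ^ Lam k = 16 ^ Lam k * 4 ^ Lam k := by
  rw [← Nat.mul_pow]

omit hLk in
lemma F3 (i : ℕ) : 16 ^ Lam i * (5 * M Lam i + 2 * Lam i) ≤ 7 * M Lam (i + 1) := by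
  rw [M_succ, pow_split]
  have h1 := lam_lt Lam i
  have h2 := M_pos Lam i
  have h3 : 5 * M Lam i + 2 * Lam i ≤ 7 * (M Lam i * 4 ^ Lam i) := by nlinarith
  calc 16 ^ Lam i * (5 * M Lam i + 2 * Lam i) ≤ 16 ^ Lam i * (7 * (M Lam i * 4 ^ Lam i)) :=
        Nat.mul_le_mul_left _ h3
    _ = _ := by ring

omit hLk in
lemma F4 (k : ℕ) : 16 ^ Lam k * (2 * Lam k) ≤ 2 * M Lam (k + 1) := by
  rw [M_succ, pow_split]
  have h1 := lam_lt Lam k
  have h2 := M_pos Lam k
  have h3 : 2 * Lam k ≤ 2 * (M Lam k * 4 ^ Lam k) := by nlinarith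
  calc 16 ^ Lam k * (2 * Lam k) ≤ 16 ^ Lam k * (2 * (M Lam k * 4 ^ Lam k)) :=
        Nat.mul_le_mul_left _ h3
    _ = _ := by ring

lemma F16 (k : ℕ) : 16 ≤ 16 ^ Lam k := by
  calc 16 = 16 ^ 1 := by norm_num
    _ ≤ 16 ^ Lam k := Nat.pow_le_pow_right (by norm_num) (by have := hLk k; omega)

/-- zone lengths are far below the spacing -/
lemma zone_lt (k : ℕ) : 8 * (2 * Lam k) ≤ M Lam (k + 1) := by
  have h1 := F4 Lam k
  have h2 := F16 Lam hLk k
  have h3 : 16 * (2 * Lam k) ≤ 2 * M Lam (k + 1) := (Nat.mul_le_mul_right _ h2).trans h1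
  omega

omit hLk in
/-- epoch of a number -/
lemma exists_epoch (hLk : ∀ k, k + 1 ≤ Lam k) (n : ℕ) (hn : 1 ≤ n) :
    ∃ e, M Lam e ≤ n ∧ n < M Lam (e + 1) := by
  have hex : ∃ e, n < M Lam (e + 1) := ⟨n, by
    have := M_ge Lam hLk (n + 1); omega⟩
  refine ⟨Nat.find hex, ?_, Nat.find_spec hex⟩
  rcases Nat.eq_zero_or_pos (Nat.find hex) with h | h
  · rw [h]; exact hn
  · have := Nat.find_min hex (m := Nat.find hex - 1) (by omega)
    rw [Nat.sub_add_cancel h] at this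
    omega

omit hLk in
lemma epoch_unique {n e e' : ℕ} (h1 : M Lam e ≤ n) (h2 : n < M Lam (e + 1))
    (h3 : M Lam e' ≤ n) (h4 : n < M Lam (e' + 1)) : e = e' := by
  by_contra hne
  rcases Nat.lt_or_gt_of_ne hne with h | h
  · have := M_mono Lam (show e + 1 ≤ e' by omega)
    omega
  · have := M_mono Lam (show e' + 1 ≤ e by omega)
    omega

end

section low
variable (Lam : ℕ → ℕ)

/-- the epoch of `n` -/
noncomputable def epo (n : ℕ) : ℕ := Nat.findGreatest (fun e => M Lam e ≤ n) n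

lemma epo_eq (hLk : ∀ k, k + 1 ≤ Lam k) {n e : ℕ} (h1 : M Lam e ≤ n) (h2 : n < M Lam (e + 1)) :
    epo Lam n = e := by
  unfold epo
  rw [Nat.findGreatest_eq_iff]
  have := M_ge Lam hLk e
  refine ⟨by omega, fun _ => h1, fun k hk hkn => ?_⟩
  have h3 := M_mono Lam (show e + 1 ≤ k by omega)
  omega

/-- set where the profile equals `1` -/
def low (i k1 ks n : ℕ) : Prop :=
  if n < M Lam i then True
  else if cls (epo Lam n) < k1 then cls (epo Lam n) ≠ ks
  else if cls (epo Lam n) < i then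
    (n % M Lam (cls (epo Lam n) + 1) < 2 * Lam (cls (epo Lam n)) ∨
      (k1 ≤ ks ∧ n % M Lam (ks + 1) < 2 * Lam ks))
  else if _h : n % M Lam (cls (epo Lam n) + 1) < n then
    low i k1 ks (n % M Lam (cls (epo Lam n) + 1))
  else False
termination_by n

variable {Lam}
variable {i k1 ks : ℕ}

lemma low0 {n : ℕ} (h : n < M Lam i) : low Lam i k1 ks n := by
  rw [low, if_pos h]; trivial

lemma low1 (hLk : ∀ k, k + 1 ≤ Lam k) {n e : ℕ} (h1 : M Lam e ≤ n) (h2 : n < M Lam (e + 1))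
    (hie : i ≤ e) (hk : cls e < k1) : low Lam i k1 ks n ↔ cls e ≠ ks := by
  have h3 := M_mono Lam hie
  rw [low, if_neg (by omega), epo_eq Lam hLk h1 h2, if_pos hk]

lemma low2 (hLk : ∀ k, k + 1 ≤ Lam k) {n e : ℕ} (h1 : M Lam e ≤ n) (h2 : n < M Lam (e + 1))
    (hie : i ≤ e) (hk : k1 ≤ cls e) (hk' : cls e < i) : low Lam i k1 ks n ↔
      (n % M Lam (cls e + 1) < 2 * Lam (cls e) ∨ (k1 ≤ ks ∧ n % M Lam (ks + 1) < 2 * Lam ks)) := by
  have h3 := M_mono Lam hie
  rw [low, if_neg (by omega), epo_eq Lam hLk h1 h2, if_neg (by omega), if_pos hk']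

lemma low3 (hLk : ∀ k, k + 1 ≤ Lam k) {n e : ℕ} (h1 : M Lam e ≤ n) (h2 : n < M Lam (e + 1))
    (hie : i ≤ e) (he : 1 ≤ e) (hk : k1 ≤ cls e) (hk' : i ≤ cls e) : low Lam i k1 ks n ↔
      low Lam i k1 ks (n % M Lam (cls e + 1)) := by
  have h3 := M_mono Lam hie
  have h4 : n % M Lam (cls e + 1) < n := by
    have h5 : n % M Lam (cls e + 1) < M Lam (cls e + 1) := Nat.mod_lt _ (M_pos Lam _)
    have h6 := cls_lt e he
    have h7 := M_mono Lam (show cls e + 1 ≤ e by omega)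
    omega
  conv_lhs => rw [low, if_neg (by omega), epo_eq Lam hLk h1 h2, if_neg (by omega),
    if_neg (by omega), dif_pos h4]

end low

end Pool.Agent.H615R3.UF
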