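import Pool.Agent.H615R3.FRComb2
import Pool.Agent.H615R3.UFComb

set_option autoImplicit false

namespace Pool.Agent.H615R3.FR

open Finset Classical

variable {Lam : ℕ → ℕ}

lemma p_le_NN (i : ℕ) : p Lam i ≤ NN Lam i :=
  Nat.le_mul_of_pos_right _ (by positivity)

lemma band_count (hLm : StrictMono Lam) (hLk : ∀ k, k + 1 ≤ Lam k) {i ks : ℕ} (hksi : ks ≤ i)
    (W N : ℕ) (T : Finset ℕ) (hT : ∀ y ∈ T, y ≤ N ∧ (y % p Lam i) * R Lam ks < p Lam i ∧
      p Lam i ≤ (y % p Lam i + W) * R Lam ks) : T.card ≤ (N / p Lam i + 1) * W := by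
  obtain ⟨a, ha⟩ := R_dvd_p Lam hLk hLm hksi
  apply count_band (p Lam i) W a N T
  intro y hy
  obtain ⟨h1, h2, h3⟩ := hT y hy
  have hR := R_pos Lam ks
  refine ⟨h1, ?_, ?_⟩
  · by_contra hc
    push Not at hc
    have h4 : a * R Lam ks ≤ (y % p Lam i) * R Lam ks := Nat.mul_le_mul_right _ hc
    have h5 : a * R Lam ks = p Lam i := by rw [ha]; ring
    omega
  · by_contra hc
    push Not at hc
    have h4 : (y % p Lam i + W) * R Lam ks < a * R Lam ks := Nat.mul_lt_mul_of_pos_right hc hR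
    have h5 : a * R Lam ks = p Lam i := by rw [ha]; ring
    omega

lemma zcount (hLm : StrictMono Lam) (k s N : ℕ) (hN : p Lam (k + 1) ≤ N) (T : Finset ℕ)
    (hT : ∀ y ∈ T, y ≤ N ∧ (y + s) % p Lam (k + 1) < 2 * Lam k) :
    16 ^ Lam k * T.card ≤ 6 * N := by
  have h1 := UF.count_mod (p Lam (k + 1)) (2 * Lam k) s N (p_pos Lam _) T hT
  have h2 := F4 Lam hLm k
  calc 16 ^ Lam k * T.card ≤ 16 ^ Lam k * ((N / p Lam (k + 1) + 2) * (2 * Lam k)) :=
        Nat.mul_le_mul_left _ h1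
    _ = (N / p Lam (k + 1) + 2) * (16 ^ Lam k * (2 * Lam k)) := by ring
    _ ≤ (N / p Lam (k + 1) + 2) * (2 * p Lam (k + 1)) := Nat.mul_le_mul_left _ h2
    _ = 2 * (p Lam (k + 1) * (N / p Lam (k + 1))) + 4 * p Lam (k + 1) := by ring
    _ ≤ 2 * N + 4 * N := by
        have := Nat.mul_div_le N (p Lam (k + 1))
        omega
    _ = 6 * N := by ring

lemma fr_count (hLm : StrictMono Lam) (hLk : ∀ k, k + 1 ≤ Lam k) {i k1 ks : ℕ}
    (hksk : ks < k1) (hk1i : k1 ≤ i) (k n : ℕ) (hn : n ∈ A Lam k) (hk1k : k1 ≤ k)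
    (l : ℕ) (hl : l < 2 * Lam k) (F : Finset ℕ)
    (hF : ∀ y ∈ F, p Lam i ≤ y ∧ y ≤ NN Lam i ∧ (y % p Lam i) * R Lam ks < p Lam i ∧
      p Lam i ≤ (y % p Lam i) * R Lam (ks + 1)) :
    16 ^ Lam k * (F.filter fun y =>
      ¬ (low Lam i k1 ks (y + l + n) ↔ low Lam i k1 ks (y + l))).card ≤ 12 * NN Lam i := by
  set T := F.filter fun y =>
      ¬ (low Lam i k1 ks (y + l + n) ↔ low Lam i k1 ks (y + l)) with hT
  have hbad : ∀ y ∈ T, k < i ∧ ((p Lam i ≤ (y % p Lam i + WW Lam i k) * R Lam ks) ∨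
      (y + l) % p Lam (k + 1) < 2 * Lam k) := by
    intro y hy
    rw [hT, mem_filter] at hy
    obtain ⟨h1, h2, h3, h4⟩ := hF y hy.1
    exact fr_bad hLm hLk hksk hk1i k n hn hk1k l hl y h1 h2 h3 h4 hy.2
  rcases T.eq_empty_or_nonempty with h0 | ⟨y0, hy0⟩
  · simp [h0]
  have hki : k < i := (hbad y0 hy0).1
  set T1 := T.filter fun y => p Lam i ≤ (y % p Lam i + WW Lam i k) * R Lam ks with hT1
  set T2 := T.filter fun y => (y + l) % p Lam (k + 1) < 2 * Lam k with hT2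
  have hsub : T ⊆ T1 ∪ T2 := by
    intro y hy
    simp only [mem_union, hT1, hT2, mem_filter]
    rcases (hbad y hy).2 with h | h
    · exact Or.inl ⟨hy, h⟩
    · exact Or.inr ⟨hy, h⟩
  have hTF : ∀ y ∈ T, p Lam i ≤ y ∧ y ≤ NN Lam i ∧ (y % p Lam i) * R Lam ks < p Lam i ∧
      p Lam i ≤ (y % p Lam i) * R Lam (ks + 1) := fun y hy => hF y (mem_of_mem_filter y hy)
  have hpk := p_mono Lam (show k + 1 ≤ i by omega)
  have hpN := p_le_NN (Lam := Lam) i
  have c2 : 16 ^ Lam k * T2.card ≤ 6 * NN Lam i := by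
    apply zcount hLm k l (NN Lam i) (by omega) T2
    intro y hy
    rw [hT2, mem_filter] at hy
    exact ⟨(hTF y hy.1).2.1, hy.2⟩
  have c1 : 16 ^ Lam k * T1.card ≤ 6 * NN Lam i := by
    have h1 := band_count hLm hLk (show ks ≤ i by omega) (WW Lam i k) (NN Lam i) T1 (by
      intro y hy
      rw [hT1, mem_filter] at hy
      exact ⟨(hTF y hy.1).2.1, (hTF y hy.1).2.2.1, hy.2⟩)
    have h2 : 16 ^ Lam k * WW Lam i k ≤ 3 * p Lam i := by
      unfold WW
      rw [R_eq Lam k (by omega), mul_add]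
      have h3 := F4 Lam hLm k
      have h4 : 16 ^ Lam k * (p Lam i / (2 * 64 ^ Lam k)) ≤ p Lam i := by
        calc 16 ^ Lam k * (p Lam i / (2 * 64 ^ Lam k)) ≤
              (2 * 64 ^ Lam k) * (p Lam i / (2 * 64 ^ Lam k)) := by
              apply Nat.mul_le_mul_right
              have : (16 : ℕ) ^ Lam k ≤ 64 ^ Lam k := Nat.pow_le_pow_left (by norm_num) _
              omega
          _ ≤ p Lam i := Nat.mul_div_le _ _
      omega
    calc 16 ^ Lam k * T1.card ≤ 16 ^ Lam k * ((NN Lam i / p Lam i + 1) * WW Lam i k) :=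
          Nat.mul_le_mul_left _ h1
      _ = (NN Lam i / p Lam i + 1) * (16 ^ Lam k * WW Lam i k) := by ring
      _ ≤ (NN Lam i / p Lam i + 1) * (3 * p Lam i) := Nat.mul_le_mul_left _ h2
      _ = 3 * (p Lam i * (NN Lam i / p Lam i)) + 3 * p Lam i := by ring
      _ ≤ 3 * NN Lam i + 3 * NN Lam i := by
          have := Nat.mul_div_le (NN Lam i) (p Lam i)
          omega
      _ = 6 * NN Lam i := by ring
  have hcard : T.card ≤ T1.card + T2.card := (card_le_card hsub).trans (card_union_le _ _)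
  calc 16 ^ Lam k * T.card ≤ 16 ^ Lam k * (T1.card + T2.card) := Nat.mul_le_mul_left _ hcard
    _ = 16 ^ Lam k * T1.card + 16 ^ Lam k * T2.card := by ring
    _ ≤ 12 * NN Lam i := by omega

lemma fr_low_count (hLm : StrictMono Lam) (hLk : ∀ k, k + 1 ≤ Lam k) {i k1 ks : ℕ}
    (hksk : ks < k1) (hk1i : k1 ≤ i) (m : ℕ) (hm : m ≤ p Lam i) (F : Finset ℕ)
    (hF : ∀ y ∈ F, p Lam i ≤ y ∧ y ≤ NN Lam i ∧ (y % p Lam i) * R Lam ks < p Lam i ∧
      p Lam i ≤ (y % p Lam i) * R Lam (ks + 1)) :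
    p Lam i * (F.filter fun y => low Lam i k1 ks (y + m)).card ≤ 2 * NN Lam i * m := by
  set T := F.filter fun y => low Lam i k1 ks (y + m) with hT
  have hNN := NN_le Lam hLm hLk i
  have h64i : 1 ≤ 64 ^ Lam i := Nat.one_le_pow _ _ (by norm_num)
  have hNN2 : 12 * (NN Lam i + 2 * Lam i) ≤ p Lam (i + 1) :=
    le_trans (Nat.mul_le_mul_left _ (Nat.le_mul_of_pos_right _ (by omega))) hNN
  have hpN := p_le_NN (Lam := Lam) i
  have hTc : ∀ y ∈ T, y ≤ NN Lam i ∧ (y % p Lam i) * R Lam ks < p Lam i ∧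
      p Lam i ≤ (y % p Lam i + m) * R Lam ks := by
    intro y hy
    rw [hT, mem_filter] at hy
    obtain ⟨hyF, hlow⟩ := hy
    obtain ⟨h1, h2, h3, h4⟩ := hF y hyF
    refine ⟨h2, h3, ?_⟩
    by_contra hc
    push Not at hc
    have h7 : y % p Lam i + m < p Lam i :=
      lt_of_le_of_lt (Nat.le_mul_of_pos_right _ (R_pos Lam ks)) hc
    have hmod : (y + m) % p Lam i = y % p Lam i + m := by
      rw [← Nat.mod_add_mod, Nat.mod_eq_of_lt h7]
    have hcol : col Lam (y + m) = ks := by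
      apply col_eq Lam hLm hLk (show p Lam i ≤ y + m by omega) (by omega) (by omega)
      · rw [hmod]; exact hc
      · rw [hmod, add_mul]; omega
    rw [low1 (by omega) hcol hksk] at hlow
    exact hlow rfl
  have h1 := band_count hLm hLk (show ks ≤ i by omega) m (NN Lam i) T hTc
  calc p Lam i * T.card ≤ p Lam i * ((NN Lam i / p Lam i + 1) * m) := Nat.mul_le_mul_left _ h1
    _ = (p Lam i * (NN Lam i / p Lam i) + p Lam i) * m := by ring
    _ ≤ (NN Lam i + NN Lam i) * m := by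
        apply Nat.mul_le_mul_right
        have := Nat.mul_div_le (NN Lam i) (p Lam i)
        omega
    _ = 2 * NN Lam i * m := by ring

/-- positive lower density -/
def BigL (S : Set ℕ) : Prop :=
  ∃ δ : ℝ, 0 < δ ∧ ∃ N₀ : ℕ, ∀ N : ℕ, N₀ ≤ N →
    δ * (N : ℝ) ≤ (({n : ℕ | 1 ≤ n ∧ n ≤ N ∧ n ∈ S}.ncard : ℕ) : ℝ)

lemma BigL.mono {S S' : Set ℕ} (h : S ⊆ S') (hS : BigL S) : BigL S' := by
  obtain ⟨ε, hε, N₀, h1⟩ := hS
  refine ⟨ε, hε, N₀, fun N hN => (h1 N hN).trans ?_⟩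
  have hfin : {n : ℕ | 1 ≤ n ∧ n ≤ N ∧ n ∈ S'}.Finite :=
    (Set.finite_Icc 1 N).subset fun n hn => ⟨hn.1, hn.2.1⟩
  have hsub : {n : ℕ | 1 ≤ n ∧ n ≤ N ∧ n ∈ S} ⊆ {n : ℕ | 1 ≤ n ∧ n ≤ N ∧ n ∈ S'} :=
    fun n hn => ⟨hn.1, hn.2.1, h hn.2.2⟩
  exact_mod_cast Set.ncard_le_ncard hsub hfin

lemma ncard_eq (S : Set ℕ) (N : ℕ) :
    {n : ℕ | 1 ≤ n ∧ n ≤ N ∧ n ∈ S}.ncard = ((Icc 1 N).filter (· ∈ S)).card := by
  rw [← Set.ncard_coe_finset]
  congr 1
  ext n
  simp only [Set.mem_ofPred_eq, coe_filter, mem_Icc]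
  tauto

lemma exists_color (P r : ℕ) (K : ℕ) (h0 : r * R Lam 0 < P) (hK : P ≤ r * R Lam K) :
    ∃ ks < K, r * R Lam ks < P ∧ P ≤ r * R Lam (ks + 1) := by
  induction K with
  | zero => omega
  | succ K ih =>
    by_cases h : P ≤ r * R Lam K
    · obtain ⟨ks, h1, h2⟩ := ih h
      exact ⟨ks, by omega, h2⟩
    · exact ⟨K, by omega, by omega, hK⟩

lemma windows (hLm : StrictMono Lam) (hLk : ∀ k, k + 1 ≤ Lam k) (S : Set ℕ) (hS : BigL S) :
    ∃ ks : ℕ, ∃ δ : ℝ, 0 < δ ∧ ∀ I : ℕ, ∃ i, I ≤ i ∧ ∃ F : Finset ℕ,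
      (∀ y ∈ F, y ∈ S ∧ p Lam i ≤ y ∧ y ≤ NN Lam i ∧ (y % p Lam i) * R Lam ks < p Lam i ∧
      p Lam i ≤ (y % p Lam i) * R Lam (ks + 1)) ∧ δ * NN Lam i ≤ F.card := by
  obtain ⟨ε, hε, N₀, h1⟩ := hS
  obtain ⟨K0, hK0⟩ := pow_unbounded_of_one_lt (16 / ε) (by norm_num : (1 : ℝ) < 64)
  set K := K0 + 1 with hKdef
  have hRK : 16 / ε ≤ (R Lam K : ℝ) := by
    rw [R_eq Lam K (by omega)]
    push_cast
    refine hK0.le.trans ?_
    exact pow_le_pow_right₀ (by norm_num) (by have := hLk K; omega)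
  have hKpos : (0 : ℝ) < K := by positivity
  have main : ∀ I : ℕ, ∃ i, I ≤ i ∧ ∃ ks < K, ∃ F : Finset ℕ,
      (∀ y ∈ F, y ∈ S ∧ p Lam i ≤ y ∧ y ≤ NN Lam i ∧ (y % p Lam i) * R Lam ks < p Lam i ∧
      p Lam i ≤ (y % p Lam i) * R Lam (ks + 1)) ∧ ε / (2 * K) * NN Lam i ≤ F.card := by
    intro I
    set i := I + N₀ + K with hi
    refine ⟨i, by omega, ?_⟩
    have hppos := p_pos Lam i
    have hpN := p_le_NN (Lam := Lam) i
    have hpge := p_ge Lam hLm hLk i
    have h2 := h1 (NN Lam i) (by omega)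
    rw [ncard_eq] at h2
    set S1 := (Icc 1 (NN Lam i)).filter (· ∈ S) with hS1
    set B := (range (NN Lam i + 1)).filter fun y => (y % p Lam i) * R Lam K < p Lam i with hB
    let Fk : ℕ → Finset ℕ := fun ks => S1.filter fun y => p Lam i ≤ y ∧
      (y % p Lam i) * R Lam ks < p Lam i ∧ p Lam i ≤ (y % p Lam i) * R Lam (ks + 1)
    have hsub : S1 ⊆ range (p Lam i) ∪ (B ∪ (range K).biUnion Fk) := by
      intro y hy
      have hy' := hy
      rw [hS1, mem_filter, mem_Icc] at hy'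
      simp only [mem_union, mem_range, hB, mem_filter, mem_biUnion, Fk]
      rcases lt_or_ge y (p Lam i) with h | h
      · exact Or.inl h
      · right
        by_cases hc : (y % p Lam i) * R Lam K < p Lam i
        · exact Or.inl ⟨by omega, hc⟩
        · right
          push Not at hc
          obtain ⟨ks, hks, h3, h4⟩ := exists_color (Lam := Lam) (p Lam i) (y % p Lam i) K
            (by show (y % p Lam i) * 1 < p Lam i
                rw [mul_one]; exact Nat.mod_lt _ hppos) hc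
          exact ⟨ks, hks, hy, h, h3, h4⟩
    have hBc : (B.card : ℝ) ≤ ε / 4 * NN Lam i := by
      obtain ⟨a, ha⟩ := R_dvd_p Lam hLk hLm (show K ≤ i by omega)
      have hRpos := R_pos Lam K
      have h3 := UF.count_mod (p Lam i) a 0 (NN Lam i) hppos B (by
        intro y hy
        rw [hB, mem_filter, mem_range] at hy
        refine ⟨by omega, ?_⟩
        rw [add_zero]
        by_contra hc
        push Not at hc
        have h4 : a * R Lam K ≤ (y % p Lam i) * R Lam K := Nat.mul_le_mul_right _ hc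
        have h5 : a * R Lam K = p Lam i := by rw [ha]; ring
        omega)
      have h4 : R Lam K * B.card ≤ 3 * NN Lam i := by
        calc R Lam K * B.card ≤ R Lam K * ((NN Lam i / p Lam i + 2) * a) :=
              Nat.mul_le_mul_left _ h3
          _ = (NN Lam i / p Lam i + 2) * (R Lam K * a) := by ring
          _ = p Lam i * (NN Lam i / p Lam i) + 2 * p Lam i := by rw [← ha]; ring
          _ ≤ NN Lam i + 2 * NN Lam i := by
              have := Nat.mul_div_le (NN Lam i) (p Lam i)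
              omega
          _ = 3 * NN Lam i := by ring
      have h5 : (R Lam K : ℝ) * B.card ≤ 3 * NN Lam i := by exact_mod_cast h4
      have h6 : 16 / ε * B.card ≤ 3 * (NN Lam i : ℝ) := by
        refine le_trans ?_ h5
        gcongr
      have h7 : (B.card : ℝ) ≤ 3 * (NN Lam i : ℝ) * (ε / 16) := by
        rw [div_mul_eq_mul_div, div_le_iff₀ hε] at h6
        linarith
      have h8 : (0 : ℝ) ≤ NN Lam i := Nat.cast_nonneg _
      nlinarith
    have hpc : (p Lam i : ℝ) ≤ ε / 4 * NN Lam i := by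
      have h3 : (NN Lam i : ℝ) = p Lam i * 64 ^ Lam i := by unfold NN; push_cast; ring
      rw [h3]
      have h4 : 16 / ε ≤ (64 : ℝ) ^ Lam i := by
        refine hK0.le.trans ?_
        exact pow_le_pow_right₀ (by norm_num) (by have := hLk i; omega)
      have h5 : (0 : ℝ) < p Lam i := by exact_mod_cast hppos
      calc (p Lam i : ℝ) = ε / 4 * (p Lam i * (4 / ε)) := by field_simp
        _ ≤ ε / 4 * (p Lam i * (16 / ε)) := by gcongr; norm_num
        _ ≤ ε / 4 * (p Lam i * 64 ^ Lam i) := by gcongr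
    have hcard : (S1.card : ℝ) ≤ p Lam i + (B.card + ∑ ks ∈ range K, ((Fk ks).card : ℝ)) := by
      have h3 := (card_le_card hsub).trans (card_union_le _ _)
      have h4 := card_union_le B ((range K).biUnion Fk)
      have h5 : ((range K).biUnion Fk).card ≤ ∑ ks ∈ range K, (Fk ks).card := card_biUnion_le
      rw [card_range] at h3
      have h6 : S1.card ≤ p Lam i + (B.card + ∑ ks ∈ range K, (Fk ks).card) := by omega
      exact_mod_cast h6
    by_contra hcon
    push Not at hcon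
    have h3 : ∀ ks ∈ range K, ((Fk ks).card : ℝ) ≤ ε / (2 * K) * NN Lam i := by
      intro ks hks
      rw [mem_range] at hks
      refine (hcon ks hks (Fk ks) ?_).le
      intro y hy
      simp only [Fk, mem_filter, hS1, mem_Icc] at hy
      exact ⟨hy.1.2, hy.2.1, hy.1.1.2, hy.2.2⟩
    have h4 : ∑ ks ∈ range K, ((Fk ks).card : ℝ) < ε / 2 * NN Lam i := by
      have h5 : ∀ ks ∈ range K, ((Fk ks).card : ℝ) < ε / (2 * K) * NN Lam i := by
        intro ks hks
        rw [mem_range] at hks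
        refine (hcon ks hks (Fk ks) ?_)
        intro y hy
        simp only [Fk, mem_filter, hS1, mem_Icc] at hy
        exact ⟨hy.1.2, hy.2.1, hy.1.1.2, hy.2.2⟩
      calc ∑ ks ∈ range K, ((Fk ks).card : ℝ) < ∑ _ks ∈ range K, ε / (2 * K) * NN Lam i :=
            sum_lt_sum_of_nonempty ⟨0, mem_range.2 (by omega)⟩ h5
        _ = ε / 2 * NN Lam i := by
            rw [sum_const, card_range, nsmul_eq_mul]
            field_simp
    linarith
  by_contra hcon
  push Not at hcon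
  choose J hJ using fun ks => hcon ks (ε / (2 * K)) (by positivity)
  obtain ⟨i, hi, ks, hks, F, hF, hFc⟩ := main (∑ ks ∈ range K, J ks)
  have h2 : J ks ≤ ∑ ks ∈ range K, J ks :=
    single_le_sum (f := J) (fun _ _ => Nat.zero_le _) (mem_range.2 hks)
  have h3 := hJ ks i (by omega) F hF
  linarith

end Pool.Agent.H615R3.FR
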