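import Pool.Agent.H615R3.FreeSp

set_option autoImplicit false

namespace Pool.Agent.H615R3.Free

open Filter Topology Finset BoundedContinuousFunction Classical

variable {𝕂 : Type} [RCLike 𝕂] (D : Data 𝕂)

/-- `a`-component of the sum of coefficients -/
noncomputable def pisum (v : Gen →₀ 𝕂) (a : Bool → 𝕂) : 𝕂 := ∑ i ∈ v.support, v i * a i.2

/-- the two-valued profile -/
noncomputable def th (H : ℝ) (low : ℕ → Prop) (m : ℕ) : ℝ := if low m then 1 else H

lemma th_pos {H : ℝ} (hH : 1 ≤ H) (low : ℕ → Prop) (m : ℕ) : 1 ≤ th H low m := by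
  unfold th; split_ifs <;> linarith

lemma th_le {H : ℝ} (hH : 1 ≤ H) (low : ℕ → Prop) (m : ℕ) : th H low m ≤ H := by
  unfold th; split_ifs <;> linarith

lemma th_diff {H : ℝ} (hH : 1 ≤ H) (low : ℕ → Prop) (m n : ℕ) :
    |th H low m - th H low n| ≤ H := by
  have h1 := th_pos hH low m
  have h2 := th_pos hH low n
  have h3 := th_le hH low m
  have h4 := th_le hH low n
  rw [abs_le]; constructor <;> linarith

lemma th_diff' {H : ℝ} (hH : 1 ≤ H) (low : ℕ → Prop) (m n : ℕ) :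
    |th H low m - th H low n| ≤ if ¬ (low m ↔ low n) then H else 0 := by
  by_cases h : low m ↔ low n
  · have : th H low m = th H low n := by unfold th; simp only [h]
    simp [h, this]
  · rw [if_pos h]; exact th_diff hH low m n

/-- combinatorial hypothesis -/
def Good (S : Set ℕ) (a : Bool → 𝕂) : Prop :=
  ∀ h : ℕ, ∃ C : ℝ, 0 < C ∧ ∀ η : ℝ, 0 < η → ∀ m₀ : ℕ, ∃ F : Finset ℕ, F.Nonempty ∧
    (∀ n ∈ F, n ∈ S) ∧ ∃ low : ℕ → Prop, (∀ m < h, low m) ∧
    (∀ k, ∀ n ∈ D.A k, (∀ l < D.Lam k + 2 * D.b k + h, (low (n + l) ↔ low l)) ∨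
      (pisum (D.x k) a = 0 ∧ (∀ l < D.Lam k + 2 * D.b k + h, low l) ∧
        ((∀ l < D.Lam k + 2 * D.b k + h, low (n + l)) ∨
          (∀ l < D.Lam k + 2 * D.b k + h, ¬ low (n + l))))) ∧
    (∀ k, ∀ n ∈ D.A k, ∀ l < D.Lam k + 2 * D.b k,
      4 ^ (D.Lam k + D.b k) *
        ((F.filter fun y => ¬ (low (y + l + n) ↔ low (y + l))).card : ℝ) ≤ C * F.card) ∧
    (∀ m ≤ m₀, ((F.filter fun y => low (y + m)).card : ℝ) ≤ η * F.card)

lemma pr_mul (a : Bool → 𝕂) (g : ℕ → ℝ) (v : Gen →₀ 𝕂) (s : ℕ) :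
    pr (fun i : Gen => a i.2 * (g i.1 : 𝕂)) v s = ∑ i ∈ v.support, v i * (a i.2 * (g (i.1 + s) : 𝕂)) :=
  rfl

lemma pr_diff_le (a : Bool → 𝕂) (ha : ∀ r, ‖a r‖ ≤ 1) (g : ℕ → ℝ) (v : Gen →₀ 𝕂) (s t : ℕ)
    (B : ℝ) (hB : ∀ i ∈ v.support, |g (i.1 + s) - g (i.1 + t)| ≤ B) :
    ‖pr (fun i : Gen => a i.2 * (g i.1 : 𝕂)) v s - pr (fun i : Gen => a i.2 * (g i.1 : 𝕂)) v t‖ ≤
      (∑ i ∈ v.support, ‖v i‖) * B := by
  rw [pr_mul, pr_mul, ← sum_sub_distrib, sum_mul]
  refine (norm_sum_le _ _).trans (sum_le_sum fun i hi => ?_)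
  have h1 : v i * (a i.2 * (g (i.1 + s) : 𝕂)) - v i * (a i.2 * (g (i.1 + t) : 𝕂)) =
      v i * (a i.2 * (((g (i.1 + s) - g (i.1 + t) : ℝ)) : 𝕂)) := by
    push_cast; ring
  rw [h1, norm_mul, norm_mul, RCLike.norm_ofReal]
  have h2 := hB i hi
  have h3 := ha i.2
  have h4 := norm_nonneg (v i)
  calc ‖v i‖ * (‖a i.2‖ * |g (i.1 + s) - g (i.1 + t)|) ≤ ‖v i‖ * (1 * B) := by gcongr
    _ = ‖v i‖ * B := by ring

variable {D}

/-- the functional `a ⊗ θ` -/
noncomputable def thF (a : Bool → 𝕂) (ha : ∀ r, ‖a r‖ ≤ 1) (h : ℕ) (low : ℕ → Prop)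
    (h0 : ∀ m < h, low m)
    (h1 : ∀ k, ∀ n ∈ D.A k, (∀ l < D.Lam k + 2 * D.b k + h, (low (n + l) ↔ low l)) ∨
      (pisum (D.x k) a = 0 ∧ (∀ l < D.Lam k + 2 * D.b k + h, low l) ∧
        ((∀ l < D.Lam k + 2 * D.b k + h, low (n + l)) ∨
          (∀ l < D.Lam k + 2 * D.b k + h, ¬ low (n + l))))) : Fn D where
  f := fun i => a i.2 * ((th (4 ^ h) low i.1 : ℝ) : 𝕂)
  bd := by
    intro m r
    have hH : (1 : ℝ) ≤ 4 ^ h := one_le_pow₀ (by norm_num)
    rw [norm_mul, RCLike.norm_ofReal, abs_of_nonneg (by linarith [th_pos hH low m])]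
    have h2 : th (4 ^ h) low m ≤ 4 ^ m := by
      unfold th
      split_ifs with hl
      · exact one_le_pow₀ (by norm_num)
      · have : h ≤ m := by
          by_contra hc
          exact hl (h0 m (by omega))
        exact pow_le_pow_right₀ (by norm_num) this
    have h3 := ha r
    have h4 := th_pos hH low m
    calc ‖a r‖ * th (4 ^ h) low m ≤ 1 * 4 ^ m := by gcongr
      _ = 4 ^ m := one_mul _
  ret := by
    intro k n hn m
    have hH : (1 : ℝ) ≤ 4 ^ h := one_le_pow₀ (by norm_num)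
    by_cases hm : D.Lam k + D.b k + h ≤ m
    · refine (pr_diff_le a ha _ _ _ _ (4 ^ h) (fun i _ => th_diff hH low _ _)).trans ?_
      have h2 := D.nrm k
      rw [le_div_iff₀ (by positivity)]
      calc (∑ i ∈ (D.x k).support, ‖D.x k i‖) * 4 ^ h * 4 ^ D.Lam k
          ≤ 4 ^ D.b k * 4 ^ h * 4 ^ D.Lam k := by gcongr
        _ = 4 ^ (D.Lam k + D.b k + h) := by rw [pow_add, pow_add]; ring
        _ ≤ 4 ^ m := pow_le_pow_right₀ (by norm_num) hm
    · push Not at hm
      have key : pr (fun i : Gen => a i.2 * ((th (4 ^ h) low i.1 : ℝ) : 𝕂)) (D.x k) (n + m) -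
          pr (fun i : Gen => a i.2 * ((th (4 ^ h) low i.1 : ℝ) : 𝕂)) (D.x k) m = 0 := by
        rcases h1 k n hn with h2 | ⟨h2, h3, h4⟩
        · rw [sub_eq_zero, pr_mul, pr_mul]
          refine sum_congr rfl fun i hi => ?_
          have h5 := D.supp k i hi
          have h6 := h2 (i.1 + m) (by omega)
          have h7 : i.1 + (n + m) = n + (i.1 + m) := by ring
          have h8 : th (4 ^ h) low (i.1 + (n + m)) = th (4 ^ h) low (i.1 + m) := by
            unfold th
            rw [h7]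
            simp only [h6]
          rw [h8]
        · obtain ⟨c, hc⟩ : ∃ c : ℝ, ∀ l < D.Lam k + 2 * D.b k + h,
              th (4 ^ h) low (n + l) = c := by
            rcases h4 with h4 | h4
            · exact ⟨1, fun l hl => by unfold th; rw [if_pos (h4 l hl)]⟩
            · exact ⟨4 ^ h, fun l hl => by unfold th; rw [if_neg (h4 l hl)]⟩
          rw [pr_mul, pr_mul, ← sum_sub_distrib]
          have h5 : ∀ i ∈ (D.x k).support,
              D.x k i * (a i.2 * ((th (4 ^ h) low (i.1 + (n + m)) : ℝ) : 𝕂)) -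
              D.x k i * (a i.2 * ((th (4 ^ h) low (i.1 + m) : ℝ) : 𝕂)) =
              (D.x k i * a i.2) * ((c : 𝕂) - 1) := by
            intro i hi
            have h5 := D.supp k i hi
            have h6 := h3 (i.1 + m) (by omega)
            have h7 : i.1 + (n + m) = n + (i.1 + m) := by ring
            have h8 := hc (i.1 + m) (by omega)
            have h9 : th (4 ^ h) low (i.1 + m) = 1 := by unfold th; rw [if_pos h6]
            rw [h7, h8, h9]
            push_cast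
            ring
          rw [sum_congr rfl h5, ← sum_mul]
          have h6 : ∑ i ∈ (D.x k).support, D.x k i * a i.2 = 0 := h2
          rw [h6, zero_mul]
      rw [key, norm_zero]
      positivity

/-- the averaged functional -/
noncomputable def psF (a : Bool → 𝕂) (ha : ∀ r, ‖a r‖ ≤ 1) (h : ℕ) (low : ℕ → Prop)
    (C : ℝ) (hC : 1 ≤ C) (F : Finset ℕ) (hF : F.Nonempty)
    (h2 : ∀ k, ∀ n ∈ D.A k, ∀ l < D.Lam k + 2 * D.b k,
      4 ^ (D.Lam k + D.b k) *
        ((F.filter fun y => ¬ (low (y + l + n) ↔ low (y + l))).card : ℝ) ≤ C * F.card) : Fn D where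
  f := fun i => a i.2 * (((1 / (C * 4 ^ h * F.card) * ∑ y ∈ F, th (4 ^ h) low (i.1 + y)) : ℝ) : 𝕂)
  bd := by
    intro m r
    have hH : (1 : ℝ) ≤ 4 ^ h := one_le_pow₀ (by norm_num)
    have hFc : (0 : ℝ) < F.card := by exact_mod_cast hF.card_pos
    have h3 : 0 ≤ 1 / (C * 4 ^ h * F.card) * ∑ y ∈ F, th (4 ^ h) low (m + y) := by
      apply mul_nonneg (by positivity)
      exact sum_nonneg fun y _ => by linarith [th_pos hH low (m + y)]
    rw [norm_mul, RCLike.norm_ofReal]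
    simp only
    rw [abs_of_nonneg h3]
    have h4 : ∑ y ∈ F, th (4 ^ h) low (m + y) ≤ F.card * 4 ^ h := by
      calc ∑ y ∈ F, th (4 ^ h) low (m + y) ≤ ∑ _y ∈ F, (4 : ℝ) ^ h :=
            sum_le_sum fun y _ => th_le hH low _
        _ = F.card * 4 ^ h := by rw [sum_const, nsmul_eq_mul]
    have h5 : 1 / (C * 4 ^ h * F.card) * ∑ y ∈ F, th (4 ^ h) low (m + y) ≤ 1 := by
      rw [one_div, inv_mul_le_iff₀ (by positivity)]
      have h5 : (0 : ℝ) ≤ F.card * 4 ^ h := by positivity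
      nlinarith
    have h6 := ha r
    have h7 : (1 : ℝ) ≤ 4 ^ m := one_le_pow₀ (by norm_num)
    calc ‖a r‖ * (1 / (C * 4 ^ h * F.card) * ∑ y ∈ F, th (4 ^ h) low (m + y)) ≤ 1 * 1 := by
          gcongr
      _ ≤ 4 ^ m := by linarith
  ret := by
    intro k n hn m
    have hH : (1 : ℝ) ≤ 4 ^ h := one_le_pow₀ (by norm_num)
    have hFc : (0 : ℝ) < F.card := by exact_mod_cast hF.card_pos
    have hgen : ∀ i ∈ (D.x k).support, ∀ B : ℝ,
        (∑ y ∈ F, |th (4 ^ h) low (i.1 + (n + m) + y) - th (4 ^ h) low (i.1 + m + y)|) ≤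
          C * 4 ^ h * F.card * B →
        |(1 / (C * 4 ^ h * F.card) * ∑ y ∈ F, th (4 ^ h) low (i.1 + (n + m) + y)) -
          (1 / (C * 4 ^ h * F.card) * ∑ y ∈ F, th (4 ^ h) low (i.1 + m + y))| ≤ B := by
      intro i _ B hB
      rw [← mul_sub, ← sum_sub_distrib, abs_mul, abs_of_nonneg (by positivity), one_div,
        inv_mul_le_iff₀ (by positivity)]
      exact (abs_sum_le_sum_abs _ _).trans hB
    by_cases hm : D.Lam k + D.b k ≤ m
    · refine (pr_diff_le a ha (fun m => 1 / (C * 4 ^ h * F.card) *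
        ∑ y ∈ F, th (4 ^ h) low (m + y)) _ _ _ 1 (fun i hi => hgen i hi 1 ?_)).trans ?_
      · calc ∑ y ∈ F, |th (4 ^ h) low (i.1 + (n + m) + y) - th (4 ^ h) low (i.1 + m + y)|
            ≤ ∑ _y ∈ F, (4 : ℝ) ^ h := sum_le_sum fun y _ => th_diff hH low _ _
          _ = F.card * 4 ^ h := by rw [sum_const, nsmul_eq_mul]
          _ ≤ C * 4 ^ h * F.card * 1 := by
              have : (0 : ℝ) ≤ F.card * 4 ^ h := by positivity
              nlinarith
      · have h2 := D.nrm k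
        rw [le_div_iff₀ (by positivity), mul_one]
        calc (∑ i ∈ (D.x k).support, ‖D.x k i‖) * 4 ^ D.Lam k
            ≤ 4 ^ D.b k * 4 ^ D.Lam k := by gcongr
          _ = 4 ^ (D.Lam k + D.b k) := by rw [pow_add]; ring
          _ ≤ 4 ^ m := pow_le_pow_right₀ (by norm_num) hm
    · push Not at hm
      refine (pr_diff_le a ha (fun m => 1 / (C * 4 ^ h * F.card) *
        ∑ y ∈ F, th (4 ^ h) low (m + y)) _ _ _ (1 / 4 ^ (D.Lam k + D.b k))
        (fun i hi => hgen i hi _ ?_)).trans ?_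
      · have h5 := D.supp k i hi
        have h6 := h2 k n hn (i.1 + m) (by omega)
        have h7 : ∑ y ∈ F, |th (4 ^ h) low (i.1 + (n + m) + y) - th (4 ^ h) low (i.1 + m + y)| ≤
            4 ^ h * ((F.filter fun y => ¬ (low (y + (i.1 + m) + n) ↔ low (y + (i.1 + m)))).card : ℝ) := by
          rw [Finset.card_filter]
          push_cast
          rw [mul_sum]
          refine sum_le_sum fun y _ => ?_
          have e1 : i.1 + (n + m) + y = y + (i.1 + m) + n := by ring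
          have e2 : i.1 + m + y = y + (i.1 + m) := by ring
          rw [e1, e2]
          refine (th_diff' hH low _ _).trans ?_
          split_ifs <;> simp
        refine h7.trans ?_
        have h8 : ((F.filter fun y => ¬ (low (y + (i.1 + m) + n) ↔ low (y + (i.1 + m)))).card : ℝ) ≤
            C * F.card / 4 ^ (D.Lam k + D.b k) := by
          rw [le_div_iff₀ (by positivity)]
          linarith
        calc _ ≤ 4 ^ h * (C * F.card / 4 ^ (D.Lam k + D.b k)) := by gcongr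
          _ = _ := by ring
      · have h2 := D.nrm k
        have h9 : (1 : ℝ) ≤ 4 ^ m := one_le_pow₀ (by norm_num)
        calc (∑ i ∈ (D.x k).support, ‖D.x k i‖) * (1 / 4 ^ (D.Lam k + D.b k))
            ≤ 4 ^ D.b k * (1 / 4 ^ (D.Lam k + D.b k)) := by gcongr
          _ = 1 / 4 ^ D.Lam k := by rw [pow_add]; field_simp
          _ ≤ 4 ^ m / 4 ^ D.Lam k := by gcongr

theorem good_zero (S : Set ℕ) (a : Bool → 𝕂) (ha : ∀ r, ‖a r‖ ≤ 1) (hG : Good D S a)
    (w : EE D) (hw : w ∈ MM D) (hS : ∀ n ∈ S, ‖(Tp D)^[n] w - w‖ ≤ 1) : w (inv D a ha) = 0 := by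
  have key : ∀ h : ℕ, ‖w (inv D a ha)‖ ≤ (‖w‖ + 1) / 4 ^ h := by
    intro h
    obtain ⟨C0, hC0, hG1⟩ := hG h
    set C := max C0 1 with hCdef
    have hC1 : 1 ≤ C := le_max_right _ _
    refine le_of_forall_pos_le_add fun η' hη' => ?_
    set η₁ := η' / (C + 2) with hη₁
    have hη₁pos : 0 < η₁ := by positivity
    have hwcl : w ∈ closure ((Submodule.span 𝕂 (Set.range (gen D)) : Submodule 𝕂 (EE D)) :
        Set (EE D)) := by
      rw [← Submodule.topologicalClosure_coe]; exact hw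
    obtain ⟨v, hv, hdv⟩ := Metric.mem_closure_iff.1 hwcl η₁ hη₁pos
    obtain ⟨u, rfl⟩ := span_eq_vec D v hv
    rw [dist_eq_norm] at hdv
    set B := ∑ i ∈ u.support, ‖u i‖ with hB
    have hBnn : 0 ≤ B := sum_nonneg fun i _ => norm_nonneg _
    set m₀ := u.support.sup (fun i => i.1) with hm₀
    obtain ⟨F, hF, hFS, low, h0, h1, h2, h3⟩ := hG1 (η₁ / (B + 1)) (by positivity) m₀
    have hFc : (0 : ℝ) < F.card := by exact_mod_cast hF.card_pos
    have hH : (1 : ℝ) ≤ 4 ^ h := one_le_pow₀ (by norm_num)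
    have h2' : ∀ k, ∀ n ∈ D.A k, ∀ l < D.Lam k + 2 * D.b k,
      4 ^ (D.Lam k + D.b k) *
        ((F.filter fun y => ¬ (low (y + l + n) ↔ low (y + l))).card : ℝ) ≤ C * F.card := by
      intro k n hn l hl
      refine (h2 k n hn l hl).trans ?_
      have : C0 ≤ C := le_max_left _ _
      gcongr
    let ϕ : Fn D := thF a ha h low h0 h1
    let ψ : Fn D := psF a ha h low C hC1 F hF h2'
    have hid := avg_identity D F ϕ ψ ((C * 4 ^ h * F.card : ℝ) : 𝕂) (by
      intro i
      show ((C * 4 ^ h * F.card : ℝ) : 𝕂) * (a i.2 *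
        (((1 / (C * 4 ^ h * F.card) * ∑ y ∈ F, th (4 ^ h) low (i.1 + y)) : ℝ) : 𝕂)) =
        ∑ n ∈ F, a i.2 * ((th (4 ^ h) low (i.1 + n) : ℝ) : 𝕂)
      rw [← mul_sum]
      have e1 : (C * 4 ^ h * F.card) * (1 / (C * 4 ^ h * F.card) *
          ∑ y ∈ F, th (4 ^ h) low (i.1 + y)) = ∑ y ∈ F, th (4 ^ h) low (i.1 + y) := by
        field_simp
      rw [mul_left_comm, ← RCLike.ofReal_mul, e1]
      push_cast
      rfl) w hw
    -- bound on ψ(w)
    have hb1 : C * ‖w ψ‖ ≤ (‖w‖ + 1) / 4 ^ h := by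
      have h4 : ‖((C * 4 ^ h * F.card : ℝ) : 𝕂) * w ψ‖ ≤ F.card * (‖w‖ + 1) := by
        rw [hid]
        refine (norm_sum_le _ _).trans ?_
        calc ∑ n ∈ F, ‖((Tp D)^[n] w) ϕ‖ ≤ ∑ _n ∈ F, (‖w‖ + 1) := by
              refine sum_le_sum fun n hn => ?_
              refine ((((Tp D)^[n] w)).norm_coe_le_norm ϕ).trans ?_
              have h5 := hS n (hFS n hn)
              calc ‖(Tp D)^[n] w‖ = ‖w + ((Tp D)^[n] w - w)‖ := by congr 1; abel
                _ ≤ ‖w‖ + ‖(Tp D)^[n] w - w‖ := norm_add_le _ _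
                _ ≤ ‖w‖ + 1 := by linarith
          _ = F.card * (‖w‖ + 1) := by rw [sum_const, nsmul_eq_mul]
      rw [norm_mul, RCLike.norm_ofReal, abs_of_nonneg (by positivity)] at h4
      rw [le_div_iff₀ (by positivity)]
      have h5 : F.card * (C * ‖w ψ‖ * 4 ^ h) ≤ F.card * (‖w‖ + 1) := by
        calc _ = C * 4 ^ h * F.card * ‖w ψ‖ := by ring
          _ ≤ _ := h4
      exact le_of_mul_le_mul_left h5 hFc
    -- pointwise comparison
    have hb2 : ‖(C : 𝕂) * vec D u ψ - vec D u (inv D a ha)‖ ≤ η₁ := by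
      rw [vec_apply, vec_apply, mul_sum, ← sum_sub_distrib]
      have h5 : ∀ i ∈ u.support, ‖(C : 𝕂) * (u i * ψ.f i) - u i * (inv D a ha).f i‖ ≤
          ‖u i‖ * (η₁ / (B + 1)) := by
        intro i hi
        have hmi : i.1 ≤ m₀ := Finset.le_sup (f := fun i : Gen => i.1) hi
        have h6 := h3 i.1 hmi
        set A := ∑ y ∈ F, th (4 ^ h) low (i.1 + y) with hA
        have e1 : (C : 𝕂) * (u i * ψ.f i) - u i * (inv D a ha).f i =
            u i * (a i.2 * (((C * (1 / (C * 4 ^ h * F.card) * A) - 1 : ℝ)) : 𝕂)) := by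
          show (C : 𝕂) * (u i * (a i.2 *
            (((1 / (C * 4 ^ h * F.card) * ∑ y ∈ F, th (4 ^ h) low (i.1 + y)) : ℝ) : 𝕂))) -
              u i * a i.2 = _
          rw [← hA]
          push_cast
          ring
        rw [e1, norm_mul, norm_mul, RCLike.norm_ofReal]
        have h7 : |C * (1 / (C * 4 ^ h * F.card) * A) - 1| ≤ η₁ / (B + 1) := by
          have e2 : C * (1 / (C * 4 ^ h * F.card) * A) - 1 =
              (A - F.card * 4 ^ h) / (F.card * 4 ^ h) := by
            field_simp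
          rw [e2, abs_div, abs_of_pos (show (0 : ℝ) < F.card * 4 ^ h by positivity),
            div_le_iff₀ (by positivity)]
          have e3 : A - F.card * 4 ^ h = ∑ y ∈ F, (th (4 ^ h) low (i.1 + y) - 4 ^ h) := by
            rw [sum_sub_distrib, sum_const, nsmul_eq_mul]
          rw [e3]
          refine (abs_sum_le_sum_abs _ _).trans ?_
          calc ∑ y ∈ F, |th (4 ^ h) low (i.1 + y) - 4 ^ h|
              ≤ ∑ y ∈ F, (if low (y + i.1) then (4 : ℝ) ^ h else 0) := by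
                refine sum_le_sum fun y _ => ?_
                rw [add_comm i.1 y]
                unfold th
                split_ifs
                · rw [abs_le]; constructor <;> linarith
                · simp
            _ = ((F.filter fun y => low (y + i.1)).card : ℝ) * 4 ^ h := by
                rw [← sum_filter, sum_const, nsmul_eq_mul]
            _ ≤ (η₁ / (B + 1) * F.card) * 4 ^ h := by gcongr
            _ = η₁ / (B + 1) * (F.card * 4 ^ h) := by ring
        have h8 := ha i.2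
        calc ‖u i‖ * (‖a i.2‖ * |C * (1 / (C * 4 ^ h * F.card) * A) - 1|)
            ≤ ‖u i‖ * (1 * (η₁ / (B + 1))) := by gcongr
          _ = _ := by ring
      refine (norm_sum_le _ _).trans ((sum_le_sum h5).trans ?_)
      rw [← sum_mul, ← hB, mul_div_assoc', div_le_iff₀ (by positivity)]
      nlinarith
    have hb3 : ‖(w - vec D u) (inv D a ha)‖ ≤ η₁ :=
      ((w - vec D u).norm_coe_le_norm _).trans hdv.le
    have hb4 : ‖(w - vec D u) ψ‖ ≤ η₁ := ((w - vec D u).norm_coe_le_norm _).trans hdv.le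
    rw [BoundedContinuousFunction.sub_apply] at hb3 hb4
    have hfin : w (inv D a ha) = (w (inv D a ha) - vec D u (inv D a ha)) -
        ((C : 𝕂) * vec D u ψ - vec D u (inv D a ha)) - (C : 𝕂) * (w ψ - vec D u ψ) +
        (C : 𝕂) * w ψ := by ring
    have hCn : ‖(C : 𝕂)‖ = C := by rw [RCLike.norm_ofReal, abs_of_pos (by linarith)]
    calc ‖w (inv D a ha)‖ = ‖(w (inv D a ha) - vec D u (inv D a ha)) -
        ((C : 𝕂) * vec D u ψ - vec D u (inv D a ha)) - (C : 𝕂) * (w ψ - vec D u ψ) +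
        (C : 𝕂) * w ψ‖ := by rw [← hfin]
      _ ≤ ‖w (inv D a ha) - vec D u (inv D a ha)‖ +
          ‖(C : 𝕂) * vec D u ψ - vec D u (inv D a ha)‖ + ‖(C : 𝕂) * (w ψ - vec D u ψ)‖ +
          ‖(C : 𝕂) * w ψ‖ := by
        refine (norm_add_le _ _).trans ?_
        gcongr
        refine (norm_sub_le _ _).trans ?_
        gcongr
        exact norm_sub_le _ _
      _ ≤ η₁ + η₁ + C * η₁ + (‖w‖ + 1) / 4 ^ h := by
        rw [norm_mul, norm_mul, hCn]
        gcongr
      _ = (‖w‖ + 1) / 4 ^ h + η' := by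
        have : (C + 2) * η₁ = η' := by rw [hη₁]; field_simp
        linarith
  by_contra hne
  have hpos : 0 < ‖w (inv D a ha)‖ := norm_pos_iff.2 hne
  obtain ⟨h, hh⟩ := exists_pow_lt_of_lt_one
    (show 0 < ‖w (inv D a ha)‖ / (‖w‖ + 1) by positivity) (by norm_num : (1 / 4 : ℝ) < 1)
  have h1 := key h
  have h2 : (‖w‖ + 1) / 4 ^ h = (‖w‖ + 1) * (1 / 4) ^ h := by
    rw [one_div, inv_pow]; rfl
  rw [h2] at h1
  rw [lt_div_iff₀ (by positivity)] at hh
  linarith

end Pool.Agent.H615R3.Free
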