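import Pool.Agent.H615R3.FreeCore

set_option autoImplicit false

namespace Pool.Agent.H615R3.Free

open Filter Topology Finset BoundedContinuousFunction Classical

variable {𝕂 : Type} [RCLike 𝕂] (D : Data 𝕂)

lemma pisum_eq (v : Gen →₀ 𝕂) : ∃ P Q : 𝕂, ∀ a : Bool → 𝕂, pisum v a = P * a false + Q * a true := by
  refine ⟨∑ i ∈ v.support, (if i.2 = false then v i else 0),
    ∑ i ∈ v.support, (if i.2 = true then v i else 0), fun a => ?_⟩
  unfold pisum
  rw [sum_mul, sum_mul, ← sum_add_distrib]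
  refine sum_congr rfl fun i _ => ?_
  rcases hi : i.2 with _ | _ <;> simp

lemma exists_perp (v : Gen →₀ 𝕂) : ∃ a : Bool → 𝕂, (∀ r, ‖a r‖ ≤ 1) ∧ (∃ r, ‖a r‖ = 1) ∧
    pisum v a = 0 := by
  obtain ⟨P, Q, hPQ⟩ := pisum_eq v
  by_cases hP : P = 0
  · by_cases hQ : Q = 0
    · refine ⟨fun _ => 1, by simp, ⟨true, by simp⟩, ?_⟩
      rw [hPQ, hP, hQ]; simp
    · refine ⟨fun r => if r = false then 1 else 0, ?_, ⟨false, by simp⟩, ?_⟩
      · intro r; rcases r with _ | _ <;> simp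
      · rw [hPQ, hP]; simp
  · by_cases hle : ‖P‖ ≤ ‖Q‖
    · have hQ : Q ≠ 0 := by
        intro h
        rw [h, norm_zero, norm_le_zero_iff] at hle
        exact hP hle
      refine ⟨fun r => if r = false then 1 else -(P / Q), ?_, ⟨false, by simp⟩, ?_⟩
      · intro r
        rcases r with _ | _
        · simp
        · simp only [Bool.true_eq_false, if_false, norm_neg, norm_div]
          exact div_le_one_of_le₀ hle (norm_nonneg _)
      · rw [hPQ]
        simp only [if_true, Bool.true_eq_false, if_false]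
        field_simp
        ring
    · push Not at hle
      refine ⟨fun r => if r = true then 1 else -(Q / P), ?_, ⟨true, by simp⟩, ?_⟩
      · intro r
        rcases r with _ | _
        · simp only [Bool.false_eq_true, if_false, norm_neg, norm_div]
          exact div_le_one_of_le₀ hle.le (norm_nonneg _)
        · simp
      · rw [hPQ]
        simp only [if_true, Bool.false_eq_true, if_false]
        field_simp
        ring

/-- hypotheses on the data for a family `Big` of large sets of return times -/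
structure Hyp (Big : Set ℕ → Prop) : Prop where
  mono : ∀ S S' : Set ℕ, S ⊆ S' → Big S → Big S'
  dense : ∀ (v : Gen →₀ 𝕂) (η : ℝ), 0 < η → ∃ k, ‖vec D v - vec D (D.x k)‖ < η
  cof : ∀ k t : ℕ, ∃ k', D.x k' = D.x k ∧ t ≤ D.Lam k' ∧ Big (D.A k')
  good : ∀ S, Big S → ∃ k, ∀ a : Bool → 𝕂, (∀ r, ‖a r‖ ≤ 1) → pisum (D.x k) a = 0 → Good D S a

variable {D}

lemma vec_slot (k : ℕ) (n : ℕ) (hn : n ∈ D.A k) :
    ‖(Tp D)^[n] (vec D (D.x k)) - vec D (D.x k)‖ ≤ 1 / 4 ^ D.Lam k := by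
  rw [BoundedContinuousFunction.norm_le (by positivity)]
  intro ϕ
  rw [BoundedContinuousFunction.sub_apply, Tp_iter_vec]
  have h1 : vec D (D.x k) ϕ = pr ϕ.f (D.x k) 0 := by
    have := Tp_iter_vec D 0 (D.x k) ϕ
    simpa using this
  rw [h1]
  have := ϕ.ret k n hn 0
  simpa using this

/-- the element of the space attached to a vector of the free module -/
noncomputable def vv (v : Gen →₀ 𝕂) : MM D := ⟨vec D v, vec_mem D v⟩

theorem Hyp.dense_rec {Big : Set ℕ → Prop} (h : Hyp D Big) :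
    Dense {x : MM D | ∀ U ∈ 𝓝 x, Big {n | (TT D)^[n] x ∈ U}} := by
  rw [Metric.dense_iff]
  intro u r hr
  have hu : (u : EE D) ∈ closure ((Submodule.span 𝕂 (Set.range (gen D)) :
      Submodule 𝕂 (EE D)) : Set (EE D)) := by
    rw [← Submodule.topologicalClosure_coe]; exact u.2
  obtain ⟨v, hv, hd⟩ := Metric.mem_closure_iff.1 hu (r / 2) (by positivity)
  obtain ⟨v, rfl⟩ := span_eq_vec D v hv
  obtain ⟨k, hk⟩ := h.dense v (r / 2) (by positivity)
  refine ⟨vv (D.x k), ?_, ?_⟩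
  · rw [Metric.mem_ball, dist_comm]
    show dist (u : EE D) (vec D (D.x k)) < r
    calc dist (u : EE D) (vec D (D.x k)) ≤ dist (u : EE D) (vec D v) +
          dist (vec D v) (vec D (D.x k)) := dist_triangle _ _ _
      _ < r / 2 + r / 2 := by
          rw [dist_eq_norm (vec D v)]
          exact add_lt_add hd hk
      _ = r := by ring
  · intro U hU
    obtain ⟨ε, hε, hball⟩ := Metric.mem_nhds_iff.1 hU
    obtain ⟨t, ht⟩ := exists_pow_lt_of_lt_one hε (by norm_num : (1 / 4 : ℝ) < 1)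
    obtain ⟨k', hk', ht', hB⟩ := h.cof k t
    refine h.mono _ _ ?_ hB
    intro n hn
    apply hball
    rw [Metric.mem_ball, dist_eq_norm]
    have h1 : ‖(TT D)^[n] (vv (D.x k)) - vv (D.x k)‖ =
        ‖(Tp D)^[n] (vec D (D.x k')) - vec D (D.x k')‖ := by
      rw [hk']
      show ‖(((TT D)^[n] (vv (D.x k)) : MM D) : EE D) - vec D (D.x k)‖ = _
      rw [TT_iter]
      rfl
    rw [h1]
    calc _ ≤ 1 / 4 ^ D.Lam k' := vec_slot k' n hn
      _ ≤ 1 / 4 ^ t := by
          apply one_div_le_one_div_of_le (by positivity)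
          exact pow_le_pow_right₀ (by norm_num) ht'
      _ = (1 / 4) ^ t := by rw [one_div, one_div, inv_pow]
      _ < ε := ht

lemma inv_gen_bound (a : Bool → 𝕂) (ha : ∀ r, ‖a r‖ ≤ 1) (r : Bool) (w : MM D)
    (hw : dist (vv (Finsupp.single ((0, r) : Gen) (1 : 𝕂))) w < 1 / 4)
    (h0 : (w : EE D) (inv D a ha) = 0) : ‖a r‖ < 1 / 4 := by
  have h1 : (vec D (Finsupp.single ((0, r) : Gen) (1 : 𝕂))) (inv D a ha) = a r := by
    rw [vec_apply]
    rw [Finsupp.support_single_ne_zero _ (one_ne_zero)]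
    simp [inv]
  have h2 : ‖(vec D (Finsupp.single ((0, r) : Gen) (1 : 𝕂)) - (w : EE D)) (inv D a ha)‖ ≤
      ‖vec D (Finsupp.single ((0, r) : Gen) (1 : 𝕂)) - (w : EE D)‖ :=
    BoundedContinuousFunction.norm_coe_le_norm _ _
  rw [BoundedContinuousFunction.sub_apply, h1, h0, sub_zero] at h2
  refine h2.trans_lt ?_
  rw [dist_eq_norm] at hw
  exact hw

lemma ball_set (S : Set ℕ) (w : MM D) (hS : ∀ n ∈ S, (TT D)^[n] w ∈ Metric.ball w 1) :
    ∀ n ∈ S, ‖(Tp D)^[n] (w : EE D) - (w : EE D)‖ ≤ 1 := by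
  intro n hn
  have h1 := hS n hn
  rw [Metric.mem_ball, dist_eq_norm] at h1
  have h2 : ‖(TT D)^[n] w - w‖ = ‖(Tp D)^[n] (w : EE D) - (w : EE D)‖ := by
    rw [← TT_iter]; rfl
  rw [← h2]
  exact h1.le

theorem Hyp.not_lineable {Big : Set ℕ → Prop} (h : Hyp D Big) (M : Submodule 𝕂 (MM D))
    (hM : Dense (M : Set (MM D)))
    (hrec : ∀ x ∈ M, ∀ U ∈ 𝓝 x, Big {n | (TT D)^[n] x ∈ U}) : False := by
  obtain ⟨w0, hw0, hd0⟩ := hM.exists_dist_lt
    (vv (Finsupp.single ((0, false) : Gen) (1 : 𝕂))) (show (0 : ℝ) < 1 / 4 by norm_num)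
  obtain ⟨w1, hw1, hd1⟩ := hM.exists_dist_lt
    (vv (Finsupp.single ((0, true) : Gen) (1 : 𝕂))) (show (0 : ℝ) < 1 / 4 by norm_num)
  choose pa hpa1 hpa2 hpa3 using fun k => exists_perp (D.x k)
  have hex : ∀ t : ℝ, ∃ k, ((w0 + (t : 𝕂) • w1 : MM D) : EE D) (inv D (pa k) (hpa1 k)) = 0 := by
    intro t
    have hmem : w0 + (t : 𝕂) • w1 ∈ M := M.add_mem hw0 (M.smul_mem _ hw1)
    obtain ⟨k, hk⟩ := h.good _ (hrec _ hmem _ (Metric.ball_mem_nhds _ one_pos))
    refine ⟨k, ?_⟩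
    exact good_zero _ (pa k) (hpa1 k) (hk (pa k) (hpa1 k) (hpa3 k)) _
      (w0 + (t : 𝕂) • w1 : MM D).2 (ball_set _ _ (fun n hn => hn))
  choose K hK using hex
  have hninj : ¬ Function.Injective K := by
    intro hinj
    have : Countable ℝ := hinj.countable
    exact Cardinal.not_countable_real (Set.countable_univ_iff.2 this)
  simp only [Function.Injective, not_forall] at hninj
  obtain ⟨t, t', hKt, hne⟩ := hninj
  have h1 := hK t
  have h2 := hK t'
  rw [← hKt] at h2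
  set k := K t
  have e1 : ((w0 + (t : 𝕂) • w1 : MM D) : EE D) (inv D (pa k) (hpa1 k)) =
      (w0 : EE D) (inv D (pa k) (hpa1 k)) + (t : 𝕂) * (w1 : EE D) (inv D (pa k) (hpa1 k)) := rfl
  have e2 : ((w0 + (t' : 𝕂) • w1 : MM D) : EE D) (inv D (pa k) (hpa1 k)) =
      (w0 : EE D) (inv D (pa k) (hpa1 k)) + (t' : 𝕂) * (w1 : EE D) (inv D (pa k) (hpa1 k)) := rfl
  rw [e1] at h1
  rw [e2] at h2
  have e3 : ((t : 𝕂) - (t' : 𝕂)) * (w1 : EE D) (inv D (pa k) (hpa1 k)) = 0 := by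
    linear_combination h1 - h2
  have hne' : (t : 𝕂) - (t' : 𝕂) ≠ 0 := by
    rw [sub_ne_zero]
    intro hc
    exact hne (RCLike.ofReal_injective hc)
  have z1 : (w1 : EE D) (inv D (pa k) (hpa1 k)) = 0 := by
    rcases mul_eq_zero.1 e3 with h3 | h3
    · exact absurd h3 hne'
    · exact h3
  have z0 : (w0 : EE D) (inv D (pa k) (hpa1 k)) = 0 := by
    rw [z1, mul_zero, add_zero] at h1; exact h1
  have b0 := inv_gen_bound (pa k) (hpa1 k) false w0 hd0 z0
  have b1 := inv_gen_bound (pa k) (hpa1 k) true w1 hd1 z1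
  obtain ⟨r, hr⟩ := hpa2 k
  rcases r with _ | _ <;> linarith

theorem Hyp.sum_not_dense {Big : Set ℕ → Prop} (h : Hyp D Big) :
    ¬ Dense {x : MM D × MM D | ∀ U ∈ 𝓝 x, Big {n | ((TT D).prodMap (TT D))^[n] x ∈ U}} := by
  intro hdense
  obtain ⟨⟨w0, w1⟩, hw, hd⟩ := hdense.exists_dist_lt
    ((vv (Finsupp.single ((0, false) : Gen) (1 : 𝕂)),
      vv (Finsupp.single ((0, true) : Gen) (1 : 𝕂))) : MM D × MM D)
      (show (0 : ℝ) < 1 / 4 by norm_num)
  rw [Prod.dist_eq] at hd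
  simp only at hd
  have hd0 := (le_max_left _ _).trans_lt hd
  have hd1 := (le_max_right _ _).trans_lt hd
  have hB := hw _ (Metric.ball_mem_nhds _ one_pos)
  obtain ⟨k, hk⟩ := h.good _ hB
  obtain ⟨a, ha, ⟨r, hr⟩, hperp⟩ := exists_perp (D.x k)
  have hG := hk a ha hperp
  have hit : ∀ n (x : MM D × MM D), ((TT D).prodMap (TT D))^[n] x =
      ((TT D)^[n] x.1, (TT D)^[n] x.2) := by
    intro n x
    induction n with
    | zero => rfl
    | succ n ih => rw [Function.iterate_succ_apply', ih, Function.iterate_succ_apply',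
        Function.iterate_succ_apply']; rfl
  have hmem : ∀ n, ((TT D).prodMap (TT D))^[n] (w0, w1) ∈ Metric.ball (w0, w1) 1 →
      (TT D)^[n] w0 ∈ Metric.ball w0 1 ∧ (TT D)^[n] w1 ∈ Metric.ball w1 1 := by
    intro n hn
    rw [hit, ← ball_prod_same] at hn
    exact hn
  have z0 := good_zero _ a ha hG _ w0.2 (ball_set _ _ (fun n hn => (hmem n hn).1))
  have z1 := good_zero _ a ha hG _ w1.2 (ball_set _ _ (fun n hn => (hmem n hn).2))
  have b0 := inv_gen_bound a ha false w0 hd0 z0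
  have b1 := inv_gen_bound a ha true w1 hd1 z1
  rcases r with _ | _ <;> linarith

end Pool.Agent.H615R3.Free
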