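import Mathlib

set_option autoImplicit false

namespace Pool.Agent.H615R3.MonGerm

open Finset

/-- monomial function -/
noncomputable def mo {n : ℕ} (e : Fin n → ℕ) (z : Fin n → ℂ) : ℂ := ∏ j, z j ^ e j

/-- monomial map -/
noncomputable def mm {n : ℕ} (A : Matrix (Fin n) (Fin n) ℕ) (z : Fin n → ℂ) : Fin n → ℂ :=
  fun i => mo (A i) z

lemma mo_contDiff {n : ℕ} (e : Fin n → ℕ) {k : WithTop ℕ∞} : ContDiff ℂ k (mo e) := by
  unfold mo
  apply contDiff_prod
  intro j _
  exact (contDiff_apply ℂ ℂ j).pow _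

lemma mm_contDiff {n : ℕ} (A : Matrix (Fin n) (Fin n) ℕ) {k : WithTop ℕ∞} :
    ContDiff ℂ k (mm A) := by
  apply contDiff_pi.2
  intro i
  exact mo_contDiff _

lemma mm_comp {n : ℕ} (A B : Matrix (Fin n) (Fin n) ℕ) : mm A ∘ mm B = mm (A * B) := by
  funext z i
  simp only [Function.comp, mm, mo, Matrix.mul_apply]
  have : ∀ j, (∏ l, z l ^ B j l) ^ A i j = ∏ l, z l ^ (A i j * B j l) := by
    intro j
    rw [← Finset.prod_pow]
    refine Finset.prod_congr rfl fun l _ => ?_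
    rw [← pow_mul, mul_comm]
  simp only [this]
  rw [Finset.prod_comm]
  refine Finset.prod_congr rfl fun l _ => ?_
  rw [Finset.prod_pow_eq_pow_sum]

lemma mm_one {n : ℕ} : mm (1 : Matrix (Fin n) (Fin n) ℕ) = id := by
  funext z i
  simp only [mm, mo, id]
  rw [Finset.prod_eq_single i]
  · simp
  · intro j _ hj
    simp [Matrix.one_apply_ne hj.symm]
  · simp

lemma mm_iterate {n : ℕ} (A : Matrix (Fin n) (Fin n) ℕ) (k : ℕ) : (mm A)^[k] = mm (A ^ k) := by
  induction k with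
  | zero => simp [mm_one]
  | succ k ih => rw [Function.iterate_succ, ih, mm_comp, pow_succ]

lemma mo_smul {n : ℕ} (e : Fin n → ℕ) (t : ℂ) (z : Fin n → ℂ) :
    mo e (t • z) = t ^ (∑ j, e j) * mo e z := by
  simp only [mo, Pi.smul_apply, smul_eq_mul, mul_pow, Finset.prod_mul_distrib]
  rw [Finset.prod_pow_eq_pow_sum]

lemma iter_mo_eq_zero {n : ℕ} (e : Fin n → ℕ) (m : ℕ) (hm : m ≠ ∑ j, e j) :
    iteratedFDeriv ℂ m (mo e) 0 = 0 := by
  set D := ∑ j, e j with hD
  have h1 : (mo e) ∘ ((2 : ℂ) • (ContinuousLinearMap.id ℂ (Fin n → ℂ))) =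
      fun z => (2 : ℂ) ^ D • mo e z := by
    funext z
    simp only [Function.comp, ContinuousLinearMap.smul_apply, ContinuousLinearMap.id_apply]
    rw [mo_smul]; rfl
  have h2 := ContinuousLinearMap.iteratedFDeriv_comp_right
    ((2 : ℂ) • (ContinuousLinearMap.id ℂ (Fin n → ℂ))) (mo_contDiff e (k := (m : WithTop ℕ∞)))
    (0 : Fin n → ℂ) (i := m) le_rfl
  rw [h1] at h2
  have h3 : iteratedFDeriv ℂ m (fun z => (2 : ℂ) ^ D • mo e z) 0 =
      (2 : ℂ) ^ D • iteratedFDeriv ℂ m (mo e) 0 := by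
    exact iteratedFDeriv_const_smul_apply' (mo_contDiff e).contDiffAt
  rw [h3] at h2
  ext v
  have h4 := congrArg (fun M => M v) h2
  simp only [ContinuousMultilinearMap.smul_apply, map_zero,
    ContinuousMultilinearMap.compContinuousLinearMap_apply, ContinuousLinearMap.smul_apply,
    ContinuousLinearMap.id_apply, ContinuousMultilinearMap.map_smul_univ, Finset.prod_const,
    Finset.card_univ, Fintype.card_fin, smul_eq_mul] at h4
  have h5 : ((2 : ℂ) ^ D - 2 ^ m) * (iteratedFDeriv ℂ m (mo e) 0 v) = 0 := by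
    rw [sub_mul, h4, sub_self]
  rcases mul_eq_zero.1 h5 with h | h
  · exfalso
    have h6 : (2 : ℂ) ^ D = 2 ^ m := sub_eq_zero.1 h
    have h7 : (2 : ℕ) ^ D = 2 ^ m := by exact_mod_cast h6
    exact hm ((Nat.pow_right_injective (le_refl 2)) h7).symm
  · simpa using h

lemma iter_mo_ne_zero {n : ℕ} (e : Fin n → ℕ) :
    iteratedFDeriv ℂ (∑ j, e j) (mo e) 0 ≠ 0 := by
  set D := ∑ j, e j with hD
  intro h0
  set L : ℂ →L[ℂ] (Fin n → ℂ) := ContinuousLinearMap.pi fun _ => ContinuousLinearMap.id ℂ ℂ with hL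
  have h1 : (mo e) ∘ L = fun t : ℂ => t ^ D := by
    funext t
    simp only [Function.comp, mo, hL, ContinuousLinearMap.coe_pi', ContinuousLinearMap.id_apply]
    rw [Finset.prod_pow_eq_pow_sum]
  have h2 := ContinuousLinearMap.iteratedFDeriv_comp_right L
    (mo_contDiff e (k := (D : WithTop ℕ∞))) (0 : ℂ) (i := D) le_rfl
  rw [h1, map_zero, h0] at h2
  have h3 : iteratedDeriv D (fun t : ℂ => t ^ D) 0 = 0 := by
    rw [iteratedDeriv_eq_iteratedFDeriv, h2]
    simp
  rw [iteratedDeriv_fun_pow_zero] at h3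
  simp at h3
  exact absurd h3 (Nat.factorial_ne_zero D)

lemma iter_mm_iff {n : ℕ} (A : Matrix (Fin n) (Fin n) ℕ) (m : ℕ) :
    iteratedFDeriv ℂ m (mm A) 0 ≠ 0 ↔ ∃ i, m = ∑ j, A i j := by
  have key : ∀ i, iteratedFDeriv ℂ m (mo (A i)) 0 =
      (ContinuousLinearMap.proj (R := ℂ) (φ := fun _ : Fin n => ℂ) i).compContinuousMultilinearMap
        (iteratedFDeriv ℂ m (mm A) 0) := by
    intro i
    have := ContinuousLinearMap.iteratedFDeriv_comp_left
      (ContinuousLinearMap.proj (R := ℂ) (φ := fun _ : Fin n => ℂ) i)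
      (mm_contDiff A (k := (m : WithTop ℕ∞))).contDiffAt (x := (0 : Fin n → ℂ)) (i := m) le_rfl
    rw [← this]
    rfl
  constructor
  · intro h
    by_contra hcon
    push Not at hcon
    apply h
    ext v i
    have h1 := iter_mo_eq_zero (A i) m (hcon i)
    rw [key i] at h1
    have h2 := congrArg (fun M => M v) h1
    simpa using h2
  · rintro ⟨i, hi⟩ h0
    have h1 := key i
    rw [h0] at h1
    rw [hi] at h1
    apply iter_mo_ne_zero (A i)
    rw [h1]
    ext v
    simp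

end Pool.Agent.H615R3.MonGerm
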