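import Mathlib

set_option autoImplicit false

namespace Pool.Agent.H615R3.MonGerm

/-- no positive solutions of an oscillating two-term recursion -/
lemma no_pos (h : ℕ → ℝ) (t N : ℝ) (hN : t ^ 2 < 4 * N) (hpos : ∀ j, 0 < h j)
    (hrec : ∀ j, h (j + 2) = t * h (j + 1) - N * h j) : False := by
  set r : ℕ → ℝ := fun j => h (j + 1) / h j with hr
  have rpos : ∀ j, 0 < r j := fun j => div_pos (hpos _) (hpos _)
  set κ : ℝ := N - t ^ 2 / 4 with hκ
  have κpos : 0 < κ := by rw [hκ]; linarith
  have step : ∀ j, r (j + 1) = t - N / r j := by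
    intro j
    simp only [hr]
    have h1 := hpos j
    have h2 := hpos (j + 1)
    rw [hrec j]
    field_simp
  have dec : ∀ j, r (j + 1) ≤ r j - κ / r j := by
    intro j
    rw [step j]
    have hj := rpos j
    rw [← sub_nonneg]
    have : r j - κ / r j - (t - N / r j) = (r j - t / 2) ^ 2 / r j := by
      rw [hκ]
      field_simp
      ring
    rw [this]
    positivity
  have le0 : ∀ j, r j ≤ r 0 := by
    intro j
    induction j with
    | zero => exact le_rfl
    | succ j ih =>
      have := dec j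
      have h2 : 0 < κ / r j := div_pos κpos (rpos j)
      linarith
  have lin : ∀ j : ℕ, r j ≤ r 0 - j * (κ / r 0) := by
    intro j
    induction j with
    | zero => simp
    | succ j ih =>
      have h1 := dec j
      have h2 : κ / r 0 ≤ κ / r j := div_le_div_of_nonneg_left κpos.le (rpos j) (le0 j)
      push_cast
      linarith
  obtain ⟨n, hn⟩ := exists_nat_gt (r 0 / (κ / r 0))
  have hpos' : 0 < κ / r 0 := div_pos κpos (rpos 0)
  rw [div_lt_iff₀ hpos'] at hn
  have := lin n
  have := rpos n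
  linarith

/-- the Gaussian integer powers `(1+2i)^k = X k + i Y k` -/
def XY : ℕ → ℤ × ℤ
  | 0 => (1, 0)
  | k + 1 => ((XY k).1 - 2 * (XY k).2, 2 * (XY k).1 + (XY k).2)

lemma XY_add (a b : ℕ) :
    (XY (a + b)).1 = (XY a).1 * (XY b).1 - (XY a).2 * (XY b).2 ∧
    (XY (a + b)).2 = (XY a).1 * (XY b).2 + (XY a).2 * (XY b).1 := by
  induction b with
  | zero => simp [XY]
  | succ b ih =>
    obtain ⟨h1, h2⟩ := ih
    have : XY (a + (b + 1)) = ((XY (a + b)).1 - 2 * (XY (a + b)).2,
      2 * (XY (a + b)).1 + (XY (a + b)).2) := rfl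
    rw [this]
    have h3 : XY (b + 1) = ((XY b).1 - 2 * (XY b).2, 2 * (XY b).1 + (XY b).2) := rfl
    rw [h3]
    constructor
    · simp only [h1, h2]; ring
    · simp only [h1, h2]; ring

lemma XY_norm (m : ℕ) : (XY m).1 ^ 2 + (XY m).2 ^ 2 = 5 ^ m := by
  induction m with
  | zero => simp [XY]
  | succ m ih =>
    have h3 : XY (m + 1) = ((XY m).1 - 2 * (XY m).2, 2 * (XY m).1 + (XY m).2) := rfl
    rw [h3, pow_succ 5 m, ← ih]
    ring

lemma XY_rec (k m : ℕ) : (XY (k + m + m)).2 =
    2 * (XY m).1 * (XY (k + m)).2 - 5 ^ m * (XY k).2 := by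
  have h1 := (XY_add (k + m) m).2
  have h2 := (XY_add k m)
  rw [h1, h2.1, h2.2, ← XY_norm m]
  ring

/-- main number-theoretic statement -/
theorem no_recursion (D : ℕ → Fin 5 → ℕ) (hD0 : ∀ i, D 0 i = 1)
    (h0 : ∀ k, D (k + 1) 0 = D k 0 + 2 * D k 3)
    (h1 : ∀ k, D (k + 1) 1 = D k 1 + 2 * D k 2 + D k 4)
    (h2 : ∀ k, D (k + 1) 2 = 2 * D k 0 + D k 2 + 5 * D k 4)
    (h3 : ∀ k, D (k + 1) 3 = 2 * D k 1 + D k 3 + 8 * D k 4)
    (h4 : ∀ k, D (k + 1) 4 = 7 * D k 4)
    (c : ℕ → ℕ) (hc : ∀ k, c k = min (D k 0) (D k 1))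
    (d : ℕ) (a : Fin d → ℤ) (K : ℕ)
    (H : ∀ k, K ≤ k → (c (k + d) : ℤ) = ∑ i : Fin d, a i * (c (k + (i : ℕ)) : ℤ)) : False := by
  -- relation with Gaussian integers
  have hw : ∀ k, (D k 4 : ℤ) = 7 ^ k := by
    intro k
    induction k with
    | zero => simp [hD0]
    | succ k ih => rw [h4, pow_succ]; push_cast; rw [ih]; ring
  have hG : ∀ k, 2 * ((D k 1 : ℤ) - D k 0) = (XY k).2 ∧
      2 * ((D k 3 : ℤ) - D k 2) = 7 ^ k - (XY k).1 := by
    intro k
    induction k with
    | zero => simp [hD0, XY]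
    | succ k ih =>
      obtain ⟨e1, e2⟩ := ih
      have h5 : XY (k + 1) = ((XY k).1 - 2 * (XY k).2, 2 * (XY k).1 + (XY k).2) := rfl
      have hwk := hw k
      rw [h0, h1, h2, h3, h5]
      push_cast
      constructor
      · rw [← e1]
        have : (XY k).1 = 7 ^ k - 2 * ((D k 3 : ℤ) - D k 2) := by linarith
        rw [this, ← hwk]
        ring
      · rw [← e1]
        have : (XY k).1 = 7 ^ k - 2 * ((D k 3 : ℤ) - D k 2) := by linarith
        rw [this, pow_succ, ← hwk]
        ring
  set y : ℕ → ℤ := fun k => (D k 1 : ℤ) - D k 0 with hy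
  have hyXY : ∀ k, 2 * y k = (XY k).2 := fun k => (hG k).1
  -- y mod 5
  have hyrec : ∀ k, y (k + 2) = 2 * y (k + 1) - 5 * y k := by
    intro k
    have e0 := hyXY k
    have e1 := hyXY (k + 1)
    have e2 := hyXY (k + 2)
    have h5 : XY (k + 1) = ((XY k).1 - 2 * (XY k).2, 2 * (XY k).1 + (XY k).2) := rfl
    have h6 : XY (k + 2) = ((XY (k+1)).1 - 2 * (XY (k+1)).2, 2 * (XY (k+1)).1 + (XY (k+1)).2) := rfl
    rw [h6] at e2
    rw [h5] at e2 e1
    simp only at e1 e2
    linarith
  have hy1 : y 1 = 1 := by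
    simp only [hy]
    rw [show (1 : ℕ) = 0 + 1 from rfl, h1, h0]
    simp [hD0]
  have hymod : ∀ k, ¬ (5 : ℤ) ∣ y (k + 1) := by
    intro k
    induction k with
    | zero => rw [hy1]; decide
    | succ k ih =>
      intro hdvd
      apply ih
      have e := hyrec k
      have : (5 : ℤ) ∣ 2 * y (k + 1) := by
        have e2 : 2 * y (k + 1) = y (k + 2) + 5 * y k := by linarith
        rw [e2]
        exact dvd_add hdvd (dvd_mul_right _ _)
      exact (Int.isCoprime_iff_gcd_eq_one.2 (by decide)).dvd_of_dvd_mul_left this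
  -- pigeonhole
  let S : ℕ → (Fin d → ZMod 5) × (Fin 5 → ZMod 5) :=
    fun k => (fun i => (c (k + (i : ℕ)) : ZMod 5), fun i => (D k i : ZMod 5))
  have hcd : ∀ k k', K ≤ k → K ≤ k' → S k = S k' →
      ((c (k + d) : ℕ) : ZMod 5) = ((c (k' + d) : ℕ) : ZMod 5) := by
    intro k k' hk hk' hS
    have e1 := congrArg (fun z : ℤ => (z : ZMod 5)) (H k hk)
    have e2 := congrArg (fun z : ℤ => (z : ZMod 5)) (H k' hk')
    simp only [Int.cast_natCast, Int.cast_sum, Int.cast_mul] at e1 e2
    rw [e1, e2]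
    refine Finset.sum_congr rfl fun i _ => ?_
    have := congrFun (congrArg Prod.fst hS) i
    simp only [S] at this
    rw [this]
  have hSD : ∀ k k', S k = S k' → ∀ i, (D k i : ZMod 5) = (D k' i : ZMod 5) := by
    intro k k' hS i
    exact congrFun (congrArg Prod.snd hS) i
  have hstep : ∀ k k', K ≤ k → K ≤ k' → S k = S k' → S (k + 1) = S (k' + 1) := by
    intro k k' hk hk' hS
    apply Prod.ext
    · funext i
      simp only [S]
      by_cases hi : (i : ℕ) + 1 < d
      · have := congrFun (congrArg Prod.fst hS) ⟨i + 1, hi⟩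
        simp only [S] at this
        rw [show k + 1 + (i : ℕ) = k + (i + 1) by ring, show k' + 1 + (i : ℕ) = k' + (i + 1) by ring]
        exact this
      · have hid : (i : ℕ) + 1 = d := by have := i.2; omega
        rw [show k + 1 + (i : ℕ) = k + d by omega, show k' + 1 + (i : ℕ) = k' + d by omega]
        exact hcd k k' hk hk' hS
    · funext i
      have e := hSD k k' hS
      simp only [S]
      fin_cases i
      · simp only [Fin.zero_eta]; rw [h0, h0]; push_cast; rw [e 0, e 3]
      · simp only [Fin.mk_one]; rw [h1, h1]; push_cast; rw [e 1, e 2, e 4]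
      · show ((D (k+1) 2 : ℕ) : ZMod 5) = ((D (k'+1) 2 : ℕ) : ZMod 5)
        rw [h2, h2]; push_cast; rw [e 0, e 2, e 4]
      · show ((D (k+1) 3 : ℕ) : ZMod 5) = ((D (k'+1) 3 : ℕ) : ZMod 5)
        rw [h3, h3]; push_cast; rw [e 1, e 3, e 4]
      · show ((D (k+1) 4 : ℕ) : ZMod 5) = ((D (k'+1) 4 : ℕ) : ZMod 5)
        rw [h4, h4]; push_cast; rw [e 4]
  obtain ⟨n1, n2, hne, hS⟩ := Finite.exists_ne_map_eq_of_infinite (fun n : ℕ => S (K + n))
  wlog hlt : n1 < n2 generalizing n1 n2
  · exact this n2 n1 hne.symm hS.symm (by omega)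
  have hall : ∀ j, S (K + n1 + j) = S (K + n2 + j) := by
    intro j
    induction j with
    | zero => exact hS
    | succ j ih => exact hstep (K + n1 + j) (K + n2 + j) (by omega) (by omega) ih
  set m := n2 - n1 with hm
  have hmpos : 0 < m := by omega
  set N0 := K + n1 + d + 1 with hN0
  have hper : ∀ k, N0 ≤ k → ((c (k + m) : ℕ) : ZMod 5) = ((c k : ℕ) : ZMod 5) ∧
      (D (k + m) 0 : ZMod 5) = (D k 0 : ZMod 5) ∧ (D (k + m) 1 : ZMod 5) = (D k 1 : ZMod 5) := by
    intro k hk
    refine ⟨?_, ?_, ?_⟩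
    · have := hcd _ _ (by omega) (by omega) (hall (k - d - K - n1))
      rw [show K + n1 + (k - d - K - n1) + d = k by omega,
        show K + n2 + (k - d - K - n1) + d = k + m by omega] at this
      exact this.symm
    · have := hSD _ _ (hall (k - K - n1)) 0
      rw [show K + n1 + (k - K - n1) = k by omega,
        show K + n2 + (k - K - n1) = k + m by omega] at this
      exact this.symm
    · have := hSD _ _ (hall (k - K - n1)) 1
      rw [show K + n1 + (k - K - n1) = k by omega,
        show K + n2 + (k - K - n1) = k + m by omega] at this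
      exact this.symm
  have hne5 : ∀ k, 1 ≤ k → ((D k 0 : ℕ) : ZMod 5) ≠ ((D k 1 : ℕ) : ZMod 5) := by
    intro k hk heq
    obtain ⟨k, rfl⟩ : ∃ k', k = k' + 1 := ⟨k - 1, by omega⟩
    apply hymod k
    have : ((y (k + 1) : ℤ) : ZMod 5) = 0 := by
      simp only [hy]
      push_cast
      rw [heq, sub_self]
    exact (ZMod.intCast_zmod_eq_zero_iff_dvd _ 5).1 this
  have hsign : ∀ k, N0 ≤ k → (0 < y k ↔ 0 < y (k + m)) := by
    intro k hk
    obtain ⟨e1, e2, e3⟩ := hper k hk
    constructor
    · intro hpos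
      by_contra hcon
      have a1 : c k = D k 0 := by
        rw [hc]; apply min_eq_left; simp only [hy] at hpos; omega
      have a2 : c (k + m) = D (k + m) 1 := by
        rw [hc]; apply min_eq_right; simp only [hy] at hcon; omega
      rw [a1, a2] at e1
      exact hne5 (k + m) (by omega) (by rw [e2, e1])
    · intro hpos
      by_contra hcon
      have a1 : c k = D k 1 := by
        rw [hc]; apply min_eq_right; simp only [hy] at hcon; omega
      have a2 : c (k + m) = D (k + m) 0 := by
        rw [hc]; apply min_eq_left; simp only [hy] at hpos; omega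
      rw [a1, a2] at e1
      exact hne5 (k + m) (by omega) (by rw [e1, e3])
  have hyne : ∀ k, 1 ≤ k → y k ≠ 0 := by
    intro k hk h
    obtain ⟨k, rfl⟩ : ∃ k', k = k' + 1 := ⟨k - 1, by omega⟩
    exact hymod k (by rw [h]; exact dvd_zero _)
  have hXm : (2 * ((XY m).1 : ℝ)) ^ 2 < 4 * (5 : ℝ) ^ m := by
    have e1 := XY_norm m
    have e2 : (XY m).2 ≠ 0 := by
      rw [← hyXY]
      have := hyne m hmpos
      omega
    have e3 : 0 < (XY m).2 ^ 2 := by positivity
    have e4 : (2 * (XY m).1) ^ 2 < 4 * 5 ^ m := by rw [← e1]; nlinarith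
    exact_mod_cast e4
  have hyrec2 : ∀ j, (y (N0 + m * (j + 2)) : ℤ) =
      2 * (XY m).1 * y (N0 + m * (j + 1)) - 5 ^ m * y (N0 + m * j) := by
    intro j
    have e := XY_rec (N0 + m * j) m
    rw [show N0 + m * j + m + m = N0 + m * (j + 2) by ring,
      show N0 + m * j + m = N0 + m * (j + 1) by ring, ← hyXY, ← hyXY, ← hyXY] at e
    linarith
  rcases lt_or_gt_of_ne (hyne N0 (by omega)) with hneg | hpos
  · have hall2 : ∀ j, y (N0 + m * j) < 0 := by
      intro j
      induction j with
      | zero => simpa using hneg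
      | succ j ih =>
        have e := hsign (N0 + m * j) (by omega)
        rw [show N0 + m * (j + 1) = N0 + m * j + m by ring]
        have e2 := hyne (N0 + m * j + m) (by omega)
        by_contra hcon
        have : 0 < y (N0 + m * j + m) := by omega
        have := e.2 this
        omega
    refine no_pos (fun j => -(y (N0 + m * j) : ℝ)) (2 * ((XY m).1 : ℝ)) ((5 : ℝ) ^ m) hXm ?_ ?_
    · intro j
      have := hall2 j
      have h' : ((y (N0 + m * j) : ℤ) : ℝ) < 0 := by exact_mod_cast this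
      linarith
    · intro j
      have e := hyrec2 j
      have e' : ((y (N0 + m * (j + 2)) : ℤ) : ℝ) =
        2 * ((XY m).1 : ℝ) * (y (N0 + m * (j + 1)) : ℝ) - 5 ^ m * (y (N0 + m * j) : ℝ) := by
        exact_mod_cast e
      rw [e']
      ring
  · have hall2 : ∀ j, 0 < y (N0 + m * j) := by
      intro j
      induction j with
      | zero => simpa using hpos
      | succ j ih =>
        have e := hsign (N0 + m * j) (by omega)
        rw [show N0 + m * (j + 1) = N0 + m * j + m by ring]
        exact e.1 ih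
    refine no_pos (fun j => (y (N0 + m * j) : ℝ)) (2 * ((XY m).1 : ℝ)) ((5 : ℝ) ^ m) hXm ?_ ?_
    · intro j
      have := hall2 j
      exact_mod_cast this
    · intro j
      have e := hyrec2 j
      exact_mod_cast e

end Pool.Agent.H615R3.MonGerm
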