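import Mathlib

set_option autoImplicit false

namespace Pool.Agent.H615R3

open Filter Topology Set

/-- Return set `N(x,U) = {n ≥ 1 : T^n x ∈ U}`. -/
def retSet {X : Type*} (T : X → X) (x : X) (U : Set X) : Set ℕ := {n | 1 ≤ n ∧ T^[n] x ∈ U}

/-- `A ⊆ ℕ` is syndetic: bounded gaps. -/
def Syndetic (A : Set ℕ) : Prop := ∃ m : ℕ, ∀ n : ℕ, ∃ k ∈ A, n ≤ k ∧ k ≤ n + m

/-- Lower density `liminf_N |A ∩ [1,N]| / N`. -/
noncomputable def lowerDensity (A : Set ℕ) : ℝ :=
  liminf (fun N : ℕ => ((A ∩ Icc 1 N).ncard : ℝ) / N) atTop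

/-- Upper density `limsup_N |A ∩ [1,N]| / N`. -/
noncomputable def upperDensity (A : Set ℕ) : ℝ :=
  limsup (fun N : ℕ => ((A ∩ Icc 1 N).ncard : ℝ) / N) atTop

/-- Upper Banach density `lim_N sup_{m ≥ 0} |A ∩ [m+1,m+N]| / N` (written as a limsup). -/
noncomputable def upperBanachDensity (A : Set ℕ) : ℝ :=
  limsup (fun N : ℕ => ⨆ m : ℕ, ((A ∩ Icc (m + 1) (m + N)).ncard : ℝ) / N) atTop

/-- `x` is uniformly recurrent: all return sets are syndetic. -/
def IsURec {X : Type*} [TopologicalSpace X] (T : X → X) (x : X) : Prop :=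
  ∀ U ∈ 𝓝 x, Syndetic (retSet T x U)

/-- `x` is reiteratively recurrent: all return sets have positive upper Banach density. -/
def IsRRec {X : Type*} [TopologicalSpace X] (T : X → X) (x : X) : Prop :=
  ∀ U ∈ 𝓝 x, 0 < upperBanachDensity (retSet T x U)

/-- `x` is `𝒰`-frequently recurrent: all return sets have positive upper density. -/
def IsUFRec {X : Type*} [TopologicalSpace X] (T : X → X) (x : X) : Prop :=
  ∀ U ∈ 𝓝 x, 0 < upperDensity (retSet T x U)

/-- `x` is frequently recurrent: all return sets have positive lower density. -/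
def IsFRec {X : Type*} [TopologicalSpace X] (T : X → X) (x : X) : Prop :=
  ∀ U ∈ 𝓝 x, 0 < lowerDensity (retSet T x U)

lemma ncard_Icc_le (A : Set ℕ) (m N : ℕ) : (A ∩ Icc (m + 1) (m + N)).ncard ≤ N := by
  calc (A ∩ Icc (m + 1) (m + N)).ncard ≤ (Icc (m + 1) (m + N)).ncard :=
        Set.ncard_le_ncard inter_subset_right (finite_Icc _ _)
    _ = N := by rw [← Finset.coe_Icc, Set.ncard_coe_finset, Nat.card_Icc]; omega

lemma ratio_le_one (A : Set ℕ) (m N : ℕ) : ((A ∩ Icc (m + 1) (m + N)).ncard : ℝ) / N ≤ 1 := by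
  rcases Nat.eq_zero_or_pos N with h | h
  · simp [h]
  · rw [div_le_one (by exact_mod_cast h)]
    exact_mod_cast ncard_Icc_le A m N

lemma ubd_bdd (A : Set ℕ) (N : ℕ) :
    BddAbove (range fun m : ℕ => ((A ∩ Icc (m + 1) (m + N)).ncard : ℝ) / N) :=
  ⟨1, by rintro _ ⟨m, rfl⟩; exact ratio_le_one A m N⟩

lemma ubd_pos_iff (A : Set ℕ) : 0 < upperBanachDensity A ↔
    ∃ δ : ℝ, 0 < δ ∧ ∀ L : ℕ, ∃ N m : ℕ, L ≤ N ∧ 1 ≤ N ∧
      δ * N ≤ ((A ∩ Icc (m + 1) (m + N)).ncard : ℝ) := by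
  have hle : ∀ N : ℕ, (⨆ m : ℕ, ((A ∩ Icc (m + 1) (m + N)).ncard : ℝ) / N) ≤ 1 :=
    fun N => ciSup_le fun m => ratio_le_one A m N
  have hge : ∀ N : ℕ, 0 ≤ (⨆ m : ℕ, ((A ∩ Icc (m + 1) (m + N)).ncard : ℝ) / N) :=
    fun N => Real.iSup_nonneg fun m => by positivity
  have hb1 : IsBoundedUnder (· ≤ ·) atTop
      (fun N : ℕ => ⨆ m : ℕ, ((A ∩ Icc (m + 1) (m + N)).ncard : ℝ) / N) :=
    isBoundedUnder_of ⟨1, hle⟩
  have hb2 : IsCoboundedUnder (· ≤ ·) atTop
      (fun N : ℕ => ⨆ m : ℕ, ((A ∩ Icc (m + 1) (m + N)).ncard : ℝ) / N) :=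
    (isBoundedUnder_of ⟨0, hge⟩ : IsBoundedUnder (· ≥ ·) atTop _).isCoboundedUnder_le
  constructor
  · intro h
    refine ⟨upperBanachDensity A / 2, by positivity, fun L => ?_⟩
    have hf : ∃ᶠ N : ℕ in atTop, upperBanachDensity A / 2 <
        ⨆ m : ℕ, ((A ∩ Icc (m + 1) (m + N)).ncard : ℝ) / N :=
      frequently_lt_of_lt_limsup hb2 (by
        show upperBanachDensity A / 2 < upperBanachDensity A
        linarith)
    obtain ⟨N, hN1, hN2⟩ := (hf.and_eventually (eventually_ge_atTop (max L 1))).exists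
    obtain ⟨m, hm⟩ := exists_lt_of_lt_ciSup hN1
    have hNpos : 1 ≤ N := le_trans (le_max_right _ _) hN2
    refine ⟨N, m, le_trans (le_max_left _ _) hN2, hNpos, ?_⟩
    rw [lt_div_iff₀ (by exact_mod_cast hNpos)] at hm
    exact hm.le
  · rintro ⟨δ, hδ, H⟩
    refine lt_of_lt_of_le hδ ?_
    refine le_limsup_of_frequently_le ?_ hb1
    rw [frequently_atTop]
    intro L
    obtain ⟨N, m, hN, hN1, hm⟩ := H L
    refine ⟨N, hN, ?_⟩
    refine le_trans ?_ (le_ciSup (ubd_bdd A N) m)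
    rw [le_div_iff₀ (by exact_mod_cast hN1)]
    exact hm

lemma retSet_mono {X : Type*} (T : X → X) (x : X) {U V : Set X} (h : U ⊆ V) :
    retSet T x U ⊆ retSet T x V := fun _ hn => ⟨hn.1, h hn.2⟩

/-! ### uniform recurrence passes to the inverse -/

lemma iter_left {X : Type*} {S T : X → X} (hST : ∀ y, S (T y) = y) {N n : ℕ} (h : n ≤ N) (x : X) :
    S^[n] (T^[N] x) = T^[N - n] x := by
  induction n generalizing N with
  | zero => simp
  | succ n ih =>
    obtain ⟨M, rfl⟩ : ∃ M, N = M + 1 := ⟨N - 1, by omega⟩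
    rw [Function.iterate_succ_apply, Function.iterate_succ_apply' T, hST, ih (by omega),
      show M + 1 - (n + 1) = M - n by omega]

theorem IsURec.inv {X : Type*} [TopologicalSpace X] [RegularSpace X] {S T : X → X}
    (hS : Continuous S) (hST : ∀ y, S (T y) = y) {x : X} (hx : IsURec T x) : IsURec S x := by
  intro V hV
  obtain ⟨V', hV'x, hV'c, hV'V⟩ := exists_mem_nhds_isClosed_subset hV
  obtain ⟨m, hm⟩ := hx V' hV'x
  refine ⟨m + 1, fun a => ?_⟩
  by_contra hcon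
  push Not at hcon
  have hout : ∀ n, a + 1 ≤ n → n ≤ a + 1 + m → S^[n] x ∉ V' := by
    intro n hn1 hn2 hmem
    have := hcon n ⟨by omega, hV'V hmem⟩ (by omega)
    omega
  have hO : (⋂ n ∈ Finset.Icc (a + 1) (a + 1 + m), (S^[n]) ⁻¹' V'ᶜ) ∈ 𝓝 x := by
    rw [Filter.biInter_finset_mem]
    intro n hn
    rw [Finset.mem_Icc] at hn
    exact (hV'c.isOpen_compl.preimage (hS.iterate n)).mem_nhds (hout n hn.1 hn.2)
  obtain ⟨m2, hm2⟩ := hx _ hO
  obtain ⟨N, hN, hN1, _⟩ := hm2 (a + 1 + m + 1)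
  obtain ⟨k, hk, hk1, hk2⟩ := hm (N - (a + 1 + m))
  have h1 := hN.2
  simp only [mem_iInter, mem_preimage, mem_compl_iff, Finset.mem_Icc] at h1
  have h2 := h1 (N - k) ⟨by omega, by omega⟩
  rw [iter_left hST (by omega)] at h2
  apply h2
  rw [show N - (N - k) = k by omega]
  exact hk.2

/-! ### reiterative recurrence passes to the inverse -/

lemma retSet_infinite_of_ubd {A : Set ℕ} (h : 0 < upperBanachDensity A) (M : ℕ) :
    ∃ n ∈ A, M ≤ n := by
  rw [ubd_pos_iff] at h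
  obtain ⟨δ, hδ, H⟩ := h
  by_contra hcon
  push Not at hcon
  obtain ⟨L, hL⟩ := exists_nat_gt ((M : ℝ) / δ)
  obtain ⟨N, m, hN, hN1, hm⟩ := H L
  have h1 : (A ∩ Icc (m + 1) (m + N)).ncard ≤ M := by
    calc (A ∩ Icc (m + 1) (m + N)).ncard ≤ (Iio M).ncard :=
          Set.ncard_le_ncard (fun n hn => hcon n hn.1) (finite_Iio _)
      _ = M := by rw [← Finset.coe_Iio, Set.ncard_coe_finset, Nat.card_Iio]
  rw [div_lt_iff₀ hδ] at hL
  have h2 : (M : ℝ) < N * δ := lt_of_lt_of_le hL (by gcongr)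
  have h3 : ((A ∩ Icc (m + 1) (m + N)).ncard : ℝ) ≤ M := by exact_mod_cast h1
  linarith

theorem IsRRec.inv_closure {X : Type*} [UniformSpace X] [CompleteSpace X]
    [(uniformity X).IsCountablyGenerated] {S T : X → X}
    (hS : Continuous S) (hT : Continuous T) (hST : ∀ y, S (T y) = y) (hTS : ∀ y, T (S y) = y)
    {x : X} (hx : IsRRec T x) : x ∈ closure {z | IsRRec S z} := by
  let _ : PseudoMetricSpace X := UniformSpace.pseudoMetricSpace X
  set Z : Set X := closure (range fun n : ℕ => T^[n] x) with hZ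
  have hZc : IsClosed Z := isClosed_closure
  have : CompleteSpace Z := hZc.completeSpace_coe
  -- points of the orbit enter every open set meeting Z infinitely often
  have F1 : ∀ W : Set X, IsOpen W → (W ∩ Z).Nonempty → ∀ M, ∃ n, M ≤ n ∧ T^[n] x ∈ W := by
    intro W hW hWZ M
    obtain ⟨z, hzW, hzZ⟩ := hWZ
    obtain ⟨_, hjW, ⟨j, rfl⟩⟩ := mem_closure_iff.1 hzZ W hW hzW
    have hnb : (T^[j]) ⁻¹' W ∈ 𝓝 x := (hW.preimage (hT.iterate j)).mem_nhds hjW
    obtain ⟨n, hn, hMn⟩ := retSet_infinite_of_ubd (hx _ hnb) M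
    refine ⟨j + n, by omega, ?_⟩
    rw [Function.iterate_add_apply]
    exact hn.2
  obtain ⟨V, hVb⟩ := (𝓝 x).exists_antitone_basis
  -- interiors
  have hVi : ∀ k, interior (V k) ∈ 𝓝 x := fun k => interior_mem_nhds.2 (hVb.1.mem_of_mem trivial)
  have hδ := fun k => (ubd_pos_iff _).1 (hx _ (hVi k))
  choose δ hδpos Hδ using hδ
  let O : ℕ × ℕ → Set Z := fun p => {z : Z | ∃ N m : ℕ, p.2 ≤ N ∧ 1 ≤ N ∧ ∃ F : Finset ℕ,
    F ⊆ Finset.Icc (m + 1) (m + N) ∧ δ p.1 * N ≤ (F.card : ℝ) ∧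
      ∀ n ∈ F, S^[n] (z : X) ∈ interior (V p.1)}
  have hOopen : ∀ p, IsOpen (O p) := by
    intro p
    have : O p = ⋃ N : ℕ, ⋃ m : ℕ, ⋃ _ : p.2 ≤ N, ⋃ _ : 1 ≤ N, ⋃ F : Finset ℕ,
      ⋃ _ : F ⊆ Finset.Icc (m + 1) (m + N), ⋃ _ : δ p.1 * N ≤ (F.card : ℝ),
        ⋂ n ∈ F, (fun z : Z => S^[n] (z : X)) ⁻¹' interior (V p.1) := by
      ext z
      simp only [O, mem_ofPred_eq, mem_iUnion, mem_iInter, mem_preimage, exists_prop]
    rw [this]
    refine isOpen_iUnion fun N => isOpen_iUnion fun m => isOpen_iUnion fun _ =>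
      isOpen_iUnion fun _ => isOpen_iUnion fun F => isOpen_iUnion fun _ => isOpen_iUnion fun _ => ?_
    refine isOpen_biInter_finset fun n _ => ?_
    exact isOpen_interior.preimage ((hS.iterate n).comp continuous_subtype_val)
  have hOdense : ∀ p, Dense (O p) := by
    rintro ⟨k, L⟩
    rw [dense_iff_inter_open]
    rintro W hW ⟨z, hz⟩
    obtain ⟨W', hW'o, rfl⟩ := isOpen_induced_iff.1 hW
    obtain ⟨N, m, hLN, hN1, hcard⟩ := Hδ k L
    obtain ⟨M, hM, hMW⟩ := F1 W' hW'o ⟨z, hz, z.2⟩ (m + N + 1)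
    refine ⟨⟨T^[M] x, subset_closure ⟨M, rfl⟩⟩, hMW, N, M - m - N - 1, hLN, hN1, ?_⟩
    classical
    set A := retSet T x (interior (V k)) with hA
    have hfin : (A ∩ Icc (m + 1) (m + N)).Finite := (finite_Icc _ _).subset inter_subset_right
    refine ⟨hfin.toFinset.image (fun n => M - n), ?_, ?_, ?_⟩
    · intro n hn
      rw [Finset.mem_image] at hn
      obtain ⟨n', hn', rfl⟩ := hn
      rw [Set.Finite.mem_toFinset] at hn'
      have := hn'.2
      rw [mem_Icc] at this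
      rw [Finset.mem_Icc]
      omega
    · rw [Finset.card_image_of_injOn, ← Set.ncard_eq_toFinset_card _ hfin]
      · exact hcard
      · intro a ha b hb hab
        simp only [Finset.mem_coe, Set.Finite.mem_toFinset, mem_inter_iff, mem_Icc] at ha hb hab
        omega
    · intro n hn
      rw [Finset.mem_image] at hn
      obtain ⟨n', hn', rfl⟩ := hn
      rw [Set.Finite.mem_toFinset] at hn'
      have h1 := hn'.2
      rw [mem_Icc] at h1
      show S^[M - n'] (T^[M] x) ∈ interior (V k)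
      rw [iter_left hST (by omega), show M - (M - n') = n' by omega]
      exact hn'.1.2
  have hdense := dense_iInter_of_isOpen hOopen hOdense
  rw [mem_closure_iff_nhds]
  intro U hU
  have hxZ : x ∈ Z := subset_closure ⟨0, rfl⟩
  obtain ⟨U', hU'U, hU'o, hxU'⟩ := mem_nhds_iff.1 hU
  obtain ⟨z, hzU, hzO⟩ := hdense.inter_open_nonempty (Subtype.val ⁻¹' U' : Set Z)
    (hU'o.preimage continuous_subtype_val) ⟨⟨x, hxZ⟩, hxU'⟩
  refine ⟨z, hU'U hzU, ?_⟩
  simp only [mem_iInter] at hzO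
  -- z is reiteratively recurrent for S
  intro W hW
  obtain ⟨W', hW'W, hW'o, hzW'⟩ := mem_nhds_iff.1 hW
  obtain ⟨_, hjW, ⟨j, rfl⟩⟩ := mem_closure_iff.1 z.2 W' hW'o hzW'
  have hnb : (T^[j]) ⁻¹' W' ∈ 𝓝 x := (hW'o.preimage (hT.iterate j)).mem_nhds hjW
  obtain ⟨k, _, hk⟩ := hVb.1.mem_iff.1 hnb
  rw [ubd_pos_iff]
  refine ⟨δ k / 2, half_pos (hδpos k), fun L => ?_⟩
  obtain ⟨L', hL'⟩ := exists_nat_gt ((j : ℝ) / (δ k / 2))
  obtain ⟨N, m, hN, hN1, F, hF, hFc, hFV⟩ := hzO (k, max L L')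
  have hN' : max L L' ≤ N := hN
  have hret : ∀ n ∈ F, j < n → S^[n - j] (z : X) ∈ W := by
    intro n hn hjn
    have h1 := hFV n hn
    have h2 : T^[j] (S^[n] (z : X)) = S^[n - j] (z : X) := iter_left hTS (by omega) _
    rw [← h2]
    exact hW'W (hk (interior_subset h1))
  have hjbound : (j : ℝ) ≤ δ k / 2 * N := by
    rw [div_lt_iff₀ (half_pos (hδpos k))] at hL'
    have h3 : (L' : ℝ) ≤ N := by exact_mod_cast (le_max_right L L').trans hN'
    nlinarith [hδpos k]
  classical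
  refine ⟨N, m - j, (le_max_left _ _).trans hN', hN1, ?_⟩
  have hFj : ((F.filter (fun n => j < n)).card : ℝ) ≥ F.card - j := by
    have h4 : F.card = (F.filter (fun n => j < n)).card + (F.filter (fun n => ¬ j < n)).card :=
      (Finset.card_filter_add_card_filter_not (fun n => j < n)).symm
    have h5 : (F.filter (fun n => ¬ j < n)).card ≤ j := by
      calc (F.filter (fun n => ¬ j < n)).card ≤ (Finset.Icc 1 j).card := by
            apply Finset.card_le_card
            intro n hn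
            rw [Finset.mem_filter] at hn
            have := Finset.mem_Icc.1 (hF hn.1)
            rw [Finset.mem_Icc]
            omega
        _ = j := by simp
    have h6 : (F.card : ℝ) = (F.filter (fun n => j < n)).card + (F.filter (fun n => ¬ j < n)).card := by
      exact_mod_cast h4
    have h7 : ((F.filter (fun n => ¬ j < n)).card : ℝ) ≤ j := by exact_mod_cast h5
    linarith
  have hsub : (((F.filter (fun n => j < n)).image (fun n => n - j) : Finset ℕ) : Set ℕ) ⊆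
      retSet S z W ∩ Icc (m - j + 1) (m - j + N) := by
    intro n hn
    simp only [Finset.coe_image, Finset.coe_filter, mem_image, mem_ofPred_eq] at hn
    obtain ⟨n', ⟨hn', hj'⟩, rfl⟩ := hn
    have := Finset.mem_Icc.1 (hF hn')
    refine ⟨⟨by omega, hret n' hn' hj'⟩, ?_⟩
    rw [mem_Icc]
    omega
  have hcard : ((F.filter (fun n => j < n)).image (fun n => n - j)).card =
      (F.filter (fun n => j < n)).card := by
    apply Finset.card_image_of_injOn
    intro a ha b hb hab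
    simp only [Finset.coe_filter, mem_ofPred_eq] at ha hb hab
    omega
  have hle : (((F.filter (fun n => j < n)).image (fun n => n - j)).card : ℝ) ≤
      ((retSet S z W ∩ Icc (m - j + 1) (m - j + N)).ncard : ℝ) := by
    rw [← Set.ncard_coe_finset]
    exact_mod_cast Set.ncard_le_ncard hsub ((finite_Icc _ _).subset inter_subset_right)
  rw [hcard] at hle
  have hFc' : δ k * N ≤ (F.card : ℝ) := hFc
  linarith

end Pool.Agent.H615R3
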