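import Pool.Agent.H615R3.UFComb

set_option autoImplicit false

namespace Pool.Agent.H615R3.UF

open Finset Classical

variable {Lam : ℕ → ℕ}

lemma uf_phi (hLm : Monotone Lam) (hLk : ∀ k, k + 1 ≤ Lam k) {i k1 ks h : ℕ} (hk1 : h ≤ k1)
    (hi : k1 + 2 ≤ i) (bb : ℕ → ℕ) (hb : ∀ k, k + 1 + 2 * bb k ≤ Lam k) (k n : ℕ)
    (hn : n ∈ A Lam k) :
    (∀ l < Lam k + 2 * bb k + h, (low Lam i k1 ks (n + l) ↔ low Lam i k1 ks l)) ∨
      ((k = ks ∧ k < k1) ∧ (∀ l < Lam k + 2 * bb k + h, low Lam i k1 ks l) ∧
        ((∀ l < Lam k + 2 * bb k + h, low Lam i k1 ks (n + l)) ∨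
          (∀ l < Lam k + 2 * bb k + h, ¬ low Lam i k1 ks (n + l)))) := by
  obtain ⟨hdvd, e, he1, hek, hen, hen4⟩ := hn
  have hke : k < e := by rw [← hek]; exact cls_lt e he1
  have hM1 : M Lam (k + 1) ≤ M Lam e := M_mono Lam (by omega)
  have h64 := M_64 Lam hLk e
  have hMe := M_pos Lam e
  by_cases hkk1 : k1 ≤ k
  · left
    intro l hl
    have hb' := hb k
    have hl2 : l < 2 * Lam k := by omega
    have hz := zone_lt Lam hLk k
    have hlM : l < M Lam (k + 1) := by omega
    have hlt : n + l < M Lam (e + 1) := by omega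
    have hmod : (n + l) % M Lam (k + 1) = l := by
      rw [Nat.add_mod, Nat.mod_eq_zero_of_dvd hdvd, zero_add, Nat.mod_mod, Nat.mod_eq_of_lt hlM]
    by_cases hki : i ≤ k
    · have h3 := low3 (Lam := Lam) (i := i) (k1 := k1) (ks := ks) hLk (n := n + l) (e := e)
        (by omega) hlt (by omega) he1 (by omega) (by omega)
      rw [h3, hek, hmod]
    · have hlow : low Lam i k1 ks l := by
        apply low0
        have := M_mono Lam (show k + 1 ≤ i by omega)
        omega
      refine iff_of_true ?_ hlow
      by_cases hie : i ≤ e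
      · have h2 := low2 (Lam := Lam) (i := i) (k1 := k1) (ks := ks) hLk (n := n + l) (e := e)
          (by omega) hlt hie (by omega) (by omega)
        rw [h2, hek, hmod]
        exact Or.inl hl2
      · apply low0
        have := M_mono Lam (show e + 1 ≤ i by omega)
        omega
  · push Not at hkk1
    have hlb : ∀ l < Lam k + 2 * bb k + h, l < M Lam (i - 1) := by
      intro l hl
      have h1 := hb k
      have h2 : Lam k ≤ Lam k1 := hLm hkk1.le
      have h3 := zone_lt Lam hLk k1
      have h4 := hLk k1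
      have h5 := M_mono Lam (show k1 + 1 ≤ i - 1 by omega)
      omega
    have hMi : 64 * M Lam (i - 1) ≤ M Lam i := by
      have := M_64 Lam hLk (i - 1)
      rwa [Nat.sub_add_cancel (by omega)] at this
    have hlow : ∀ l < Lam k + 2 * bb k + h, low Lam i k1 ks l := by
      intro l hl
      apply low0
      have := hlb l hl
      omega
    by_cases hie : i ≤ e
    · have hMie := M_mono Lam hie
      have h1 : ∀ l < Lam k + 2 * bb k + h, (low Lam i k1 ks (n + l) ↔ k ≠ ks) := by
        intro l hl
        have h2 := hlb l hl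
        have := low1 (Lam := Lam) (i := i) (k1 := k1) (ks := ks) hLk (n := n + l) (e := e)
          (by omega) (by omega) hie (by omega)
        rw [this, hek]
      by_cases hks : k = ks
      · right
        refine ⟨⟨hks, hkk1⟩, hlow, Or.inr fun l hl => ?_⟩
        rw [h1 l hl]
        exact fun h => h hks
      · left
        intro l hl
        rw [h1 l hl]
        exact iff_of_true hks (hlow l hl)
    · left
      intro l hl
      refine iff_of_true ?_ (hlow l hl)
      apply low0
      have h2 := hlb l hl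
      have h3 := M_mono Lam (show e ≤ i - 1 by omega)
      omega

lemma uf_bad (hLk : ∀ k, k + 1 ≤ Lam k) {i k1 ks : ℕ}
    (hi : 1 ≤ i) (hks : cls i = ks) (k n : ℕ) (hn : n ∈ A Lam k) (hk1k : k1 ≤ k)
    (l : ℕ) (hl : l < 2 * Lam k) (y : ℕ) (hy1 : M Lam i ≤ y) (hy2 : y < M Lam (i + 1))
    (hbad : ¬ (low Lam i k1 ks (y + l + n) ↔ low Lam i k1 ks (y + l))) :
    (k ≤ i ∧ M Lam (i + 1) ≤ y + (5 * M Lam i + 2 * Lam i)) ∨
    (k < i ∧ (y + l) % M Lam (k + 1) < 2 * Lam k) ∨
    (k < ks ∧ ((y + l) % M Lam (ks + 1) < 2 * Lam ks ∨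
      (y + (l + n)) % M Lam (ks + 1) < 2 * Lam ks)) := by
  by_contra hcon
  apply hbad
  push Not at hcon
  obtain ⟨hc1, hc2, hc3⟩ := hcon
  obtain ⟨hdvd, e, he1, hek, hen, hen4⟩ := hn
  have hke : k < e := by rw [← hek]; exact cls_lt e he1
  have hM1 : M Lam (k + 1) ≤ M Lam e := M_mono Lam (by omega)
  have h64 := M_64 Lam hLk e
  have hMe := M_pos Lam e
  have hz := zone_lt Lam hLk k
  have hzi := zone_lt Lam hLk i
  have hksi : ks < i := by rw [← hks]; exact cls_lt i hi
  have hmodk : (y + l + n) % M Lam (k + 1) = (y + l) % M Lam (k + 1) := by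
    rw [Nat.add_mod, Nat.mod_eq_zero_of_dvd hdvd, add_zero, Nat.mod_mod]
  by_cases hki : i ≤ k
  · -- exact equality
    have hyl : y + l < M Lam (k + 1) := by
      rcases Nat.eq_or_lt_of_le hki with h | h
      · subst h
        have := hc1 le_rfl
        omega
      · have h1 := M_mono Lam (show i + 1 ≤ k by omega)
        have h2 := M_64 Lam hLk k
        omega
    have h3 := low3 (Lam := Lam) (i := i) (k1 := k1) (ks := ks) hLk (n := y + l + n) (e := e)
      (by omega) (by omega) (by omega) he1 (by omega) (by omega)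
    rw [h3, hek, hmodk, Nat.mod_eq_of_lt hyl]
  · push Not at hki
    have hc1' := hc1 hki.le
    have hc2' := hc2 hki
    have hMk := M_mono Lam (show k + 1 ≤ i by omega)
    have hy3 : y + l < M Lam (i + 1) := by omega
    -- formula in epoch i
    have hform : ∀ z, M Lam i ≤ z → z < M Lam (i + 1) → (low Lam i k1 ks z ↔
        (k1 ≤ ks ∧ z % M Lam (ks + 1) < 2 * Lam ks)) := by
      intro z hz1 hz2
      by_cases hk : ks < k1
      · rw [low1 hLk hz1 hz2 le_rfl (by omega)]
        constructor
        · intro h; exact absurd hks h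
        · intro h; omega
      · push Not at hk
        rw [low2 hLk hz1 hz2 le_rfl (by omega) (by omega), hks]
        constructor
        · rintro (h | h)
          · exact ⟨hk, h⟩
          · exact h
        · intro h; exact Or.inr h
    -- comparison of the two residues mod M (ks+1)
    have hcmp : (k1 ≤ ks ∧ (y + l + n) % M Lam (ks + 1) < 2 * Lam ks) ↔
        (k1 ≤ ks ∧ (y + l) % M Lam (ks + 1) < 2 * Lam ks) := by
      by_cases hkks : k < ks
      · obtain ⟨h1, h2⟩ := hc3 hkks
        rw [add_assoc]
        constructor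
        · rintro ⟨_, h⟩; omega
        · rintro ⟨_, h⟩; omega
      · push Not at hkks
        have hd : M Lam (ks + 1) ∣ n := (M_dvd Lam (show ks + 1 ≤ k + 1 by omega)).trans hdvd
        have : (y + l + n) % M Lam (ks + 1) = (y + l) % M Lam (ks + 1) := by
          rw [Nat.add_mod, Nat.mod_eq_zero_of_dvd hd, add_zero, Nat.mod_mod]
        rw [this]
    rw [hform (y + l) (by omega) hy3]
    by_cases hei : e ≤ i
    · have h1 := M_mono Lam hei
      rw [hform (y + l + n) (by omega) (by omega)]
      exact hcmp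
    · push Not at hei
      have h1 := M_mono Lam (show i + 1 ≤ e by omega)
      rw [low2 hLk (n := y + l + n) (e := e) (by omega) (by omega) hei.le (by omega) (by omega),
        hek, hmodk]
      rw [← hcmp]
      constructor
      · rintro (h | h)
        · omega
        · exact h
      · intro h; exact Or.inr h

end Pool.Agent.H615R3.UF
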