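import Pool.Agent.H615R3.UFComb2

set_option autoImplicit false

namespace Pool.Agent.H615R3.UF

open Finset Classical

variable {Lam : ℕ → ℕ}

lemma end_count (hLk : ∀ k, k + 1 ≤ Lam k) (i N : ℕ) (hN : N < M Lam (i + 1)) (T : Finset ℕ)
    (hT : ∀ y ∈ T, y ≤ N ∧ M Lam (i + 1) ≤ y + (5 * M Lam i + 2 * Lam i)) :
    16 ^ Lam i * T.card ≤ 14 * N := by
  rcases T.eq_empty_or_nonempty with h | ⟨y, hy⟩
  · simp [h]
  obtain ⟨h1, h2⟩ := hT y hy
  have h3 := F3 Lam i
  have h4 := F16 Lam hLk i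
  have h5 : 16 * (5 * M Lam i + 2 * Lam i) ≤ 7 * M Lam (i + 1) :=
    (Nat.mul_le_mul_right _ h4).trans h3
  have h6 : T.card ≤ 5 * M Lam i + 2 * Lam i := by
    have h7 : T ⊆ Ico (M Lam (i + 1) - (5 * M Lam i + 2 * Lam i)) (M Lam (i + 1)) := by
      intro z hz
      have := hT z hz
      rw [mem_Ico]
      omega
    have h8 := card_le_card h7
    rw [Nat.card_Ico] at h8
    omega
  have h9 := (Nat.mul_le_mul_left (16 ^ Lam i) h6).trans h3
  omega

lemma zcount (k s N : ℕ) (hN : M Lam (k + 1) ≤ N) (T : Finset ℕ)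
    (hT : ∀ y ∈ T, y ≤ N ∧ (y + s) % M Lam (k + 1) < 2 * Lam k) :
    16 ^ Lam k * T.card ≤ 6 * N := by
  have h1 := count_mod (M Lam (k + 1)) (2 * Lam k) s N (M_pos Lam _) T hT
  have h2 := F4 Lam k
  calc 16 ^ Lam k * T.card ≤ 16 ^ Lam k * ((N / M Lam (k + 1) + 2) * (2 * Lam k)) :=
        Nat.mul_le_mul_left _ h1
    _ = (N / M Lam (k + 1) + 2) * (16 ^ Lam k * (2 * Lam k)) := by ring
    _ ≤ (N / M Lam (k + 1) + 2) * (2 * M Lam (k + 1)) := Nat.mul_le_mul_left _ h2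
    _ = 2 * (M Lam (k + 1) * (N / M Lam (k + 1))) + 4 * M Lam (k + 1) := by ring
    _ ≤ 2 * N + 4 * N := by
        have := Nat.mul_div_le N (M Lam (k + 1))
        omega
    _ = 6 * N := by ring

lemma uf_count (hLm : Monotone Lam) (hLk : ∀ k, k + 1 ≤ Lam k) {i k1 ks : ℕ}
    (hi : 1 ≤ i) (hks : cls i = ks) (k n : ℕ) (hn : n ∈ A Lam k) (hk1k : k1 ≤ k)
    (l : ℕ) (hl : l < 2 * Lam k) (N : ℕ) (hN1 : M Lam i ≤ N) (hN2 : N < M Lam (i + 1))
    (F : Finset ℕ) (hF : ∀ y ∈ F, M Lam i ≤ y ∧ y ≤ N) :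
    16 ^ Lam k * (F.filter fun y =>
      ¬ (low Lam i k1 ks (y + l + n) ↔ low Lam i k1 ks (y + l))).card ≤ 32 * N := by
  set T := F.filter fun y =>
      ¬ (low Lam i k1 ks (y + l + n) ↔ low Lam i k1 ks (y + l)) with hT
  set T1 := T.filter fun y => k ≤ i ∧ M Lam (i + 1) ≤ y + (5 * M Lam i + 2 * Lam i) with hT1
  set T2 := T.filter fun y => k < i ∧ (y + l) % M Lam (k + 1) < 2 * Lam k with hT2
  set T3 := T.filter fun y => k < ks ∧ (y + l) % M Lam (ks + 1) < 2 * Lam ks with hT3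
  set T4 := T.filter fun y => k < ks ∧ (y + (l + n)) % M Lam (ks + 1) < 2 * Lam ks with hT4
  have hsub : T ⊆ T1 ∪ (T2 ∪ (T3 ∪ T4)) := by
    intro y hy
    have hy' := hy
    rw [hT, mem_filter] at hy'
    obtain ⟨hyF, hbad⟩ := hy'
    obtain ⟨h1, h2⟩ := hF y hyF
    simp only [mem_union, hT1, hT2, hT3, hT4, mem_filter]
    rcases uf_bad hLk hi hks k n hn hk1k l hl y h1 (by omega) hbad with h | h | ⟨h, h' | h'⟩
    · exact Or.inl ⟨hy, h⟩
    · exact Or.inr (Or.inl ⟨hy, h⟩)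
    · exact Or.inr (Or.inr (Or.inl ⟨hy, h, h'⟩))
    · exact Or.inr (Or.inr (Or.inr ⟨hy, h, h'⟩))
  have hle : ∀ y ∈ T, y ≤ N := fun y hy => (hF y (mem_of_mem_filter y hy)).2
  have hksi : ks < i := by rw [← hks]; exact cls_lt i hi
  have c1 : 16 ^ Lam k * T1.card ≤ 14 * N := by
    by_cases hki : k ≤ i
    · have h1 := end_count hLk i N hN2 T1 (by
        intro y hy
        rw [hT1, mem_filter] at hy
        exact ⟨hle y hy.1, hy.2.2⟩)
      have h2 : 16 ^ Lam k ≤ 16 ^ Lam i := Nat.pow_le_pow_right (by norm_num) (hLm hki)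
      exact (Nat.mul_le_mul_right _ h2).trans h1
    · have : T1 = ∅ := by
        rw [hT1, filter_eq_empty_iff]
        intro y _ h
        exact hki h.1
      simp [this]
  have c2 : 16 ^ Lam k * T2.card ≤ 6 * N := by
    by_cases hki : k < i
    · have h1 := M_mono Lam (show k + 1 ≤ i by omega)
      exact zcount k l N (by omega) T2 (by
        intro y hy
        rw [hT2, mem_filter] at hy
        exact ⟨hle y hy.1, hy.2.2⟩)
    · have : T2 = ∅ := by
        rw [hT2, filter_eq_empty_iff]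
        intro y _ h
        exact hki h.1
      simp [this]
  have h1 := M_mono Lam (show ks + 1 ≤ i by omega)
  have c3 : 16 ^ Lam k * T3.card ≤ 6 * N := by
    by_cases hki : k < ks
    · have h2 : 16 ^ Lam k ≤ 16 ^ Lam ks := Nat.pow_le_pow_right (by norm_num) (hLm hki.le)
      refine (Nat.mul_le_mul_right _ h2).trans ?_
      exact zcount ks l N (by omega) T3 (by
        intro y hy
        rw [hT3, mem_filter] at hy
        exact ⟨hle y hy.1, hy.2.2⟩)
    · have : T3 = ∅ := by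
        rw [hT3, filter_eq_empty_iff]
        intro y _ h
        exact hki h.1
      simp [this]
  have c4 : 16 ^ Lam k * T4.card ≤ 6 * N := by
    by_cases hki : k < ks
    · have h2 : 16 ^ Lam k ≤ 16 ^ Lam ks := Nat.pow_le_pow_right (by norm_num) (hLm hki.le)
      refine (Nat.mul_le_mul_right _ h2).trans ?_
      exact zcount ks (l + n) N (by omega) T4 (by
        intro y hy
        rw [hT4, mem_filter] at hy
        exact ⟨hle y hy.1, hy.2.2⟩)
    · have : T4 = ∅ := by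
        rw [hT4, filter_eq_empty_iff]
        intro y _ h
        exact hki h.1
      simp [this]
  have hcard : T.card ≤ T1.card + (T2.card + (T3.card + T4.card)) := by
    refine (card_le_card hsub).trans ((card_union_le _ _).trans ?_)
    gcongr
    refine (card_union_le _ _).trans ?_
    gcongr
    exact card_union_le _ _
  calc 16 ^ Lam k * T.card ≤ 16 ^ Lam k * (T1.card + (T2.card + (T3.card + T4.card))) :=
        Nat.mul_le_mul_left _ hcard
    _ = 16 ^ Lam k * T1.card + (16 ^ Lam k * T2.card + (16 ^ Lam k * T3.card +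
        16 ^ Lam k * T4.card)) := by ring
    _ ≤ 32 * N := by omega

lemma uf_low_count (hLk : ∀ k, k + 1 ≤ Lam k) {i k1 ks : ℕ}
    (hi : 1 ≤ i) (hks : cls i = ks) (m : ℕ) (hm : m ≤ M Lam i) (N : ℕ) (hN1 : M Lam i ≤ N)
    (hN2 : N < M Lam (i + 1)) (F : Finset ℕ) (hF : ∀ y ∈ F, M Lam i ≤ y ∧ y ≤ N)
    (K : ℕ) (hK1 : K ≤ Lam i) (hK2 : k1 ≤ ks → K ≤ Lam ks) :
    16 ^ K * (F.filter fun y => low Lam i k1 ks (y + m)).card ≤ 20 * N := by
  set T := F.filter fun y => low Lam i k1 ks (y + m) with hT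
  set T1 := T.filter fun y => M Lam (i + 1) ≤ y + (5 * M Lam i + 2 * Lam i) with hT1
  set T2 := T.filter fun y => k1 ≤ ks ∧ (y + m) % M Lam (ks + 1) < 2 * Lam ks with hT2
  have hksi : ks < i := by rw [← hks]; exact cls_lt i hi
  have hsub : T ⊆ T1 ∪ T2 := by
    intro y hy
    have hy' := hy
    rw [hT, mem_filter] at hy'
    obtain ⟨hyF, hlow⟩ := hy'
    obtain ⟨h1, h2⟩ := hF y hyF
    simp only [mem_union, hT1, hT2, mem_filter]
    by_cases he : M Lam (i + 1) ≤ y + (5 * M Lam i + 2 * Lam i)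
    · exact Or.inl ⟨hy, he⟩
    · right
      refine ⟨hy, ?_⟩
      push Not at he
      by_cases hk : ks < k1
      · rw [low1 hLk (e := i) (by omega) (by omega) le_rfl (by omega)] at hlow
        exact absurd hks hlow
      · push Not at hk
        rw [low2 hLk (e := i) (by omega) (by omega) le_rfl (by omega) (by omega), hks] at hlow
        rcases hlow with h | h
        · exact ⟨hk, h⟩
        · exact h
  have hle : ∀ y ∈ T, y ≤ N := fun y hy => (hF y (mem_of_mem_filter y hy)).2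
  have c1 : 16 ^ K * T1.card ≤ 14 * N := by
    have h1 := end_count hLk i N hN2 T1 (by
        intro y hy
        rw [hT1, mem_filter] at hy
        exact ⟨hle y hy.1, hy.2⟩)
    have h2 : 16 ^ K ≤ 16 ^ Lam i := Nat.pow_le_pow_right (by norm_num) hK1
    exact (Nat.mul_le_mul_right _ h2).trans h1
  have h1 := M_mono Lam (show ks + 1 ≤ i by omega)
  have c2 : 16 ^ K * T2.card ≤ 6 * N := by
    by_cases hki : k1 ≤ ks
    · have h2 : 16 ^ K ≤ 16 ^ Lam ks := Nat.pow_le_pow_right (by norm_num) (hK2 hki)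
      refine (Nat.mul_le_mul_right _ h2).trans ?_
      exact zcount ks m N (by omega) T2 (by
        intro y hy
        rw [hT2, mem_filter] at hy
        exact ⟨hle y hy.1, hy.2.2⟩)
    · have : T2 = ∅ := by
        rw [hT2, filter_eq_empty_iff]
        intro y _ h
        exact hki h.1
      simp [this]
  have hcard : T.card ≤ T1.card + T2.card := (card_le_card hsub).trans (card_union_le _ _)
  calc 16 ^ K * T.card ≤ 16 ^ K * (T1.card + T2.card) := Nat.mul_le_mul_left _ hcard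
    _ = 16 ^ K * T1.card + 16 ^ K * T2.card := by ring
    _ ≤ 20 * N := by omega

/-- positive upper density -/
def BigU (S : Set ℕ) : Prop :=
  ∃ ε : ℝ, 0 < ε ∧ ∀ N₀ : ℕ, ∃ N : ℕ, N₀ < N ∧
    ε * (N : ℝ) ≤ (({n : ℕ | 1 ≤ n ∧ n ≤ N ∧ n ∈ S}.ncard : ℕ) : ℝ)

lemma BigU.mono {S S' : Set ℕ} (h : S ⊆ S') (hS : BigU S) : BigU S' := by
  obtain ⟨ε, hε, h1⟩ := hS
  refine ⟨ε, hε, fun N₀ => ?_⟩
  obtain ⟨N, hN, h2⟩ := h1 N₀
  refine ⟨N, hN, h2.trans ?_⟩
  have hfin : {n : ℕ | 1 ≤ n ∧ n ≤ N ∧ n ∈ S'}.Finite :=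
    (Set.finite_Icc 1 N).subset fun n hn => ⟨hn.1, hn.2.1⟩
  have hsub : {n : ℕ | 1 ≤ n ∧ n ≤ N ∧ n ∈ S} ⊆ {n : ℕ | 1 ≤ n ∧ n ≤ N ∧ n ∈ S'} :=
    fun n hn => ⟨hn.1, hn.2.1, h hn.2.2⟩
  exact_mod_cast Set.ncard_le_ncard hsub hfin

lemma ncard_eq (S : Set ℕ) (N : ℕ) :
    {n : ℕ | 1 ≤ n ∧ n ≤ N ∧ n ∈ S}.ncard = ((Icc 1 N).filter (· ∈ S)).card := by
  rw [← Set.ncard_coe_finset]
  congr 1
  ext n
  simp only [Set.mem_ofPred_eq, coe_filter, mem_Icc]
  tauto

lemma windows (hLk : ∀ k, k + 1 ≤ Lam k) (S : Set ℕ) (hS : BigU S) :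
    ∃ δ : ℝ, 0 < δ ∧ ∀ I : ℕ, ∃ i, I ≤ i ∧ ∃ N : ℕ, ∃ F : Finset ℕ, M Lam i ≤ N ∧
      N < M Lam (i + 1) ∧ (∀ y ∈ F, y ∈ S ∧ M Lam i ≤ y ∧ y ≤ N) ∧ δ * N ≤ F.card := by
  obtain ⟨ε, hε, h1⟩ := hS
  refine ⟨ε / 4, by positivity, fun I => ?_⟩
  obtain ⟨r, hr⟩ := pow_unbounded_of_one_lt (4 / ε) (by norm_num : (1 : ℝ) < 64)
  obtain ⟨N, hN, h2⟩ := h1 (M Lam (I + r + 2))
  rw [ncard_eq] at h2
  obtain ⟨i, hi1, hi2⟩ := exists_epoch Lam hLk N (by omega)
  have hIi : I + r + 2 ≤ i := by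
    by_contra hc
    have := M_mono Lam (show i + 1 ≤ I + r + 2 by omega)
    omega
  set F1 := (Icc (M Lam i) N).filter (· ∈ S) with hF1
  by_cases hc : ε / 4 * N ≤ F1.card
  · refine ⟨i, by omega, N, F1, hi1, hi2, ?_, hc⟩
    intro y hy
    rw [hF1, mem_filter, mem_Icc] at hy
    exact ⟨hy.2, hy.1⟩
  · push Not at hc
    set F2 := (Icc (M Lam (i - 1)) (M Lam i - 1)).filter (· ∈ S) with hF2
    have hMpos := M_pos Lam i
    have hMpos' := M_pos Lam (i - 1)
    have h64 : M Lam i = M Lam (i - 1) * 64 ^ Lam (i - 1) := by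
      have := M_succ Lam (i - 1)
      rwa [Nat.sub_add_cancel (by omega)] at this
    have hsub : (Icc 1 N).filter (· ∈ S) ⊆ range (M Lam (i - 1)) ∪ (F2 ∪ F1) := by
      intro y hy
      rw [mem_filter, mem_Icc] at hy
      simp only [mem_union, mem_range, hF1, hF2, mem_filter, mem_Icc]
      rcases lt_or_ge y (M Lam (i - 1)) with h | h
      · exact Or.inl h
      · right
        rcases lt_or_ge y (M Lam i) with h' | h'
        · exact Or.inl ⟨⟨h, by omega⟩, hy.2⟩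
        · exact Or.inr ⟨⟨h', hy.1.2⟩, hy.2⟩
    have hcard : (((Icc 1 N).filter (· ∈ S)).card : ℝ) ≤ M Lam (i - 1) + (F2.card + F1.card) := by
      have h3 := (card_le_card hsub).trans (card_union_le _ _)
      have h4 := card_union_le F2 F1
      rw [card_range] at h3
      have h5 : ((Icc 1 N).filter (· ∈ S)).card ≤ M Lam (i - 1) + (F2.card + F1.card) := by omega
      exact_mod_cast h5
    have h5 : (M Lam (i - 1) : ℝ) ≤ ε / 4 * M Lam i := by
      have h6 : (64 : ℝ) ^ r ≤ 64 ^ Lam (i - 1) :=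
        pow_le_pow_right₀ (by norm_num) (by have := hLk (i - 1); omega)
      have h7 : 4 / ε ≤ (64 : ℝ) ^ Lam (i - 1) := hr.le.trans h6
      have h8 : (M Lam i : ℝ) = M Lam (i - 1) * 64 ^ Lam (i - 1) := by exact_mod_cast h64
      rw [h8]
      have h9 : (0 : ℝ) < M Lam (i - 1) := by exact_mod_cast hMpos'
      calc (M Lam (i - 1) : ℝ) = ε / 4 * (M Lam (i - 1) * (4 / ε)) := by field_simp
        _ ≤ ε / 4 * (M Lam (i - 1) * 64 ^ Lam (i - 1)) := by gcongr
    have hNr : (M Lam i : ℝ) ≤ N := by exact_mod_cast hi1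
    have h10 : ε / 4 * (N : ℝ) ≥ ε / 4 * M Lam i := by gcongr
    have hlt : M Lam (i - 1) < M Lam i := by
      rw [h64]
      have : 1 < 64 ^ Lam (i - 1) := Nat.one_lt_pow (by have := hLk (i - 1); omega) (by norm_num)
      nlinarith
    refine ⟨i - 1, by omega, M Lam i - 1, F2, by omega, ?_, ?_, ?_⟩
    · rw [Nat.sub_add_cancel (by omega)]; omega
    · intro y hy
      rw [hF2, mem_filter, mem_Icc] at hy
      exact ⟨hy.2, hy.1⟩
    · have h11 : ((M Lam i - 1 : ℕ) : ℝ) ≤ M Lam i := by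
        exact_mod_cast Nat.sub_le _ _
      calc ε / 4 * ((M Lam i - 1 : ℕ) : ℝ) ≤ ε / 4 * M Lam i := by gcongr
        _ ≤ F2.card := by nlinarith

end Pool.Agent.H615R3.UF
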